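import Mathlib

/-!
Lower bound for finite groups containing elements which satisfy some of the relations of the
two strand pure braid group of a closed surface of genus `b`.
-/

namespace Pool.Agent.V11319.BraidLower

variable {G : Type*} [Group G]

/-- Elements commuting with `x`. -/
def cen (x : G) : Subgroup G where
  carrier := {y | x * y = y * x}
  mul_mem' := by
    intro a b ha hb
    simp only [Set.mem_ofPred_eq] at *
    rw [← mul_assoc, ha, mul_assoc, hb, mul_assoc]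
  one_mem' := by simp
  inv_mem' := by
    intro a ha
    simp only [Set.mem_ofPred_eq] at *
    have := congrArg (fun t => a⁻¹ * t * a⁻¹) ha
    simp only [mul_assoc] at this
    simpa using this.symm

theorem mem_cen {x y : G} : y ∈ cen x ↔ x * y = y * x := Iff.rfl

theorem mem_cen' {x y : G} : y ∈ cen x ↔ x * y * x⁻¹ = y := by
  rw [mem_cen, mul_inv_eq_iff_eq_mul]

theorem idx [Finite G] (H K : Subgroup G) (hHK : H ≤ K) (m : ℕ) (s : Fin m → G)
    (hs : ∀ i, s i ∈ K) (hne : ∀ i j, i < j → (s i)⁻¹ * s j ∉ H) :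
    m * Nat.card H ≤ Nat.card K := by
  have hinj : Function.Injective
      (fun p : Fin m × H => (⟨s p.1 * p.2.1, K.mul_mem (hs p.1) (hHK p.2.2)⟩ : K)) := by
    rintro ⟨i, h⟩ ⟨j, h'⟩ heq
    have h1 : s i * h.1 = s j * h'.1 := congrArg Subtype.val heq
    have h2 : (s i)⁻¹ * s j = h.1 * h'.1⁻¹ := by
      rw [eq_mul_inv_iff_mul_eq, mul_assoc, ← h1, inv_mul_cancel_left]
    have h3 : (s i)⁻¹ * s j ∈ H := h2 ▸ H.mul_mem h.2 (H.inv_mem h'.2)
    have h4 : (s j)⁻¹ * s i ∈ H := by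
      have := H.inv_mem h3
      simpa using this
    have h5 : i = j := by
      rcases lt_trichotomy i j with hlt | heq' | hgt
      · exact absurd h3 (hne i j hlt)
      · exact heq'
      · exact absurd h4 (hne j i hgt)
    subst h5
    have h6 : h.1 = h'.1 := mul_left_cancel h1
    have h7 : h = h' := Subtype.ext h6
    rw [h7]
  have := Nat.card_le_card_of_injective _ hinj
  rwa [Nat.card_prod, Nat.card_fin] at this

/-- Counting cosets through the values of the twisted displacement. -/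
theorem idx_cen [Finite G] (K : Subgroup G) (R : G) (m : ℕ) (s : Fin m → G)
    (hs : ∀ i, s i ∈ K)
    (hne : ∀ i j, i < j → R * s i * R⁻¹ * (s i)⁻¹ ≠ R * s j * R⁻¹ * (s j)⁻¹) :
    m * Nat.card (K ⊓ cen R : Subgroup G) ≤ Nat.card K := by
  refine idx _ K inf_le_left m s hs ?_
  intro i j hij hmem
  apply hne i j hij
  have h1 : R * ((s i)⁻¹ * s j) = ((s i)⁻¹ * s j) * R := mem_cen.1 hmem.2
  have h2 : s j = s i * (R⁻¹ * ((s i)⁻¹ * s j) * R) := by
    rw [mul_assoc R⁻¹, ← h1]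
    group
  have h3 : R * s j * R⁻¹ * (s j)⁻¹ = R * (s i * (R⁻¹ * ((s i)⁻¹ * s j) * R)) * R⁻¹ * (s j)⁻¹ := by
    rw [← h2]
  rw [h3]
  group

theorem idx2 [Finite G] (K : Subgroup G) (R x : G) (hx : x ∈ K)
    (h : R * x * R⁻¹ ≠ x) :
    2 * Nat.card (K ⊓ cen R : Subgroup G) ≤ Nat.card K := by
  refine idx_cen K R 2 ![1, x] ?_ ?_
  · intro i
    fin_cases i
    · exact K.one_mem
    · exact hx
  · intro i j hij
    have : i = 0 ∧ j = 1 := by
      fin_cases i <;> fin_cases j <;> simp_all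
    obtain ⟨rfl, rfl⟩ := this
    simp only [Matrix.cons_val_zero, Matrix.cons_val_one]
    intro h1
    apply h
    have h2 : R * x * R⁻¹ * x⁻¹ = 1 := by
      rw [← h1]; group
    exact mul_inv_eq_one.1 h2

theorem idx3 [Finite G] (K : Subgroup G) (R x y z : G) (hx : x ∈ K) (hy : y ∈ K) (hz : z ∈ K)
    (h1 : R * x * R⁻¹ * x⁻¹ ≠ R * y * R⁻¹ * y⁻¹)
    (h2 : R * x * R⁻¹ * x⁻¹ ≠ R * z * R⁻¹ * z⁻¹)
    (h3 : R * y * R⁻¹ * y⁻¹ ≠ R * z * R⁻¹ * z⁻¹) :
    3 * Nat.card (K ⊓ cen R : Subgroup G) ≤ Nat.card K := by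
  refine idx_cen K R 3 ![x, y, z] ?_ ?_
  · intro i
    fin_cases i
    · exact hx
    · exact hy
    · exact hz
  · intro i j hij
    fin_cases i <;> fin_cases j <;> first | (exact absurd hij (by decide)) | (exact h1) | (exact h2) | (exact h3)

theorem idx4 [Finite G] (K : Subgroup G) (R x y z w : G) (hx : x ∈ K) (hy : y ∈ K) (hz : z ∈ K)
    (hw : w ∈ K)
    (h1 : R * x * R⁻¹ * x⁻¹ ≠ R * y * R⁻¹ * y⁻¹)
    (h2 : R * x * R⁻¹ * x⁻¹ ≠ R * z * R⁻¹ * z⁻¹)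
    (h3 : R * y * R⁻¹ * y⁻¹ ≠ R * z * R⁻¹ * z⁻¹)
    (h4 : R * x * R⁻¹ * x⁻¹ ≠ R * w * R⁻¹ * w⁻¹)
    (h5 : R * y * R⁻¹ * y⁻¹ ≠ R * w * R⁻¹ * w⁻¹)
    (h6 : R * z * R⁻¹ * z⁻¹ ≠ R * w * R⁻¹ * w⁻¹) :
    4 * Nat.card (K ⊓ cen R : Subgroup G) ≤ Nat.card K := by
  refine idx_cen K R 4 ![x, y, z, w] ?_ ?_
  · intro i
    fin_cases i
    · exact hx
    · exact hy
    · exact hz
    · exact hw
  · intro i j hij
    fin_cases i <;> fin_cases j <;> first | (exact absurd hij (by decide)) | (exact h1) | (exact h2) | (exact h3) | (exact h4) | (exact h5) | (exact h6)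

/-- The six conjugation relations used at one handle. -/
structure Act (R T ρ τ A : G) : Prop where
  Rρ : R * ρ * R⁻¹ = ρ
  Rτ : R * τ * R⁻¹ = A⁻¹ * τ
  RA : R * A * R⁻¹ = ρ⁻¹ * A * ρ
  Tρ : T * ρ * T⁻¹ = τ⁻¹ * A * τ * ρ
  Tτ : T * τ * T⁻¹ = τ⁻¹ * A * τ * A⁻¹ * τ
  TA : T * A * T⁻¹ = τ⁻¹ * A * τ

theorem conj_mul' (R x y : G) : R * (x * y) * R⁻¹ = (R * x * R⁻¹) * (R * y * R⁻¹) := by group

theorem conj_inv' (R x : G) : R * x⁻¹ * R⁻¹ = (R * x * R⁻¹)⁻¹ := by group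

variable {R T ρ τ A : G}

theorem conjA_ne {x : G} (hA : A ≠ 1) : x⁻¹ * A * x ≠ 1 := by
  intro h
  apply hA
  have : A = x * (x⁻¹ * A * x) * x⁻¹ := by group
  rw [this, h]; group

/-- index at least two for the second half of a step -/
theorem half_rho [Finite G] (h : Act R T ρ τ A) (hA : A ≠ 1) (K : Subgroup G) (hρ : ρ ∈ K) :
    2 * Nat.card (K ⊓ cen R ⊓ cen T : Subgroup G) ≤ Nat.card (K ⊓ cen R : Subgroup G) := by
  refine idx2 _ T ρ ⟨hρ, mem_cen'.2 h.Rρ⟩ ?_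
  rw [h.Tρ]
  intro h1
  exact conjA_ne hA (mul_eq_right.1 h1)

theorem half_tau [Finite G] (h : Act R T ρ τ A) (hA : A ≠ 1) (K : Subgroup G) (hτ : τ ∈ K) :
    2 * Nat.card (K ⊓ cen R : Subgroup G) ≤ Nat.card K := by
  refine idx2 _ R τ hτ ?_
  rw [h.Rτ]
  intro h1
  exact hA (inv_eq_one.1 (mul_eq_right.1 h1))

theorem step4 [Finite G] (h : Act R T ρ τ A) (hA : A ≠ 1) (K : Subgroup G) (hρ : ρ ∈ K)
    (hτ : τ ∈ K) :
    4 * Nat.card (K ⊓ cen R ⊓ cen T : Subgroup G) ≤ Nat.card K := by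
  have h1 := half_rho h hA K hρ
  have h2 := half_tau h hA K hτ
  omega

theorem step9 [Finite G] (h : Act R T ρ τ A) (hA : A ≠ 1) (hA2 : A * A ≠ 1) (K : Subgroup G)
    (hρ : ρ ∈ K) (hτ : τ ∈ K) (c1 : ρ * A = A * ρ) (c2 : τ * A = A * τ) :
    9 * Nat.card (K ⊓ cen R ⊓ cen T : Subgroup G) ≤ Nat.card K := by
  have ha : τ⁻¹ * A * τ = A := by
    rw [mul_assoc, ← c2]; group
  have hk : ρ⁻¹ * A * ρ = A := by
    rw [mul_assoc, ← c1]; group
  have r1 : R * (1 : G) * R⁻¹ * (1 : G)⁻¹ = 1 := by group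
  have r2 : R * τ * R⁻¹ * τ⁻¹ = A⁻¹ := by rw [h.Rτ]; group
  have r3 : R * (τ * τ) * R⁻¹ * (τ * τ)⁻¹ = A⁻¹ * A⁻¹ := by
    rw [conj_mul', h.Rτ]
    have : A⁻¹ * τ * (A⁻¹ * τ) * (τ * τ)⁻¹ = A⁻¹ * (τ * A⁻¹ * τ⁻¹) := by group
    rw [this]
    have : τ * A⁻¹ * τ⁻¹ = A⁻¹ := by
      have : τ * A⁻¹ * τ⁻¹ = (τ * A * τ⁻¹)⁻¹ := by group
      rw [this, c2]; group
    rw [this]
  have i1 : 3 * Nat.card (K ⊓ cen R : Subgroup G) ≤ Nat.card K := by
    refine idx3 K R 1 τ (τ * τ) K.one_mem hτ (K.mul_mem hτ hτ) ?_ ?_ ?_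
    · rw [r1, r2]; intro h1; exact hA (inv_eq_one.1 h1.symm)
    · rw [r1, r3]; intro h1
      apply hA2
      have : (A * A)⁻¹ = 1 := by rw [mul_inv_rev]; exact h1.symm
      exact inv_eq_one.1 this
    · rw [r2, r3]; intro h1
      exact hA (inv_eq_one.1 (mul_eq_left.1 h1.symm))
  have t1 : T * (1 : G) * T⁻¹ * (1 : G)⁻¹ = 1 := by group
  have t2 : T * ρ * T⁻¹ * ρ⁻¹ = A := by rw [h.Tρ, ha]; group
  have t3 : T * (ρ * ρ) * T⁻¹ * (ρ * ρ)⁻¹ = A * A := by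
    rw [conj_mul', h.Tρ, ha]
    have : A * ρ * (A * ρ) * (ρ * ρ)⁻¹ = A * (ρ * A * ρ⁻¹) := by group
    rw [this, c1]; group
  have hρU : ρ ∈ (K ⊓ cen R : Subgroup G) := ⟨hρ, mem_cen'.2 h.Rρ⟩
  have i2 : 3 * Nat.card (K ⊓ cen R ⊓ cen T : Subgroup G) ≤ Nat.card (K ⊓ cen R : Subgroup G) := by
    refine idx3 _ T 1 ρ (ρ * ρ) (Subgroup.one_mem _) hρU (Subgroup.mul_mem _ hρU hρU) ?_ ?_ ?_
    · rw [t1, t2]; exact fun h1 => hA h1.symm
    · rw [t1, t3]; exact fun h1 => hA2 h1.symm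
    · rw [t2, t3]; exact fun h1 => hA (mul_eq_left.1 h1.symm)
  omega

theorem A_ne_inv (hA : A ≠ 1) (hA3 : A * A * A = 1) : A * A ≠ 1 := by
  intro h
  rw [h, one_mul] at hA3
  exact hA hA3

/-- second handle in the exceptional case -/
theorem step6 [Finite G] (h : Act R T ρ τ A) (hA : A ≠ 1) (hA3 : A * A * A = 1) (K : Subgroup G)
    (hρ : ρ ∈ K) (hτ : τ ∈ K)
    (n1 : ρ * A * ρ⁻¹ = A ∨ ρ * A * ρ⁻¹ = A⁻¹) (n2 : τ * A * τ⁻¹ = A ∨ τ * A * τ⁻¹ = A⁻¹) :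
    6 * Nat.card (K ⊓ cen R ⊓ cen T : Subgroup G) ≤ Nat.card K := by
  have hA2 := A_ne_inv hA hA3
  have hAi : A⁻¹ ≠ A := by
    intro h1
    apply hA2
    nth_rw 1 [← h1]
    group
  have r1 : R * (1 : G) * R⁻¹ * (1 : G)⁻¹ = 1 := by group
  have r2 : R * τ * R⁻¹ * τ⁻¹ = A⁻¹ := by rw [h.Rτ]; group
  rcases n1 with n1 | n1
  · -- ρ commutes with A
    have c1 : ρ * A = A * ρ := by rw [← mul_inv_eq_iff_eq_mul]; exact n1
    have hk : ρ⁻¹ * A * ρ = A := by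
      rw [mul_assoc, ← c1]; group
    have i1 := half_tau h hA K hτ
    -- a = τ⁻¹ A τ is A or A⁻¹
    have ha : τ⁻¹ * A * τ = A ∨ τ⁻¹ * A * τ = A⁻¹ := by
      rcases n2 with n2 | n2
      · left
        have : τ⁻¹ * (τ * A * τ⁻¹) * τ = A := by group
        rwa [n2] at this
      · right
        have h1 : τ⁻¹ * (τ * A * τ⁻¹) * τ = A := by group
        rw [n2] at h1
        have h2 : τ⁻¹ * A * τ = (τ⁻¹ * A⁻¹ * τ)⁻¹ := by group
        rw [h2, h1]
    obtain ⟨a, hadef⟩ : ∃ a, a = τ⁻¹ * A * τ := ⟨_, rfl⟩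
    have ha' : a = A ∨ a = A⁻¹ := by rw [hadef]; exact ha
    have hca : ρ * a = a * ρ := by
      rcases ha' with rfl | rfl
      · exact c1
      · have := congrArg (fun t => A⁻¹ * t * A⁻¹) c1
        simp only [mul_assoc] at this
        simpa using this.symm
    have ha1 : a ≠ 1 := by
      rw [hadef]; exact conjA_ne hA
    have ha2 : a * a ≠ 1 := by
      rcases ha' with rfl | rfl
      · exact hA2
      · intro h1
        apply hA2
        have h3 : (A⁻¹ * A⁻¹)⁻¹ = A * A := by rw [mul_inv_rev, inv_inv]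
        rw [← h3, h1, inv_one]
    have t1 : T * (1 : G) * T⁻¹ * (1 : G)⁻¹ = 1 := by group
    have t2 : T * ρ * T⁻¹ * ρ⁻¹ = a := by rw [h.Tρ, ← hadef]; group
    have t3 : T * (ρ * ρ) * T⁻¹ * (ρ * ρ)⁻¹ = a * a := by
      rw [conj_mul', h.Tρ, ← hadef]
      have : a * ρ * (a * ρ) * (ρ * ρ)⁻¹ = a * (ρ * a * ρ⁻¹) := by group
      rw [this, hca]; group
    have hρU : ρ ∈ (K ⊓ cen R : Subgroup G) := ⟨hρ, mem_cen'.2 h.Rρ⟩
    have i2 : 3 * Nat.card (K ⊓ cen R ⊓ cen T : Subgroup G)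
        ≤ Nat.card (K ⊓ cen R : Subgroup G) := by
      refine idx3 _ T 1 ρ (ρ * ρ) (Subgroup.one_mem _) hρU (Subgroup.mul_mem _ hρU hρU) ?_ ?_ ?_
      · rw [t1, t2]; exact fun h1 => ha1 h1.symm
      · rw [t1, t3]; exact fun h1 => ha2 h1.symm
      · rw [t2, t3]; exact fun h1 => ha1 (mul_eq_left.1 h1.symm)
    omega
  · -- ρ inverts A
    have i2 := half_rho h hA K hρ
    have r3 : R * (ρ * τ) * R⁻¹ * (ρ * τ)⁻¹ = A := by
      rw [conj_mul', h.Rρ, h.Rτ]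
      have : ρ * (A⁻¹ * τ) * (ρ * τ)⁻¹ = (ρ * A * ρ⁻¹)⁻¹ := by group
      rw [this, n1, inv_inv]
    have i1 : 3 * Nat.card (K ⊓ cen R : Subgroup G) ≤ Nat.card K := by
      refine idx3 K R 1 τ (ρ * τ) K.one_mem hτ (K.mul_mem hρ hτ) ?_ ?_ ?_
      · rw [r1, r2]; intro h1; exact hA (inv_eq_one.1 h1.symm)
      · rw [r1, r3]; exact fun h1 => hA h1.symm
      · rw [r2, r3]; exact hAi
    omega

/-- the handle where the central curve is moved -/
theorem step8 [Finite G] (h : Act R T ρ τ A) (hA : A ≠ 1) (K : Subgroup G)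
    (hρ : ρ ∈ K) (hτ : τ ∈ K) (hAK : A ∈ K) (hnc : ¬ (ρ * A = A * ρ ∧ τ * A = A * τ)) :
    8 * Nat.card (K ⊓ cen R ⊓ cen T : Subgroup G) ≤ Nat.card K ∨
    (A * A * A = 1 ∧ 6 * Nat.card (K ⊓ cen R ⊓ cen T : Subgroup G) ≤ Nat.card K ∧
      ∀ g ∈ (K ⊓ cen R ⊓ cen T : Subgroup G), g * A * g⁻¹ = A ∨ g * A * g⁻¹ = A⁻¹) := by
  have hconj1 : ∀ g : G, g * A * g⁻¹ ≠ 1 := by
    intro g hg
    apply hA
    have : A = g⁻¹ * (g * A * g⁻¹) * g := by group
    rw [this, hg]; group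
  by_cases c1 : ρ * A = A * ρ
  · -- case Y
    have c2 : τ * A ≠ A * τ := fun hc => hnc ⟨c1, hc⟩
    have hk : ρ⁻¹ * A * ρ = A := by
      rw [mul_assoc, ← c1]; group
    obtain ⟨a, hadef⟩ : ∃ a, a = τ⁻¹ * A * τ := ⟨_, rfl⟩
    have ha1 : a ≠ 1 := by rw [hadef]; exact conjA_ne hA
    have haA : a ≠ A := by
      intro h1
      apply c2
      have : τ * a = A * τ := by rw [hadef]; group
      rwa [h1] at this
    have t1 : T * (1 : G) * T⁻¹ * (1 : G)⁻¹ = 1 := by group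
    have t2 : T * ρ * T⁻¹ * ρ⁻¹ = a := by rw [h.Tρ, ← hadef]; group
    have t3 : T * A * T⁻¹ * A⁻¹ = a * A⁻¹ := by rw [h.TA, ← hadef]
    have d12 : (1 : G) ≠ a := fun h1 => ha1 h1.symm
    have d13 : (1 : G) ≠ a * A⁻¹ := by
      intro h1
      exact haA (mul_inv_eq_one.1 h1.symm)
    have d23 : a ≠ a * A⁻¹ := by
      intro h1
      exact hA (inv_eq_one.1 (mul_eq_left.1 h1.symm))
    have i1 : 3 * Nat.card (K ⊓ cen T : Subgroup G) ≤ Nat.card K := by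
      refine idx3 K T 1 ρ A K.one_mem hρ hAK ?_ ?_ ?_
      · rw [t1, t2]; exact d12
      · rw [t1, t3]; exact d13
      · rw [t2, t3]; exact d23
    have hU : A⁻¹ * τ ∈ (K ⊓ cen T : Subgroup G) := by
      refine ⟨K.mul_mem (K.inv_mem hAK) hτ, mem_cen'.2 ?_⟩
      rw [conj_mul', conj_inv', h.TA, h.Tτ]
      group
    have i2 : 2 * Nat.card (K ⊓ cen T ⊓ cen R : Subgroup G) ≤ Nat.card (K ⊓ cen T : Subgroup G) := by
      refine idx2 _ R (A⁻¹ * τ) hU ?_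
      rw [conj_mul', conj_inv', h.RA, h.Rτ, hk]
      intro h1
      have h2 : A⁻¹ * τ = τ := mul_left_cancel h1
      exact hA (inv_eq_one.1 (mul_eq_right.1 h2))
    have hcomm : (K ⊓ cen T ⊓ cen R : Subgroup G) = K ⊓ cen R ⊓ cen T := by
      rw [inf_assoc, inf_comm (cen T), ← inf_assoc]
    rw [hcomm] at i2
    by_cases hex : ∃ x ∈ K, T * x * T⁻¹ * x⁻¹ ≠ 1 ∧ T * x * T⁻¹ * x⁻¹ ≠ a ∧
        T * x * T⁻¹ * x⁻¹ ≠ a * A⁻¹
    · left
      obtain ⟨x, hxK, hx1, hx2, hx3⟩ := hex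
      have i3 : 4 * Nat.card (K ⊓ cen T : Subgroup G) ≤ Nat.card K := by
        refine idx4 K T 1 ρ A x K.one_mem hρ hAK hxK ?_ ?_ ?_ ?_ ?_ ?_
        · rw [t1, t2]; exact d12
        · rw [t1, t3]; exact d13
        · rw [t2, t3]; exact d23
        · rw [t1]; exact hx1.symm
        · rw [t2]; exact hx2.symm
        · rw [t3]; exact hx3.symm
      omega
    · right
      push Not at hex
      have hval : ∀ x ∈ K, T * x * T⁻¹ * x⁻¹ = 1 ∨ T * x * T⁻¹ * x⁻¹ = a ∨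
          T * x * T⁻¹ * x⁻¹ = a * A⁻¹ := by
        intro x hx
        by_cases e1 : T * x * T⁻¹ * x⁻¹ = 1
        · exact Or.inl e1
        · by_cases e2 : T * x * T⁻¹ * x⁻¹ = a
          · exact Or.inr (Or.inl e2)
          · exact Or.inr (Or.inr (hex x hx e1 e2))
      have haa : a * a = A := by
        have h1 := hval (A * ρ) (K.mul_mem hAK hρ)
        have h2 : T * (A * ρ) * T⁻¹ * (A * ρ)⁻¹ = a * a * A⁻¹ := by
          rw [conj_mul', h.TA, h.Tρ, ← hadef]; group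
        rw [h2] at h1
        rcases h1 with h1 | h1 | h1
        · exact mul_inv_eq_one.1 h1
        · exfalso
          rw [mul_assoc] at h1
          exact haA (mul_inv_eq_one.1 (mul_eq_left.1 h1))
        · exfalso
          exact ha1 (mul_eq_left.1 (mul_right_cancel h1))
      have haAi : a = A⁻¹ := by
        have h1 := hval (A * A) (K.mul_mem hAK hAK)
        have h2 : T * (A * A) * T⁻¹ * (A * A)⁻¹ = A⁻¹ := by
          rw [conj_mul', h.TA, ← hadef, haa]; group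
        rw [h2] at h1
        rcases h1 with h1 | h1 | h1
        · exact absurd (inv_eq_one.1 h1) hA
        · exact h1.symm
        · exact absurd (mul_eq_right.1 h1.symm) ha1
      have hA3 : A * A * A = 1 := by
        have h1 : A⁻¹ * A⁻¹ = A := by rw [← haAi]; exact haa
        calc A * A * A = A * A * (A⁻¹ * A⁻¹) := by rw [h1]
          _ = 1 := by group
      refine ⟨hA3, by omega, ?_⟩
      intro g hg
      have hgK : g ∈ K := hg.1.1
      have hgT : T * g * T⁻¹ = g := mem_cen'.1 hg.2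
      have h1 := hval (g * A * g⁻¹) (K.mul_mem (K.mul_mem hgK hAK) (K.inv_mem hgK))
      have h2 : T * (g * A * g⁻¹) * T⁻¹ * (g * A * g⁻¹)⁻¹ = g * A * g⁻¹ := by
        rw [conj_mul', conj_mul', conj_inv', hgT, h.TA, ← hadef, haAi]
        have h3 : g * A⁻¹ * g⁻¹ * (g * A * g⁻¹)⁻¹ = g * (A⁻¹ * A⁻¹) * g⁻¹ := by group
        rw [h3]
        have h4 : A⁻¹ * A⁻¹ = A := by rw [← haAi]; exact haa
        rw [h4]
      rw [h2] at h1
      rcases h1 with h1 | h1 | h1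
      · exact absurd h1 (hconj1 g)
      · right; rw [h1, haAi]
      · left
        rw [h1, haAi]
        have h4 : A⁻¹ * A⁻¹ = A := by rw [← haAi]; exact haa
        exact h4
  · -- case X
    obtain ⟨k, hkdef⟩ : ∃ k, k = ρ⁻¹ * A * ρ := ⟨_, rfl⟩
    have hk1 : k ≠ 1 := by rw [hkdef]; exact conjA_ne hA
    have hkA : k ≠ A := by
      intro h1
      apply c1
      have : ρ * k = A * ρ := by rw [hkdef]; group
      rwa [h1] at this
    have r1 : R * (1 : G) * R⁻¹ * (1 : G)⁻¹ = 1 := by group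
    have r2 : R * τ * R⁻¹ * τ⁻¹ = A⁻¹ := by rw [h.Rτ]; group
    have r3 : R * A * R⁻¹ * A⁻¹ = k * A⁻¹ := by rw [h.RA, ← hkdef]
    have d12 : (1 : G) ≠ A⁻¹ := fun h1 => hA (inv_eq_one.1 h1.symm)
    have d13 : (1 : G) ≠ k * A⁻¹ := by
      intro h1
      exact hkA (mul_inv_eq_one.1 h1.symm)
    have d23 : A⁻¹ ≠ k * A⁻¹ := by
      intro h1
      exact hk1 (mul_eq_right.1 h1.symm)
    have i1 : 3 * Nat.card (K ⊓ cen R : Subgroup G) ≤ Nat.card K := by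
      refine idx3 K R 1 τ A K.one_mem hτ hAK ?_ ?_ ?_
      · rw [r1, r2]; exact d12
      · rw [r1, r3]; exact d13
      · rw [r2, r3]; exact d23
    have i2 := half_rho h hA K hρ
    by_cases hex : ∃ x ∈ K, R * x * R⁻¹ * x⁻¹ ≠ 1 ∧ R * x * R⁻¹ * x⁻¹ ≠ A⁻¹ ∧
        R * x * R⁻¹ * x⁻¹ ≠ k * A⁻¹
    · left
      obtain ⟨x, hxK, hx1, hx2, hx3⟩ := hex
      have i3 : 4 * Nat.card (K ⊓ cen R : Subgroup G) ≤ Nat.card K := by
        refine idx4 K R 1 τ A x K.one_mem hτ hAK hxK ?_ ?_ ?_ ?_ ?_ ?_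
        · rw [r1, r2]; exact d12
        · rw [r1, r3]; exact d13
        · rw [r2, r3]; exact d23
        · rw [r1]; exact hx1.symm
        · rw [r2]; exact hx2.symm
        · rw [r3]; exact hx3.symm
      omega
    · right
      push Not at hex
      have hval : ∀ x ∈ K, R * x * R⁻¹ * x⁻¹ = 1 ∨ R * x * R⁻¹ * x⁻¹ = A⁻¹ ∨
          R * x * R⁻¹ * x⁻¹ = k * A⁻¹ := by
        intro x hx
        by_cases e1 : R * x * R⁻¹ * x⁻¹ = 1
        · exact Or.inl e1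
        · by_cases e2 : R * x * R⁻¹ * x⁻¹ = A⁻¹
          · exact Or.inr (Or.inl e2)
          · exact Or.inr (Or.inr (hex x hx e1 e2))
      -- (E1)
      have E1 : ρ * A⁻¹ * ρ⁻¹ = k * A⁻¹ := by
        have h1 := hval (ρ * τ) (K.mul_mem hρ hτ)
        have h2 : R * (ρ * τ) * R⁻¹ * (ρ * τ)⁻¹ = ρ * A⁻¹ * ρ⁻¹ := by
          rw [conj_mul', h.Rρ, h.Rτ]; group
        rw [h2] at h1
        rcases h1 with h1 | h1 | h1
        · exfalso
          apply hconj1 ρ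
          have : ρ * A * ρ⁻¹ = (ρ * A⁻¹ * ρ⁻¹)⁻¹ := by group
          rw [this, h1, inv_one]
        · exfalso
          apply c1
          have h3 : ρ * A * ρ⁻¹ = (ρ * A⁻¹ * ρ⁻¹)⁻¹ := by group
          rw [h1, inv_inv] at h3
          exact mul_inv_eq_iff_eq_mul.1 h3
        · exact h1
      have hkAi : k = A⁻¹ := by
        have h1 := hval (ρ * A) (K.mul_mem hρ hAK)
        have h2 : R * (ρ * A) * R⁻¹ * (ρ * A)⁻¹ = A * (k * A⁻¹) := by
          rw [conj_mul', h.Rρ, h.RA, ← E1]; group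
        rw [h2] at h1
        rcases h1 with h1 | h1 | h1
        · exfalso
          apply hk1
          have : k = A⁻¹ * (A * (k * A⁻¹)) * A := by group
          rw [this, h1]; group
        · have : k = A⁻¹ * (A * (k * A⁻¹)) * A := by group
          rw [this, h1]; group
        · exact absurd (mul_eq_right.1 h1) hA
      have hA3 : A * A * A = 1 := by
        have h1 : ρ * A⁻¹ * ρ⁻¹ = A := by
          rw [← hkAi, hkdef]; group
        rw [h1, hkAi] at E1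
        calc A * A * A = A * A * (A⁻¹ * A⁻¹) := by rw [← E1]
          _ = 1 := by group
      have hAiAi : A⁻¹ * A⁻¹ = A := by
        calc A⁻¹ * A⁻¹ = A⁻¹ * A⁻¹ * (A * A * A) := by rw [hA3, mul_one]
          _ = A := by group
      refine ⟨hA3, by omega, ?_⟩
      intro g hg
      have hgK : g ∈ K := hg.1.1
      have hgR : R * g * R⁻¹ = g := mem_cen'.1 hg.1.2
      have h1 := hval (g * A * g⁻¹) (K.mul_mem (K.mul_mem hgK hAK) (K.inv_mem hgK))
      have h2 : R * (g * A * g⁻¹) * R⁻¹ * (g * A * g⁻¹)⁻¹ = g * A * g⁻¹ := by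
        rw [conj_mul', conj_mul', conj_inv', hgR, h.RA, ← hkdef, hkAi]
        have h3 : g * A⁻¹ * g⁻¹ * (g * A * g⁻¹)⁻¹ = g * (A⁻¹ * A⁻¹) * g⁻¹ := by group
        rw [h3, hAiAi]
      rw [h2] at h1
      rcases h1 with h1 | h1 | h1
      · exact absurd h1 (hconj1 g)
      · right; exact h1
      · left
        rw [h1, hkAi, hAiAi]

/-- The chain of centralisers of the first strand generators. -/
def C {b : ℕ} (R T : Fin b → G) (n : ℕ) : Subgroup G where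
  carrier := {x | ∀ i : Fin b, i.val < n → x ∈ cen (R i) ∧ x ∈ cen (T i)}
  mul_mem' := fun ha hb i hi =>
    ⟨(cen (R i)).mul_mem (ha i hi).1 (hb i hi).1, (cen (T i)).mul_mem (ha i hi).2 (hb i hi).2⟩
  one_mem' := fun i _ => ⟨(cen (R i)).one_mem, (cen (T i)).one_mem⟩
  inv_mem' := fun ha i hi =>
    ⟨(cen (R i)).inv_mem (ha i hi).1, (cen (T i)).inv_mem (ha i hi).2⟩

theorem mem_C {b : ℕ} {R T : Fin b → G} {n : ℕ} {x : G} :
    x ∈ C R T n ↔ ∀ i : Fin b, i.val < n → x ∈ cen (R i) ∧ x ∈ cen (T i) := Iff.rfl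

theorem C_succ {b : ℕ} (R T : Fin b → G) (i : Fin b) :
    C R T (i.val + 1) = C R T i.val ⊓ cen (R i) ⊓ cen (T i) := by
  ext x
  constructor
  · intro hx
    exact ⟨⟨fun j hj => hx j (by omega), (hx i (by omega)).1⟩, (hx i (by omega)).2⟩
  · rintro ⟨⟨h1, h2⟩, h3⟩ j hj
    rcases Nat.lt_succ_iff_lt_or_eq.1 hj with hj | hj
    · exact h1 j hj
    · have : j = i := Fin.ext hj
      subst this
      exact ⟨h2, h3⟩

theorem chain (b : ℕ) (f : ℕ → ℕ) (hf : ∀ n, n < b → 4 * f (n + 1) ≤ f n) :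
    ∀ d m : ℕ, m + d ≤ b → 4 ^ d * f (m + d) ≤ f m := by
  intro d
  induction d with
  | zero => intro m _; simp
  | succ d ih =>
    intro m hm
    have h1 := ih m (by omega)
    have h2 := hf (m + d) (by omega)
    calc 4 ^ (d + 1) * f (m + (d + 1)) = 4 ^ d * (4 * f (m + d + 1)) := by
          rw [pow_succ, mul_assoc]; rfl
      _ ≤ 4 ^ d * f (m + d) := Nat.mul_le_mul_left _ h2
      _ ≤ f m := h1

/-- **Lower bound.** -/
theorem lower [Finite G] (b : ℕ) (hb : 2 ≤ b) (R T ρ τ : Fin b → G) (A : G) (hA : A ≠ 1)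
    (hact : ∀ i, Act (R i) (T i) (ρ i) (τ i) A)
    (hcomm : ∀ i j : Fin b, i < j →
      (R i * ρ j = ρ j * R i ∧ R i * τ j = τ j * R i) ∧
      (T i * ρ j = ρ j * T i ∧ T i * τ j = τ j * T i)) :
    2 ^ (2 * b + 1) ≤ Nat.card G := by
  have hρC : ∀ (j : Fin b) (n : ℕ), n ≤ j.val → ρ j ∈ C R T n := by
    intro j n hn i hi
    have hij : i < j := Fin.lt_def.2 (by omega)
    exact ⟨(hcomm i j hij).1.1, (hcomm i j hij).2.1⟩
  have hτC : ∀ (j : Fin b) (n : ℕ), n ≤ j.val → τ j ∈ C R T n := by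
    intro j n hn i hi
    have hij : i < j := Fin.lt_def.2 (by omega)
    exact ⟨(hcomm i j hij).1.2, (hcomm i j hij).2.2⟩
  obtain ⟨f, hf⟩ : ∃ f : ℕ → ℕ, ∀ n, f n = Nat.card (C R T n) := ⟨_, fun _ => rfl⟩
  have hf0 : f 0 = Nat.card G := by
    rw [hf]
    have : C R T 0 = ⊤ := by
      ext x
      constructor
      · intro _; trivial
      · intro _ i hi; omega
    rw [this, Subgroup.card_top]
  have hf4 : ∀ n, n < b → 4 * f (n + 1) ≤ f n := by
    intro n hn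
    rw [hf, hf]
    have := step4 (hact ⟨n, hn⟩) hA (C R T n) (hρC ⟨n, hn⟩ n le_rfl) (hτC ⟨n, hn⟩ n le_rfl)
    have h2 := C_succ R T ⟨n, hn⟩
    simp only at h2
    rw [h2]
    exact this
  have hch := chain b f hf4
  have hpos : ∀ n, 1 ≤ f n := by
    intro n
    rw [hf]
    exact Nat.card_pos
  have hpow : 2 ^ (2 * b + 1) = 2 * 4 ^ b := by
    rw [pow_succ, pow_mul]; norm_num [mul_comm]
  rw [← hf0, hpow]
  by_cases hall : ∀ i : Fin b, ρ i * A = A * ρ i ∧ τ i * A = A * τ i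
  · -- A commutes with everything
    have hAC : A ∈ C R T b := by
      intro i _
      obtain ⟨c1, c2⟩ := hall i
      constructor
      · apply mem_cen'.2
        rw [(hact i).RA, mul_assoc, ← c1]; group
      · apply mem_cen'.2
        rw [(hact i).TA, mul_assoc, ← c2]; group
    have h2 : 2 ≤ f b := by
      rw [hf]
      have hne : (⟨A, hAC⟩ : C R T b) ≠ 1 := by
        intro h1
        exact hA (congrArg Subtype.val h1)
      have : Nontrivial (C R T b) := ⟨⟨_, _, hne⟩⟩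
      exact Finite.one_lt_card
    have h3 := hch b 0 (by omega)
    rw [Nat.zero_add] at h3
    calc 2 * 4 ^ b ≤ f b * 4 ^ b := Nat.mul_le_mul_right _ h2
      _ = 4 ^ b * f b := mul_comm _ _
      _ ≤ f 0 := h3
  · -- first index where A is moved
    push Not at hall
    have hex : ∃ n, ∃ h : n < b, ¬ (ρ ⟨n, h⟩ * A = A * ρ ⟨n, h⟩ ∧ τ ⟨n, h⟩ * A = A * τ ⟨n, h⟩) := by
      obtain ⟨i, hi⟩ := hall
      exact ⟨i.val, i.isLt, fun hc => hi hc.1 hc.2⟩
    classical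
    obtain ⟨n, hn, hmin⟩ : ∃ n, (∃ h : n < b,
        ¬ (ρ ⟨n, h⟩ * A = A * ρ ⟨n, h⟩ ∧ τ ⟨n, h⟩ * A = A * τ ⟨n, h⟩)) ∧
        ∀ m, m < n → ¬ ∃ h : m < b,
          ¬ (ρ ⟨m, h⟩ * A = A * ρ ⟨m, h⟩ ∧ τ ⟨m, h⟩ * A = A * τ ⟨m, h⟩) :=
      ⟨Nat.find hex, Nat.find_spec hex, fun m hm => Nat.find_min hex hm⟩
    obtain ⟨hnb, hnc⟩ := hn
    have hprev : ∀ m (h : m < b), m < n → ρ ⟨m, h⟩ * A = A * ρ ⟨m, h⟩ ∧
        τ ⟨m, h⟩ * A = A * τ ⟨m, h⟩ := by
      intro m h hm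
      by_contra hc
      exact hmin m hm ⟨h, hc⟩
    have hAC : A ∈ C R T n := by
      intro i hi
      obtain ⟨c1, c2⟩ := hprev i.val i.isLt hi
      constructor
      · apply mem_cen'.2
        rw [(hact i).RA, mul_assoc, ← c1]; group
      · apply mem_cen'.2
        rw [(hact i).TA, mul_assoc, ← c2]; group
    have hs := step8 (hact ⟨n, hnb⟩) hA (C R T n) (hρC ⟨n, hnb⟩ n le_rfl) (hτC ⟨n, hnb⟩ n le_rfl)
      hAC hnc
    have hCs := C_succ R T ⟨n, hnb⟩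
    simp only at hCs
    rw [← hCs, ← hf, ← hf] at hs
    rcases hs with hs | ⟨hA3, hs6, hnorm⟩
    · -- factor eight
      obtain ⟨e, he⟩ : ∃ e, b = n + 1 + e := ⟨b - (n + 1), by omega⟩
      have h1 := hch n 0 (by omega)
      rw [Nat.zero_add] at h1
      have h2 := hch e (n + 1) (by omega)
      have h3 := hpos (n + 1 + e)
      have h4 : 4 ^ e ≤ f (n + 1) := by
        calc 4 ^ e = 4 ^ e * 1 := (mul_one _).symm
          _ ≤ 4 ^ e * f (n + 1 + e) := Nat.mul_le_mul_left _ h3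
          _ ≤ f (n + 1) := h2
      calc 2 * 4 ^ b = 4 ^ n * (8 * 4 ^ e) := by rw [he, pow_add, pow_add]; ring
        _ ≤ 4 ^ n * (8 * f (n + 1)) := Nat.mul_le_mul_left _ (Nat.mul_le_mul_left _ h4)
        _ ≤ 4 ^ n * f n := Nat.mul_le_mul_left _ hs
        _ ≤ f 0 := h1
    · rcases Nat.eq_zero_or_pos n with hn0 | hn0
      · subst hn0
        -- two factors six
        have h1b : 1 < b := by omega
        have hs' := step6 (hact ⟨1, h1b⟩) hA hA3 (C R T 1) (hρC ⟨1, h1b⟩ 1 le_rfl)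
          (hτC ⟨1, h1b⟩ 1 le_rfl) (hnorm _ (hρC ⟨1, h1b⟩ 1 le_rfl)) (hnorm _ (hτC ⟨1, h1b⟩ 1 le_rfl))
        have hCs1 := C_succ R T ⟨1, h1b⟩
        simp only at hCs1
        rw [← hCs1, ← hf, ← hf] at hs'
        obtain ⟨e, he⟩ : ∃ e, b = 2 + e := ⟨b - 2, by omega⟩
        have h2 := hch e 2 (by omega)
        have h3 := hpos (2 + e)
        have h4 : 4 ^ e ≤ f 2 := by
          calc 4 ^ e = 4 ^ e * 1 := (mul_one _).symm
            _ ≤ 4 ^ e * f (2 + e) := Nat.mul_le_mul_left _ h3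
            _ ≤ f 2 := h2
        have h5 : 2 * 4 ^ b = 32 * 4 ^ e := by rw [he, pow_add]; ring
        have h6 : 6 * f 2 ≤ f 1 := hs'
        have h7 : 6 * f 1 ≤ f 0 := hs6
        omega
      · have h0b : 0 < b := by omega
        obtain ⟨c1, c2⟩ := hprev 0 h0b hn0
        have hs' := step9 (hact ⟨0, h0b⟩) hA (A_ne_inv hA hA3) (C R T 0) (hρC ⟨0, h0b⟩ 0 le_rfl)
          (hτC ⟨0, h0b⟩ 0 le_rfl) c1 c2
        have hCs0 := C_succ R T ⟨0, h0b⟩
        simp only at hCs0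
        rw [← hCs0, ← hf, ← hf] at hs'
        obtain ⟨e, he⟩ : ∃ e, b = 1 + e := ⟨b - 1, by omega⟩
        have h2 := hch e 1 (by omega)
        have h3 := hpos (1 + e)
        have h4 : 4 ^ e ≤ f 1 := by
          calc 4 ^ e = 4 ^ e * 1 := (mul_one _).symm
            _ ≤ 4 ^ e * f (1 + e) := Nat.mul_le_mul_left _ h3
            _ ≤ f 1 := h2
        have h5 : 2 * 4 ^ b = 8 * 4 ^ e := by rw [he, pow_add]; ring
        have h6 : 9 * f 1 ≤ f 0 := hs'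
        omega

end Pool.Agent.V11319.BraidLower
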