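import Mathlib

/-!
A Heisenberg type group of order `2 ^ (2 b + 1)` and systems of vectors in it.
-/

namespace Pool.Agent.V11319.BraidUpper

open Matrix
open scoped commutatorElement

/-- Heisenberg group over the field with two elements. -/
@[ext] structure Hei (b : ℕ) where
  x : Fin b → ZMod 2
  y : Fin b → ZMod 2
  z : ZMod 2

namespace Hei

variable {b : ℕ}

instance : Mul (Hei b) := ⟨fun g h => ⟨g.x + h.x, g.y + h.y, g.z + h.z + g.x ⬝ᵥ h.y⟩⟩
instance : One (Hei b) := ⟨⟨0, 0, 0⟩⟩
instance : Inv (Hei b) := ⟨fun g => ⟨-g.x, -g.y, -g.z + g.x ⬝ᵥ g.y⟩⟩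

@[simp] theorem mul_x (g h : Hei b) : (g * h).x = g.x + h.x := rfl
@[simp] theorem mul_y (g h : Hei b) : (g * h).y = g.y + h.y := rfl
@[simp] theorem mul_z (g h : Hei b) : (g * h).z = g.z + h.z + g.x ⬝ᵥ h.y := rfl
@[simp] theorem one_x : (1 : Hei b).x = 0 := rfl
@[simp] theorem one_y : (1 : Hei b).y = 0 := rfl
@[simp] theorem one_z : (1 : Hei b).z = 0 := rfl
@[simp] theorem inv_x (g : Hei b) : (g⁻¹).x = -g.x := rfl
@[simp] theorem inv_y (g : Hei b) : (g⁻¹).y = -g.y := rfl
@[simp] theorem inv_z (g : Hei b) : (g⁻¹).z = -g.z + g.x ⬝ᵥ g.y := rfl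

instance : Group (Hei b) := Group.ofLeftAxioms
  (by
    intro g h k
    ext i
    · simp [add_assoc]
    · simp [add_assoc]
    · simp only [mul_z, mul_x, mul_y, add_dotProduct, dotProduct_add]; ring)
  (by
    intro g
    ext i
    · simp
    · simp
    · simp)
  (by
    intro g
    ext i
    · simp only [mul_x, inv_x, one_x, neg_add_cancel]
    · simp only [mul_y, inv_y, one_y, neg_add_cancel]
    · simp only [mul_z, inv_z, inv_x, one_z, neg_dotProduct]; ring)

/-- The elements of the centre. -/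
def zc (c : ZMod 2) : Hei b := ⟨0, 0, c⟩

theorem zc_zero : (zc 0 : Hei b) = 1 := rfl

theorem zc_mul (c d : ZMod 2) : (zc c * zc d : Hei b) = zc (c + d) := by
  ext i <;> simp [zc]

theorem zc_comm (c : ZMod 2) (g : Hei b) : g * zc c = zc c * g := by
  ext i
  · simp [zc]
  · simp [zc]
  · simp [zc, add_comm]

/-- The commutator pairing. -/
def beta (g h : Hei b) : ZMod 2 := g.x ⬝ᵥ h.y - h.x ⬝ᵥ g.y

theorem comm_eq (g h : Hei b) : ⁅g, h⁆ = zc (beta g h) := by
  have h1 : g * h = zc (beta g h) * (h * g) := by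
    ext i
    · simp [zc, add_comm]
    · simp [zc, add_comm]
    · simp only [zc, beta, mul_z, mul_x, mul_y, zero_dotProduct]; ring
  rw [commutatorElement_def, h1]
  group

theorem card_eq : Nat.card (Hei b) = 2 ^ (2 * b + 1) := by
  let e : Hei b ≃ (Fin b → ZMod 2) × (Fin b → ZMod 2) × ZMod 2 :=
    { toFun := fun g => (g.x, g.y, g.z)
      invFun := fun p => ⟨p.1, p.2.1, p.2.2⟩
      left_inv := fun g => rfl
      right_inv := fun p => rfl }
  rw [Nat.card_congr e, Nat.card_prod, Nat.card_prod, Nat.card_fun, Nat.card_zmod, Nat.card_fin]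
  ring

instance : Finite (Hei b) := by
  apply Nat.finite_of_card_ne_zero
  rw [card_eq]
  positivity

theorem prod_zc {ι : Type*} (l : List ι) (c : ι → ZMod 2) (t : ι → Hei b) :
    (l.map fun j => zc (c j) * t j).prod = zc ((l.map c).sum) * (l.map t).prod := by
  induction l with
  | nil => simp [zc_zero]
  | cons a l ih =>
    rw [List.map_cons, List.prod_cons, ih, List.map_cons, List.sum_cons, List.map_cons,
      List.prod_cons, ← zc_mul]
    calc zc (c a) * t a * (zc (l.map c).sum * (l.map t).prod)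
        = zc (c a) * (t a * zc (l.map c).sum) * (l.map t).prod := by group
      _ = zc (c a) * (zc (l.map c).sum * t a) * (l.map t).prod := by rw [zc_comm]
      _ = _ := by group

/-- The required system of vectors. -/
structure Config (R T ρ τ : Fin b → Hei b) : Prop where
  Rρ : ∀ j k, beta (R j) (ρ k) = 0
  Rτ : ∀ j k, beta (R j) (τ k) = if j = k then 1 else 0
  Tρ : ∀ j k, beta (T j) (ρ k) = if j = k then 1 else 0
  Tτ : ∀ j k, beta (T j) (τ k) = 0
  sρτ : ∑ j, beta (ρ j) (τ j) = 1
  sRT : ∑ j, beta (R j) (T j) = 1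

theorem exists_config (b : ℕ) (hb : 2 ≤ b) : ∃ R T ρ τ : Fin b → Hei b, Config R T ρ τ := by
  rcases Nat.even_or_odd b with he | ho
  · let i0 : Fin b := ⟨0, by omega⟩
    let i1 : Fin b := ⟨1, by omega⟩
    have h01 : i0 ≠ i1 := by simp [i0, i1]
    have h10 : i1 ≠ i0 := h01.symm
    clear_value i0 i1
    let e : Fin b → Fin b → ZMod 2 := fun j => Pi.single j 1
    have hee : ∀ j k, e j ⬝ᵥ e k = if j = k then 1 else 0 := by
      intro j k
      simp only [e, single_dotProduct, Pi.single_apply, one_mul]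
    have hb0 : (b : ZMod 2) = 0 := by
      obtain ⟨c, rfl⟩ := he
      push_cast
      exact CharTwo.add_self_eq_zero _
    refine ⟨fun j => if j = i0 then ⟨0, e i1, 0⟩ else ⟨e j, 0, 0⟩,
      fun j => if j = i1 then ⟨e i0, e i1, 0⟩ else ⟨0, e j, 0⟩,
      fun j => if j = i0 then ⟨e i0, 0, 0⟩ else if j = i1 then ⟨0, e i0, 0⟩ else ⟨e j, 0, 0⟩,
      fun j => if j = i0 then ⟨e i1, e i0, 0⟩ else ⟨0, e j, 0⟩, ?_⟩
    clear_value e
    constructor
    · intro j k
      by_cases hj0 : j = i0 <;> by_cases hk0 : k = i0 <;> by_cases hk1 : k = i1 <;>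
        simp_all [beta, eq_comm]
    · intro j k
      by_cases hj0 : j = i0 <;> by_cases hk0 : k = i0 <;>
        simp_all [beta, eq_comm]
    · intro j k
      by_cases hj1 : j = i1 <;> by_cases hk0 : k = i0 <;> by_cases hk1 : k = i1 <;>
        simp_all [beta, eq_comm]
    · intro j k
      by_cases hj1 : j = i1 <;> by_cases hk0 : k = i0 <;>
        simp_all [beta, eq_comm]
    · have h1 : ∀ j, beta ((fun j => if j = i0 then (⟨e i0, 0, 0⟩ : Hei b) else
          if j = i1 then ⟨0, e i0, 0⟩ else ⟨e j, 0, 0⟩) j)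
          ((fun j => if j = i0 then (⟨e i1, e i0, 0⟩ : Hei b) else ⟨0, e j, 0⟩) j)
          = 1 - if j = i1 then 1 else 0 := by
        intro j
        by_cases hj0 : j = i0 <;> by_cases hj1 : j = i1 <;> simp_all [beta, eq_comm]
      rw [Finset.sum_congr rfl fun j _ => h1 j, Finset.sum_sub_distrib]
      simp [hb0]
    · have h1 : ∀ j, beta ((fun j => if j = i0 then (⟨0, e i1, 0⟩ : Hei b) else ⟨e j, 0, 0⟩) j)
          ((fun j => if j = i1 then (⟨e i0, e i1, 0⟩ : Hei b) else ⟨0, e j, 0⟩) j)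
          = 1 - if j = i0 then 1 else 0 := by
        intro j
        by_cases hj0 : j = i0 <;> by_cases hj1 : j = i1 <;> simp_all [beta, eq_comm]
      rw [Finset.sum_congr rfl fun j _ => h1 j, Finset.sum_sub_distrib]
      simp [hb0]
  · have hb1 : (b : ZMod 2) = 1 := by
      obtain ⟨c, rfl⟩ := ho
      push_cast
      have : (2 : ZMod 2) = 0 := rfl
      rw [this]; simp
    refine ⟨fun j => ⟨Pi.single j 1, 0, 0⟩, fun j => ⟨0, Pi.single j 1, 0⟩,
      fun j => ⟨Pi.single j 1, 0, 0⟩, fun j => ⟨0, Pi.single j 1, 0⟩, ?_⟩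
    constructor
    · intro j k; simp [beta]
    · intro j k
      by_cases hjk : j = k
      · subst hjk; simp [beta]
      · simp [beta, hjk, Ne.symm hjk]
    · intro j k
      by_cases hjk : j = k
      · subst hjk; simp [beta]
      · simp [beta, hjk]
    · intro j k; simp [beta]
    · simp [beta, hb1]
    · simp [beta, hb1]

end Hei

end Pool.Agent.V11319.BraidUpper
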