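import Pool.Agent.V11319.GPUpperB

set_option autoImplicit false

open Filter Topology

namespace Pool.Agent.V11319.GPU

open Pool.Agent.H413R3 Pool.Agent.H413R3.KG
open GP (cnt cnt_mono cnt_eq_sum dens_scale)

lemma cnt_div_le_one (A : Set ℕ) (N : ℕ) : (cnt A N : ℝ) / N ≤ 1 := by
  rcases Nat.eq_zero_or_pos N with rfl | hN
  · simp
  · rw [div_le_one (by exact_mod_cast hN)]
    exact_mod_cast cnt_le A N

/-- Gluing large geometric progression free subsets of `[1, N]`, `N = N_0, N_1, …`, to one set. -/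
theorem glue_upper {c : ℝ} (h : ∀ ε > 0, ∃ N₀ : ℕ, ∀ N ≥ N₀, ∃ F : Set ℕ, F ⊆ Set.Icc 1 N ∧
    GPF 3 F ∧ (c - ε) * N ≤ F.ncard) :
    ∃ A : Set ℕ, (∀ n ∈ A, 1 ≤ n) ∧ GPF 3 A ∧
      c ≤ limsup (fun N : ℕ => (cnt A N : ℝ) / N) atTop := by
  -- thresholds
  have h' : ∀ j : ℕ, ∃ N₀ : ℕ, ∀ N ≥ N₀, ∃ F : Set ℕ, F ⊆ Set.Icc 1 N ∧ GPF 3 F ∧
      (c - 1 / ((j : ℝ) + 1)) * N ≤ F.ncard := fun j => h _ (by positivity)
  choose t ht using h'
  -- the scales
  obtain ⟨n, n0, ns⟩ : ∃ n : ℕ → ℕ, n 0 = t 0 + 1 ∧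
      ∀ j, n (j + 1) = t (j + 1) + (j + 2) ^ 2 * (n j + 1) ^ 2 :=
    ⟨fun j => Nat.rec (t 0 + 1) (fun j Nj => t (j + 1) + (j + 2) ^ 2 * (Nj + 1) ^ 2) j, rfl,
      fun j => rfl⟩
  have hnt : ∀ j, t j ≤ n j := by
    intro j
    rcases j with _ | j
    · rw [n0]; omega
    · rw [ns]; omega
  have hpos : ∀ j, 1 ≤ n j := by
    intro j
    rcases j with _ | j
    · rw [n0]; omega
    · rw [ns]
      have : 0 < (j + 2) ^ 2 * (n j + 1) ^ 2 := by positivity
      omega
  have hgrow : ∀ j, (j + 2) ^ 2 * (n j + 1) ^ 2 ≤ n (j + 1) := fun j => by rw [ns]; omega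
  have hlt : ∀ j, n j < n (j + 1) := by
    intro j
    have h1 := hgrow j
    have h2 : 1 ≤ (j + 2) ^ 2 := Nat.one_le_iff_ne_zero.2 (by positivity)
    nlinarith
  have hmono : StrictMono n := strictMono_nat_of_lt_succ hlt
  have hex : ∀ j, ∃ F : Set ℕ, F ⊆ Set.Icc 1 (n j) ∧ GPF 3 F ∧
      (c - 1 / ((j : ℝ) + 1)) * (n j : ℝ) ≤ (F.ncard : ℝ) := fun j => ht j (n j) (hnt j)
  choose F hF1 hF2 hF3 using hex
  set A : Set ℕ := {x | ∃ j, x ∈ F j ∧ n j < (j + 1) * x} with hA
  -- an element determines its block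
  have hblock : ∀ {x i j : ℕ}, x ∈ F i → n i < (i + 1) * x → x ≤ n j → i ≤ j := by
    intro x i j h1 h2 h3
    by_contra hlt'
    push Not at hlt'
    obtain ⟨i', rfl⟩ : ∃ i', i = i' + 1 := ⟨i - 1, by omega⟩
    have h4 : n j ≤ n i' := hmono.monotone (by omega)
    have h5 := hgrow i'
    have h6 : x ≤ n i' := h3.trans h4
    have h7 : (i' + 2) * (n i') ≤ (i' + 2) ^ 2 * (n i' + 1) ^ 2 := by
      have : 1 ≤ i' + 2 := by omega
      nlinarith [sq_nonneg (n i'), Nat.zero_le (n i'), Nat.zero_le i']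
    have h8 : (i' + 1 + 1) * x ≤ (i' + 2) * n i' := Nat.mul_le_mul (by omega) h6
    omega
  refine ⟨A, ?_, ?_, ?_⟩
  · rintro x ⟨j, hx, _⟩
    exact (hF1 j hx).1
  · -- geometric progression free
    have main : ∀ x ∈ A, ∀ y ∈ A, ∀ z ∈ A, y ^ 2 = x * z → x < y → y < z → False := by
      rintro x ⟨i, hx, hxi⟩ y ⟨l, hy, hyl⟩ z ⟨j, hz, hzj⟩ heq hxy hyz
      have hz2 := (hF1 j hz).2
      have hx1 := (hF1 i hx).1
      have hlj : l ≤ j := hblock hy hyl (hyz.le.trans hz2)
      have hij : i ≤ j := hblock hx hxi ((hxy.trans hyz).le.trans hz2)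
      -- `y` is in block `j`
      have hyj : l = j := by
        by_contra hne
        obtain ⟨j', rfl⟩ : ∃ j', j = j' + 1 := ⟨j - 1, by omega⟩
        have h1 : y ≤ n j' := (hF1 l hy).2.trans (hmono.monotone (by omega))
        have h2 : z ≤ y ^ 2 := by rw [heq]; nlinarith
        have h3 := hgrow j'
        have h4 : (j' + 1 + 1) * z ≤ (j' + 2) ^ 2 * (n j' + 1) ^ 2 := by
          have h5 : y ^ 2 ≤ (n j' + 1) ^ 2 := Nat.pow_le_pow_left (by omega) 2
          have h6 : (j' + 1 + 1) ≤ (j' + 2) ^ 2 := by nlinarith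
          exact Nat.mul_le_mul h6 (h2.trans h5)
        omega
      subst hyj
      have hij' : i = l := by
        by_contra hne
        obtain ⟨l', rfl⟩ : ∃ l', l = l' + 1 := ⟨l - 1, by omega⟩
        have h1 : x ≤ n l' := (hF1 i hx).2.trans (hmono.monotone (by omega))
        have h3 := hgrow l'
        -- `(l'+2)^2 y^2 > n^2`, so `(l'+2)^2 x > n`
        have h4 : n (l' + 1) ^ 2 < ((l' + 2) * y) ^ 2 := Nat.pow_lt_pow_left hyl (by norm_num)
        have h5 : ((l' + 2) * y) ^ 2 = (l' + 2) ^ 2 * x * z := by rw [mul_pow, heq]; ring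
        have h6 : (l' + 2) ^ 2 * x * z ≤ (l' + 2) ^ 2 * x * n (l' + 1) :=
          Nat.mul_le_mul_left _ hz2
        have h7 : n (l' + 1) * n (l' + 1) < (l' + 2) ^ 2 * x * n (l' + 1) := by
          calc n (l' + 1) * n (l' + 1) = n (l' + 1) ^ 2 := by ring
            _ < _ := h4
            _ = _ := h5
            _ ≤ _ := h6
        have h8 : n (l' + 1) < (l' + 2) ^ 2 * x := lt_of_mul_lt_mul_right h7 (Nat.zero_le _)
        have h9 : (l' + 2) ^ 2 * x ≤ (l' + 2) ^ 2 * (n l' + 1) ^ 2 := by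
          apply Nat.mul_le_mul_left
          nlinarith
        omega
      subst hij'
      have := gpf3_iff.1 (hF2 i) x hx y hy z hz heq
      omega
    rw [gpf3_iff]
    intro x hx y hy z hz heq
    by_contra hne
    have hx1 : 1 ≤ x := by obtain ⟨j, h1, _⟩ := hx; exact (hF1 j h1).1
    have hy1 : 1 ≤ y := by obtain ⟨j, h1, _⟩ := hy; exact (hF1 j h1).1
    have hz1 : 1 ≤ z := by obtain ⟨j, h1, _⟩ := hz; exact (hF1 j h1).1
    rcases lt_or_gt_of_ne hne with hlt' | hgt
    · refine main x hx y hy z hz heq hlt' ?_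
      by_contra hc
      push Not at hc
      nlinarith
    · refine main z hz y hy x hx (by rw [heq]; ring) ?_ hgt
      by_contra hc
      push Not at hc
      nlinarith
  · -- the upper density
    apply le_of_forall_pos_le_add
    intro δ hδ
    have hfreq : ∃ᶠ N : ℕ in atTop, c - δ ≤ (cnt A N : ℝ) / N := by
      rw [Filter.frequently_atTop]
      intro N₁
      obtain ⟨j₀, hj₀⟩ := exists_nat_gt (3 / δ)
      set j := max j₀ N₁ with hj
      have hjn : j ≤ n j := hmono.id_le j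
      refine ⟨n j, (le_max_right _ _).trans hjn, ?_⟩
      have hnR : (0 : ℝ) < n j := by exact_mod_cast hpos j
      rw [le_div_iff₀ hnR]
      -- count
      have h1 : (F j).ncard ≤ cnt A (n j) + n j / (j + 1) := by
        have hsub : F j ⊆ (A ∩ Set.Icc 1 (n j)) ∪ Set.Icc 1 (n j / (j + 1)) := by
          intro x hx
          have hx2 := hF1 j hx
          by_cases hc : n j < (j + 1) * x
          · exact Or.inl ⟨⟨j, hx, hc⟩, hx2⟩
          · right
            refine ⟨hx2.1, ?_⟩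
            rw [Nat.le_div_iff_mul_le (by omega)]
            push Not at hc
            rw [mul_comm]; exact hc
        have h2 := Set.ncard_le_ncard hsub (((Set.finite_Icc 1 _).inter_of_right _).union
          (Set.finite_Icc 1 _))
        refine h2.trans ((Set.ncard_union_le _ _).trans ?_)
        unfold GP.cnt
        have h3 : (Set.Icc 1 (n j / (j + 1))).ncard = n j / (j + 1) := by
          rw [← Nat.card_coe_set_eq, Nat.card_eq_fintype_card]
          simp
        rw [h3]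
      have h2 := hF3 j
      have h3 : ((n j / (j + 1) : ℕ) : ℝ) ≤ (n j : ℝ) / ((j : ℝ) + 1) := by
        have := Nat.cast_div_le (α := ℝ) (m := n j) (n := j + 1)
        push_cast at this
        exact this
      have h4 : ((F j).ncard : ℝ) ≤ (cnt A (n j) : ℝ) + ((n j / (j + 1) : ℕ) : ℝ) := by
        exact_mod_cast h1
      have hjR : (3 / δ : ℝ) < (j : ℝ) + 1 := by
        have : (j₀ : ℝ) ≤ j := by exact_mod_cast le_max_left _ _
        linarith
      have h5 : 1 / ((j : ℝ) + 1) ≤ δ / 3 := by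
        rw [div_le_div_iff₀ (by positivity) (by norm_num)]
        rw [div_lt_iff₀ hδ] at hjR
        linarith
      have h6 : (n j : ℝ) / ((j : ℝ) + 1) = 1 / ((j : ℝ) + 1) * n j := by ring
      rw [h6] at h3
      have h7 : 1 / ((j : ℝ) + 1) * (n j : ℝ) ≤ δ / 3 * n j :=
        mul_le_mul_of_nonneg_right h5 hnR.le
      nlinarith
    have := Filter.le_limsup_of_frequently_le hfreq
      (Filter.isBoundedUnder_of ⟨1, fun N => cnt_div_le_one A N⟩)
    linarith

end Pool.Agent.V11319.GPU
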