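import Pool.Agent.V11319.RuleBound

set_option autoImplicit false

/-! A submultiplicative seminorm on the example which does not vanish on the element killed by
the antipode. -/

namespace Pool.Agent.V11319

open Pool.Agent.TH12.Hopf MonoidAlgebra

/-- The letters. -/
abbrev LL := ℕ × Fin 12 × Fin 12

/-- The presentation of the example. -/
noncomputable def pi0 : FA ℂ LL →ₐ[ℂ] Hv ℂ :=
  MonoidAlgebra.lift ℂ (Hv ℂ) (FreeMonoid LL)
    (FreeMonoid.lift (fun l : LL => G (Tv ℂ) l.1 l.2.1 l.2.2))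

lemma pi0_X (i : ℕ) (o a : Fin 12) : pi0 (Dat.X ℂ i o a) = G (Tv ℂ) i o a := by
  rw [Dat.X, wd, pi0, MonoidAlgebra.lift_single, one_smul]
  rfl

lemma pi0_surjective : Function.Surjective pi0 := by
  intro x
  have h : x ∈ pi0.range := by
    induction x using indH with
    | h0 c => exact Subalgebra.algebraMap_mem _ c
    | hg i o a => exact ⟨Dat.X ℂ i o a, pi0_X i o a⟩
    | hm a b ha hb => exact Subalgebra.mul_mem _ ha hb
    | ha a b ha hb => exact Subalgebra.add_mem _ ha hb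
  exact h

lemma repH_pi0 (f : FA ℂ LL) : repH (pi0 f) = (Dv ℂ).sys.rho f := by
  have h : (repH (k := ℂ)).comp pi0 = (Dv ℂ).sys.rho := by
    apply MonoidAlgebra.algHom_ext'
    · apply FreeMonoid.hom_eq
      intro l
      change repH (pi0 (Dat.X ℂ l.1 l.2.1 l.2.2)) = (Dv ℂ).sys.rho (Dat.X ℂ l.1 l.2.1 l.2.2)
      rw [pi0_X, repH, liftH_G]
    · ext
  exact DFunLike.congr_fun h f

lemma Nh_of_pi0 {f : FA ℂ LL} (hf : pi0 f = 0) : (Dv ℂ).sys.Nh f = 0 := by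
  by_contra h
  apply RS.rho_ne_zero (Dv ℂ).sys (Dv ℂ).res h
  rw [← repH_pi0, hf, map_zero]

/-- The word used to detect the element. -/
def w1 : List LL := [(0, 1, 0), (0, 5, 1)]

/-- The functional. -/
noncomputable def ph1 : FA ℂ LL →ₗ[ℂ] ℂ := phi (Dv ℂ).sys w1

lemma ph1_le (f : FA ℂ LL) : ‖ph1 f‖ ≤ nrm Wv f :=
  phi_le Wv one_le_Wv (Dv ℂ).sys rule_le w1 f

lemma ph1_of_pi0 {f g : FA ℂ LL} (h : pi0 f = pi0 g) : ph1 f = ph1 g := by
  rw [← sub_eq_zero, ← map_sub] at h ⊢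
  rw [ph1, phi_apply, Nh_of_pi0 h]
  rfl

lemma ph1_cf : ph1 cf = 1 := by
  have h6 : Tv ℂ 2 1 5 5 = 1 := if_pos tb_155
  rw [ph1, phi_apply, Nh_cf, cf, Pool.Agent.TH12.Hopf.coeff_sum]
  rw [Finset.sum_eq_single ((1 : Fin 12), (5 : Fin 12))]
  · change Tv ℂ 2 1 5 5 * (if w1 = w1 then 1 else 0) = 1
    rw [if_pos rfl, mul_one, h6]
  · intro q _ hq
    rw [if_neg, mul_zero]
    intro h5
    simp only [w1, List.cons.injEq, Prod.mk.injEq, and_true, true_and] at h5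
    exact hq (Prod.ext h5.1 h5.2)
  · intro h7
    exact absurd (Finset.mem_univ _) h7

lemma pi0_cf : pi0 cf = cv := by
  rw [cv, cf, map_sum]
  refine Finset.sum_congr rfl fun q _ => ?_
  rw [map_smul, ← Dat.X_mul, map_mul, pi0_X, pi0_X]

/-- The quotient seminorm. -/
noncomputable def pq (x : Hv ℂ) : ℝ := ⨅ f : {f : FA ℂ LL // pi0 f = x}, nrm Wv f.1

lemma bdd (x : Hv ℂ) : BddBelow (Set.range fun f : {f : FA ℂ LL // pi0 f = x} => nrm Wv f.1) :=
  ⟨0, by rintro _ ⟨f, rfl⟩; exact nrm_nonneg Wv Wv_nonneg _⟩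

lemma pq_le (f : FA ℂ LL) : pq (pi0 f) ≤ nrm Wv f :=
  ciInf_le (bdd (pi0 f)) ⟨f, rfl⟩

instance (x : Hv ℂ) : Nonempty {f : FA ℂ LL // pi0 f = x} :=
  let ⟨f, hf⟩ := pi0_surjective x
  ⟨⟨f, hf⟩⟩

lemma pq_nonneg (x : Hv ℂ) : 0 ≤ pq x :=
  le_ciInf fun f => nrm_nonneg Wv Wv_nonneg f.1

lemma pq_lt (x : Hv ℂ) {r : ℝ} (h : pq x < r) : ∃ f, pi0 f = x ∧ nrm Wv f < r := by
  obtain ⟨f, hf⟩ := exists_lt_of_ciInf_lt h
  exact ⟨f.1, f.2, hf⟩

lemma pq_add (x y : Hv ℂ) : pq (x + y) ≤ pq x + pq y := by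
  refine le_of_forall_pos_le_add fun ε hε => ?_
  obtain ⟨f, rfl, hf⟩ := pq_lt x (r := pq x + ε / 2) (by linarith)
  obtain ⟨g, rfl, hg⟩ := pq_lt y (r := pq y + ε / 2) (by linarith)
  rw [← map_add]
  have h1 := (pq_le (f + g)).trans (nrm_add Wv Wv_nonneg f g)
  rw [map_add] at h1 ⊢
  linarith

lemma pq_smul (c : ℂ) (x : Hv ℂ) : pq (c • x) ≤ ‖c‖ * pq x := by
  refine le_of_forall_pos_le_add fun ε hε => ?_
  obtain ⟨f, hfx, hf⟩ := pq_lt x (r := pq x + ε / (‖c‖ + 1)) (by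
    have : 0 < ε / (‖c‖ + 1) := by positivity
    linarith)
  have h1 := pq_le (c • f)
  rw [map_smul, hfx, nrm_smul_le] at h1
  have h2 : ‖c‖ * nrm Wv f ≤ ‖c‖ * (pq x + ε / (‖c‖ + 1)) :=
    mul_le_mul_of_nonneg_left hf.le (norm_nonneg _)
  have h3 : ‖c‖ * (ε / (‖c‖ + 1)) ≤ ε := by
    rw [mul_div_assoc']
    rw [div_le_iff₀ (by positivity)]
    nlinarith [norm_nonneg c]
  linarith

lemma pq_zero : pq 0 = 0 := by
  refine le_antisymm ?_ (pq_nonneg 0)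
  have h := pq_le 0
  rwa [map_zero, nrm_zero] at h

lemma pq_mul (x y : Hv ℂ) : pq (x * y) ≤ pq x * pq y := by
  have hx := pq_nonneg x
  have hy := pq_nonneg y
  have key : ∀ δ : ℝ, 0 < δ → pq (x * y) ≤ (pq x + δ) * (pq y + δ) := by
    intro δ hδ
    obtain ⟨f, hfx, hf⟩ := pq_lt x (r := pq x + δ) (by linarith)
    obtain ⟨g, hgy, hg⟩ := pq_lt y (r := pq y + δ) (by linarith)
    have h1 := (pq_le (f * g)).trans (nrm_mul Wv Wv_nonneg f g)
    rw [map_mul, hfx, hgy] at h1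
    refine h1.trans (mul_le_mul hf.le hg.le (nrm_nonneg Wv Wv_nonneg g) (by linarith))
  have hlim : Filter.Tendsto (fun δ : ℝ => (pq x + δ) * (pq y + δ)) (nhdsWithin 0 (Set.Ioi 0))
      (nhds (pq x * pq y)) := by
    have hc : Continuous (fun δ : ℝ => (pq x + δ) * (pq y + δ)) := by fun_prop
    have h2 := hc.tendsto 0
    simp only [add_zero] at h2
    exact h2.mono_left nhdsWithin_le_nhds
  refine ge_of_tendsto hlim ?_
  filter_upwards [self_mem_nhdsWithin] with δ hδ using key δ hδ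

/-- The quotient seminorm as a seminorm. -/
noncomputable def pS : Seminorm ℂ (Hv ℂ) := Seminorm.ofSMulLE pq pq_zero pq_add pq_smul

lemma pS_mul (x y : Hv ℂ) : pS (x * y) ≤ pS x * pS y := pq_mul x y

theorem one_le_pS_cv : 1 ≤ pS cv := by
  change 1 ≤ pq cv
  refine le_ciInf fun f => ?_
  have h1 := ph1_le f.1
  rw [ph1_of_pi0 (f.2.trans pi0_cf.symm), ph1_cf, norm_one] at h1
  exact h1

end Pool.Agent.V11319
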