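import Mathlib

set_option autoImplicit false

/-! Completions of algebras for families of submultiplicative seminorms. -/

namespace Pool.Agent.V11319.Env

open TensorProduct UniformSpace Topology Filter

/-- The submultiplicative seminorms on the algebra `A`. -/
abbrev SubmulSeminorm (A : Type) [Ring A] [Algebra ℂ A] :=
  {p : Seminorm ℂ A // ∀ a b : A, p (a * b) ≤ p a * p b}

section family

variable {A ι : Type} [Ring A] [Algebra ℂ A] (P : ι → SubmulSeminorm A)

/-- A copy of the algebra `A`, to be given the topology of the seminorms `P i`. -/
def FTop {A ι : Type} [Ring A] [Algebra ℂ A] (_P : ι → SubmulSeminorm A) : Type := A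

instance : Ring (FTop P) := inferInstanceAs (Ring A)
instance : Algebra ℂ (FTop P) := inferInstanceAs (Algebra ℂ A)

/-- The seminormed ring defined by a submultiplicative seminorm. -/
abbrev sring (p : SubmulSeminorm A) : SeminormedRing (FTop P) :=
  { (inferInstance : Ring (FTop P)),
    (AddGroupSeminorm.toSeminormedAddCommGroup
      (E := FTop P) p.1.toAddGroupSeminorm) with
    norm_mul_le := p.2 }

/-- The uniform structure defined by a submultiplicative seminorm. -/
abbrev unif (p : SubmulSeminorm A) : UniformSpace (FTop P) :=
  (sring P p).toPseudoMetricSpace.toUniformSpace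

/-- The uniform structure (and topology) defined by the seminorms `P i`. -/
instance instU : UniformSpace (FTop P) := ⨅ i, unif P (P i)

instance : IsUniformAddGroup (FTop P) := by
  refine isUniformAddGroup_iInf fun i => ?_
  let _ := sring P (P i)
  infer_instance

instance : IsTopologicalRing (FTop P) := by
  have h1 : @ContinuousMul (FTop P) (⨅ i, (unif P (P i)).toTopologicalSpace) _ := by
    refine continuousMul_iInf fun i => ?_
    let _ := sring P (P i)
    infer_instance
  have h2 : ContinuousMul (FTop P) :=
    (UniformSpace.toTopologicalSpace_iInf (u := fun i => unif P (P i))) ▸ h1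
  exact { continuous_add := continuous_add, continuous_mul := h2.continuous_mul,
          continuous_neg := continuous_neg }

/-- The seminorms on the copy. -/
def fam : SeminormFamily ℂ (FTop P) ι := fun i => (P i).1

lemma withSeminorms : WithSeminorms (fam P) := by
  rw [SeminormFamily.withSeminorms_iff_uniformSpace_eq_iInf]
  rfl

instance : ContinuousSMul ℂ (FTop P) := (withSeminorms P).continuousSMul
instance : UniformContinuousConstSMul ℂ (FTop P) :=
  uniformContinuousConstSMul_of_continuousConstSMul _ _
instance : LocallyConvexSpace ℝ (FTop P) := (withSeminorms P).toLocallyConvexSpace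

/-- The completion of `A` for the seminorms `P i`. -/
def Cpl : Type := Completion (FTop P)

noncomputable instance : Ring (Cpl P) := inferInstanceAs (Ring (Completion (FTop P)))
noncomputable instance : Algebra ℂ (Cpl P) := inferInstanceAs (Algebra ℂ (Completion (FTop P)))
instance : UniformSpace (Cpl P) := inferInstanceAs (UniformSpace (Completion (FTop P)))
instance : CompleteSpace (Cpl P) := inferInstanceAs (CompleteSpace (Completion (FTop P)))
instance : T0Space (Cpl P) := inferInstanceAs (T0Space (Completion (FTop P)))
instance : IsUniformAddGroup (Cpl P) :=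
  inferInstanceAs (IsUniformAddGroup (Completion (FTop P)))
instance : IsTopologicalRing (Cpl P) :=
  inferInstanceAs (IsTopologicalRing (Completion (FTop P)))

/-- The canonical map, as an algebra homomorphism. -/
noncomputable def toC : A →ₐ[ℂ] Cpl P :=
  { (Completion.coeRingHom : FTop P →+* Completion (FTop P)) with
    commutes' := fun r => (Completion.algebraMap_def (A := FTop P) (R := ℂ) r).symm }

/-- The canonical map, from the copy. -/
noncomputable def toC' : FTop P → Cpl P := fun a => (a : Completion (FTop P))

lemma toC'_eq (a : FTop P) : toC' P a = toC P a := rfl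

lemma isUniformInducing_toC' : IsUniformInducing (toC' P) :=
  Completion.isUniformInducing_coe _

lemma isDenseInducing_toC' : IsDenseInducing (toC' P) := Completion.isDenseInducing_coe

lemma denseRange_toC : DenseRange (toC P) := Completion.denseRange_coe (α := FTop P)

instance : ContinuousSMul ℂ (Cpl P) := by
  have hc : Continuous (algebraMap ℂ (Cpl P)) := by
    have h : (algebraMap ℂ (Cpl P) : ℂ → Cpl P) = toC' P ∘ (algebraMap ℂ (FTop P)) := by
      funext r
      exact Completion.algebraMap_def (A := FTop P) (R := ℂ) r
    rw [h]
    refine (isDenseInducing_toC' P).continuous.comp ?_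
    have h2 : (algebraMap ℂ (FTop P) : ℂ → FTop P) = fun r => r • (1 : FTop P) := by
      funext r
      exact Algebra.algebraMap_eq_smul_one r
    rw [h2]
    fun_prop
  constructor
  simp only [Algebra.smul_def]
  exact (hc.comp continuous_fst).mul continuous_snd

/-- Closed neighbourhoods of zero come from the algebra. -/
lemma exists_closure_subset {U : Set (Cpl P)} (hU : U ∈ 𝓝 (0 : Cpl P)) :
    ∃ V ∈ 𝓝 (0 : FTop P), closure (toC' P '' V) ⊆ U := by
  obtain ⟨t, ht, htc, htU⟩ := exists_mem_nhds_isClosed_subset hU
  refine ⟨toC' P ⁻¹' t, ?_, ?_⟩
  · have h0 : toC' P 0 = 0 := map_zero (toC P)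
    exact (isDenseInducing_toC' P).continuous.continuousAt.preimage_mem_nhds (by rwa [h0])
  · exact (htc.closure_subset_iff.2 (Set.image_preimage_subset _ _)).trans htU

lemma closure_mem_nhds {V : Set (FTop P)} (hV : V ∈ 𝓝 (0 : FTop P)) :
    closure (toC' P '' V) ∈ 𝓝 (0 : Cpl P) := by
  have h0 : toC' P 0 = 0 := map_zero (toC P)
  rw [← h0]
  exact (isDenseInducing_toC' P).closure_image_mem_nhds hV

instance : LocallyConvexSpace ℝ (Cpl P) := by
  rw [locallyConvexSpace_iff_exists_convex_subset_zero]
  intro U hU
  obtain ⟨V, hV, hVU⟩ := exists_closure_subset P hU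
  obtain ⟨W, hW, hWc, hWV⟩ :=
    (locallyConvexSpace_iff_exists_convex_subset_zero ℝ (FTop P)).1 inferInstance V hV
  refine ⟨closure (toC' P '' W), closure_mem_nhds P hW, ?_,
    (closure_mono (Set.image_mono hWV)).trans hVU⟩
  refine Convex.closure ?_
  exact hWc.linear_image ((toC P).toLinearMap.restrictScalars ℝ)

end family

end Pool.Agent.V11319.Env
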