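import Pool.Agent.V11319.Env

set_option autoImplicit false

/-! Extension of maps to completions, and the Arens-Michael envelope. -/

namespace Pool.Agent.V11319.Env

open TensorProduct UniformSpace Topology Filter

section ext

variable {A ι : Type} [Ring A] [Algebra ℂ A] (P : ι → SubmulSeminorm A)

/-- The canonical map as a continuous linear map. -/
noncomputable def toCL : FTop P →L[ℂ] Cpl P :=
  ⟨(toC P).toLinearMap, (isDenseInducing_toC' P).continuous⟩

/-- Continuous functions on the completion are determined on the algebra. -/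
lemma hom_ext {Y : Type} [TopologicalSpace Y] [T2Space Y] {f g : Cpl P → Y} (hf : Continuous f)
    (hg : Continuous g) (h : ∀ a : A, f (toC P a) = g (toC P a)) : f = g :=
  Completion.ext hf hg h

section lin

variable {K : Type} [AddCommGroup K] [Module ℂ K] [UniformSpace K] [IsUniformAddGroup K]
  [ContinuousSMul ℂ K] [CompleteSpace K] [T0Space K]

/-- The continuous extension of a linear map. -/
noncomputable def extL (f : A →ₗ[ℂ] K) (hf : Continuous (fun a : FTop P => f a)) :
    Cpl P →L[ℂ] K :=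
  ContinuousLinearMap.extend (⟨(show FTop P →ₗ[ℂ] K from f), hf⟩ : FTop P →L[ℂ] K) (toCL P)

lemma extL_toC (f : A →ₗ[ℂ] K) (hf : Continuous (fun a : FTop P => f a)) (a : A) :
    extL P f hf (toC P a) = f a :=
  ContinuousLinearMap.extend_eq (⟨(show FTop P →ₗ[ℂ] K from f), hf⟩ : FTop P →L[ℂ] K)
    (e := toCL P) (denseRange_toC P) (isUniformInducing_toC' P) a

end lin

section alg

variable {K : Type} [Ring K] [Algebra ℂ K] [UniformSpace K] [IsUniformAddGroup K]
  [IsTopologicalRing K] [CompleteSpace K] [T0Space K]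

/-- The continuous extension of an algebra homomorphism. -/
noncomputable def extA (f : A →ₐ[ℂ] K) (hf : Continuous (fun a : FTop P => f a)) :
    Cpl P →ₐ[ℂ] K :=
  { (Completion.extensionHom ((show FTop P →ₐ[ℂ] K from f) : FTop P →+* K) hf :
      Completion (FTop P) →+* K) with
    commutes' := fun r => by
      change Completion.extensionHom ((show FTop P →ₐ[ℂ] K from f) : FTop P →+* K) hf
        (algebraMap ℂ (Completion (FTop P)) r) = _
      rw [Completion.algebraMap_def]
      exact (Completion.extensionHom_coe ((show FTop P →ₐ[ℂ] K from f) : FTop P →+* K) hf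
        (algebraMap ℂ (FTop P) r)).trans (f.commutes r) }

lemma extA_toC (f : A →ₐ[ℂ] K) (hf : Continuous (fun a : FTop P => f a)) (a : A) :
    extA P f hf (toC P a) = f a :=
  Completion.extensionHom_coe ((show FTop P →ₐ[ℂ] K from f) : FTop P →+* K) hf a

lemma continuous_extA (f : A →ₐ[ℂ] K) (hf : Continuous (fun a : FTop P => f a)) :
    Continuous (extA P f hf) :=
  Completion.continuous_extension

end alg

end ext

section AM

variable (A : Type) [Ring A] [Algebra ℂ A]

/-- The family of all submultiplicative seminorms. -/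
abbrev allS : SubmulSeminorm A → SubmulSeminorm A := fun p => p

/-- The Arens-Michael envelope of `A`: the completion for all submultiplicative seminorms. -/
abbrev AM : Type := Cpl (allS A)

variable {A}

lemma exists_sup (s : Finset (SubmulSeminorm A)) :
    ∃ p : SubmulSeminorm A, p.1 = s.sup (fam (allS A)) := by
  classical
  induction s using Finset.induction_on with
  | empty => exact ⟨⟨0, fun a b => by simp⟩, rfl⟩
  | insert q s hq ih =>
    obtain ⟨p, hp⟩ := ih
    refine ⟨⟨q.1 ⊔ p.1, fun a b => ?_⟩, ?_⟩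
    · simp only [Seminorm.sup_apply]
      refine max_le ((q.2 a b).trans ?_) ((p.2 a b).trans ?_)
      · exact mul_le_mul (le_max_left _ _) (le_max_left _ _) (apply_nonneg _ _)
          ((apply_nonneg _ _).trans (le_max_left _ _))
      · exact mul_le_mul (le_max_right _ _) (le_max_right _ _) (apply_nonneg _ _)
          ((apply_nonneg _ _).trans (le_max_left _ _))
    · rw [Finset.sup_insert, ← hp]
      rfl

lemma mem_nhds_AM {U : Set (FTop (allS A))} (hU : U ∈ 𝓝 (0 : FTop (allS A))) :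
    ∃ p : SubmulSeminorm A, ∃ ε : ℝ, 0 < ε ∧ ∀ x : A, p.1 x < ε → (show FTop (allS A) from x) ∈ U := by
  obtain ⟨s, r, hr, h⟩ := ((withSeminorms (allS A)).mem_nhds_iff 0 U).1 hU
  obtain ⟨p, hp⟩ := exists_sup s
  refine ⟨p, r, hr, fun x hx => h ?_⟩
  rw [Seminorm.mem_ball, sub_zero, ← hp]
  exact hx

lemma nhds_AM (p : SubmulSeminorm A) {ε : ℝ} (hε : 0 < ε) :
    {x : FTop (allS A) | p.1 x < ε} ∈ 𝓝 (0 : FTop (allS A)) := by
  have hc := (withSeminorms (allS A)).continuous_seminorm p
  have h := hc.tendsto 0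
  rw [map_zero] at h
  exact h (Iio_mem_nhds hε)

/-- Continuity of linear maps out of the copy. -/
lemma continuous_of_nhds {K : Type} [AddCommGroup K] [Module ℂ K] [TopologicalSpace K]
    [IsTopologicalAddGroup K] (f : A →ₗ[ℂ] K)
    (h : ∀ U ∈ 𝓝 (0 : K), ∃ p : SubmulSeminorm A, ∃ ε : ℝ, 0 < ε ∧ ∀ x, p.1 x < ε → f x ∈ U) :
    Continuous (fun a : FTop (allS A) => f a) := by
  refine continuous_of_continuousAt_zero (show FTop (allS A) →ₗ[ℂ] K from f) ?_
  intro U hU
  rw [map_zero] at hU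
  obtain ⟨p, ε, hε, hp⟩ := h U hU
  have h1 : {x : FTop (allS A) | p.1 x < ε} ⊆ (fun a : FTop (allS A) => f a) ⁻¹' U :=
    fun x hx => hp x hx
  exact Filter.mem_map.2 (Filter.mem_of_superset (nhds_AM p hε) h1)

variable {B : Type} [Ring B] [Algebra ℂ B]

/-- The composition of a submultiplicative seminorm with a homomorphism. -/
noncomputable def compS (q : SubmulSeminorm B) (f : A →ₐ[ℂ] B) : SubmulSeminorm A :=
  ⟨q.1.comp f.toLinearMap, fun a b => by
    show q.1 (f (a * b)) ≤ q.1 (f a) * q.1 (f b)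
    rw [map_mul]; exact q.2 _ _⟩

/-- Linear maps with seminorm bounds are continuous. -/
lemma continuous_of_comp (f : A →ₗ[ℂ] B)
    (h : ∀ q : SubmulSeminorm B, ∃ p : SubmulSeminorm A, ∀ x, q.1 (f x) ≤ p.1 x) :
    Continuous (fun a : FTop (allS A) => toC (allS B) (f a)) := by
  refine continuous_of_nhds ((toC (allS B)).toLinearMap ∘ₗ f) fun U hU => ?_
  have h1 : toC' (allS B) ⁻¹' U ∈ 𝓝 (0 : FTop (allS B)) := by
    have h0 : toC' (allS B) 0 = 0 := map_zero (toC (allS B))
    exact (isDenseInducing_toC' (allS B)).continuous.continuousAt.preimage_mem_nhds (by rwa [h0])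
  obtain ⟨q, ε, hε, hq⟩ := mem_nhds_AM h1
  obtain ⟨p, hp⟩ := h q
  exact ⟨p, ε, hε, fun x hx => hq _ ((hp x).trans_lt hx)⟩

lemma continuous_algHom (f : A →ₐ[ℂ] B) :
    Continuous (fun a : FTop (allS A) => ((toC (allS B)).comp f) a) :=
  continuous_of_comp f.toLinearMap fun q => ⟨compS q f, fun _ => le_rfl⟩

/-- The extension of an algebra homomorphism to the envelopes. -/
noncomputable def mapA (f : A →ₐ[ℂ] B) : AM A →ₐ[ℂ] AM B :=
  extA (allS A) ((toC (allS B)).comp f) (continuous_algHom f)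

lemma mapA_toC (f : A →ₐ[ℂ] B) (a : A) : mapA f (toC (allS A) a) = toC (allS B) (f a) :=
  extA_toC _ _ _ a

lemma continuous_mapA (f : A →ₐ[ℂ] B) : Continuous (mapA f) := continuous_extA _ _ _

/-- Elements of non-zero seminorm survive in the envelope. -/
lemma toC_ne_zero {a : A} (p : SubmulSeminorm A) (h : p.1 a ≠ 0) : toC (allS A) a ≠ 0 := by
  intro h0
  apply h
  have hc := (withSeminorms (allS A)).continuous_seminorm p
  have h1 : Inseparable (show FTop (allS A) from a) 0 := by
    refine (isUniformInducing_toC' (allS A)).isInducing.inseparable_iff.1 ?_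
    have h2 : toC' (allS A) (show FTop (allS A) from a) = toC' (allS A) 0 :=
      h0.trans (map_zero (toC (allS A))).symm
    rw [h2]
  have h3 := (h1.map hc).eq
  rw [map_zero] at h3
  exact h3

end AM

section inf

/-- A seminorm defined by an infimum of costs. -/
lemma exists_infSeminorm {X E : Type} [Ring E] [Algebra ℂ E] (v : X → E) (c : X → ℝ)
    (hs : Function.Surjective v) (h0 : ∀ x, 0 ≤ c x) (hz : ∃ x, v x = 0 ∧ c x = 0)
    (hadd : ∀ x y, ∃ z, v z = v x + v y ∧ c z ≤ c x + c y)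
    (hsmul : ∀ (s : ℂ) x, ∃ z, v z = s • v x ∧ c z ≤ ‖s‖ * c x)
    (hmul : ∀ x y, ∃ z, v z = v x * v y ∧ c z ≤ c x * c y) :
    ∃ p : SubmulSeminorm E, (∀ x, p.1 (v x) ≤ c x) ∧
      (∀ e r, p.1 e < r → ∃ x, v x = e ∧ c x < r) := by
  let pq : E → ℝ := fun e => ⨅ f : {x : X // v x = e}, c f.1
  have hne : ∀ e, Nonempty {x : X // v x = e} := fun e =>
    let ⟨f, hf⟩ := hs e
    ⟨⟨f, hf⟩⟩
  have hbdd : ∀ e, BddBelow (Set.range fun f : {x : X // v x = e} => c f.1) := fun e =>
    ⟨0, by rintro _ ⟨f, rfl⟩; exact h0 _⟩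
  have hle : ∀ x e, v x = e → pq e ≤ c x := fun x e h => ciInf_le (hbdd e) ⟨x, h⟩
  have hnn : ∀ e, 0 ≤ pq e := fun e => Real.iInf_nonneg fun f => h0 f.1
  have hlt : ∀ e r, pq e < r → ∃ x, v x = e ∧ c x < r := by
    intro e r h
    have := hne e
    obtain ⟨f, hf⟩ := exists_lt_of_ciInf_lt h
    exact ⟨f.1, f.2, hf⟩
  have padd : ∀ x y, pq (x + y) ≤ pq x + pq y := by
    intro x y
    refine le_of_forall_pos_le_add fun ε hε => ?_
    obtain ⟨f, hfx, hf⟩ := hlt x (pq x + ε / 2) (by linarith)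
    obtain ⟨g, hgy, hg⟩ := hlt y (pq y + ε / 2) (by linarith)
    obtain ⟨z, hz1, hz2⟩ := hadd f g
    have h1 := hle z (x + y) (by rw [hz1, hfx, hgy])
    linarith
  have psmul : ∀ (s : ℂ) x, pq (s • x) ≤ ‖s‖ * pq x := by
    intro s x
    refine le_of_forall_pos_le_add fun ε hε => ?_
    obtain ⟨f, hfx, hf⟩ := hlt x (pq x + ε / (‖s‖ + 1)) (by
      have : 0 < ε / (‖s‖ + 1) := by positivity
      linarith)
    obtain ⟨z, hz1, hz2⟩ := hsmul s f
    have h1 := hle z (s • x) (by rw [hz1, hfx])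
    have h2 : ‖s‖ * c f ≤ ‖s‖ * (pq x + ε / (‖s‖ + 1)) :=
      mul_le_mul_of_nonneg_left hf.le (norm_nonneg _)
    have h3 : ‖s‖ * (ε / (‖s‖ + 1)) ≤ ε := by
      rw [mul_div_assoc']
      rw [div_le_iff₀ (by positivity)]
      nlinarith [norm_nonneg s]
    linarith
  have pzero : pq 0 = 0 := by
    obtain ⟨z, hz1, hz2⟩ := hz
    exact le_antisymm (hz2 ▸ hle z 0 hz1) (hnn 0)
  have pmul : ∀ x y, pq (x * y) ≤ pq x * pq y := by
    intro x y
    have hx := hnn x
    have hy := hnn y
    have key : ∀ δ : ℝ, 0 < δ → pq (x * y) ≤ (pq x + δ) * (pq y + δ) := by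
      intro δ hδ
      obtain ⟨f, hfx, hf⟩ := hlt x (pq x + δ) (by linarith)
      obtain ⟨g, hgy, hg⟩ := hlt y (pq y + δ) (by linarith)
      obtain ⟨z, hz1, hz2⟩ := hmul f g
      have h1 := hle z (x * y) (by rw [hz1, hfx, hgy])
      exact (h1.trans hz2).trans (mul_le_mul hf.le hg.le (h0 g) (by linarith))
    have hlim : Filter.Tendsto (fun δ : ℝ => (pq x + δ) * (pq y + δ)) (nhdsWithin 0 (Set.Ioi 0))
        (nhds (pq x * pq y)) := by
      have hc : Continuous (fun δ : ℝ => (pq x + δ) * (pq y + δ)) := by fun_prop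
      have h2 := hc.tendsto 0
      simp only [add_zero] at h2
      exact h2.mono_left nhdsWithin_le_nhds
    refine ge_of_tendsto hlim ?_
    filter_upwards [self_mem_nhdsWithin] with δ hδ using key δ hδ
  exact ⟨⟨Seminorm.ofSMulLE pq pzero padd psmul, pmul⟩, fun x => hle x _ rfl, hlt⟩

end inf

end Pool.Agent.V11319.Env
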