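import Pool.Agent.V11319.EnvHom

set_option autoImplicit false

/-! Complete projective tensor products, and the envelope of a tensor product. -/

namespace Pool.Agent.V11319.Env

open TensorProduct UniformSpace Topology Filter

/-- Complete Hausdorff locally convex spaces over the complex numbers. -/
class CompleteLC (E : Type) [AddCommGroup E] [Module ℂ E] [UniformSpace E] : Prop extends
  IsUniformAddGroup E, ContinuousSMul ℂ E, LocallyConvexSpace ℝ E, CompleteSpace E, T0Space E

open scoped ComplexOrder in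
lemma locallyConvex_complex (K : Type) [AddCommGroup K] [Module ℂ K] [UniformSpace K]
    [CompleteLC K] : LocallyConvexSpace ℂ K := by
  rw [locallyConvexSpace_iff_exists_convex_subset_zero]
  intro U hU
  obtain ⟨S, h1, h2, h3⟩ :=
    (locallyConvexSpace_iff_exists_convex_subset_zero ℝ K).1 inferInstance U hU
  refine ⟨S, h1, convex_of_nonneg_surjective_algebraMap _ (fun z hz => ?_) h2, h3⟩
  have hz' : (0 : ℂ) ≤ z := hz
  rw [Complex.nonneg_iff] at hz'
  exact ⟨z.re, hz'.1, Complex.ext rfl hz'.2⟩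

/-- `G` with the bilinear map `t` is the complete projective tensor product of `E` and `F`: the
map `t` is jointly continuous and every jointly continuous bilinear map to a complete Hausdorff
locally convex space factors through it by a unique continuous linear map. -/
structure IsHatTensor {E F G : Type} [AddCommGroup E] [Module ℂ E] [UniformSpace E]
    [AddCommGroup F] [Module ℂ F] [UniformSpace F]
    [AddCommGroup G] [Module ℂ G] [UniformSpace G] (t : E →ₗ[ℂ] F →ₗ[ℂ] G) : Prop where
  completeLC : CompleteLC G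
  continuous : Continuous (fun p : E × F => t p.1 p.2)
  lift : ∀ (K : Type) [AddCommGroup K] [Module ℂ K] [UniformSpace K] [CompleteLC K]
    (b : E →ₗ[ℂ] F →ₗ[ℂ] K), Continuous (fun p : E × F => b p.1 p.2) →
    ∃! g : G →L[ℂ] K, ∀ x y, g (t x y) = b x y

section tensorS

variable {A B : Type} [Ring A] [Algebra ℂ A] [Ring B] [Algebra ℂ B]

/-- The value of a list of pairs. -/
noncomputable def tval (l : List (A × B)) : A ⊗[ℂ] B := (l.map fun x => x.1 ⊗ₜ[ℂ] x.2).sum

/-- The cost of a list of pairs. -/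
noncomputable def tcost (p : SubmulSeminorm A) (q : SubmulSeminorm B) (l : List (A × B)) : ℝ :=
  (l.map fun x => p.1 x.1 * q.1 x.2).sum

lemma tval_cons (x : A × B) (l : List (A × B)) : tval (x :: l) = x.1 ⊗ₜ[ℂ] x.2 + tval l := by
  simp [tval]

lemma tval_append (l m : List (A × B)) : tval (l ++ m) = tval l + tval m := by
  simp [tval]

lemma tcost_cons (p : SubmulSeminorm A) (q : SubmulSeminorm B) (x : A × B) (l : List (A × B)) :
    tcost p q (x :: l) = p.1 x.1 * q.1 x.2 + tcost p q l := by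
  simp [tcost]

lemma tcost_append (p : SubmulSeminorm A) (q : SubmulSeminorm B) (l m : List (A × B)) :
    tcost p q (l ++ m) = tcost p q l + tcost p q m := by
  simp [tcost]

lemma tcost_nonneg (p : SubmulSeminorm A) (q : SubmulSeminorm B) (l : List (A × B)) :
    0 ≤ tcost p q l := by
  induction l with
  | nil => simp [tcost]
  | cons x l ih =>
    rw [tcost_cons]
    have := mul_nonneg (apply_nonneg p.1 x.1) (apply_nonneg q.1 x.2)
    linarith

lemma tval_surjective : Function.Surjective (tval : List (A × B) → A ⊗[ℂ] B) := by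
  intro u
  induction u using TensorProduct.induction_on with
  | zero => exact ⟨[], by simp [tval]⟩
  | tmul a b => exact ⟨[(a, b)], by simp [tval]⟩
  | add u v hu hv =>
    obtain ⟨l, rfl⟩ := hu
    obtain ⟨m, rfl⟩ := hv
    exact ⟨l ++ m, tval_append l m⟩

lemma texists_smul (p : SubmulSeminorm A) (q : SubmulSeminorm B) (s : ℂ) (l : List (A × B)) :
    ∃ m, tval m = s • tval l ∧ tcost p q m ≤ ‖s‖ * tcost p q l := by
  induction l with
  | nil => exact ⟨[], by simp [tval], by simp [tcost]⟩
  | cons x l ih =>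
    obtain ⟨m, h1, h2⟩ := ih
    refine ⟨(s • x.1, x.2) :: m, ?_, ?_⟩
    · rw [tval_cons, tval_cons, h1, smul_add, TensorProduct.smul_tmul']
    · rw [tcost_cons, tcost_cons, map_smul_eq_mul]
      nlinarith

lemma texists_mul1 (p : SubmulSeminorm A) (q : SubmulSeminorm B) (x : A × B) (l : List (A × B)) :
    ∃ m, tval m = (x.1 ⊗ₜ[ℂ] x.2) * tval l ∧ tcost p q m ≤ (p.1 x.1 * q.1 x.2) * tcost p q l := by
  induction l with
  | nil => exact ⟨[], by simp [tval], by simp [tcost]⟩
  | cons y l ih =>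
    obtain ⟨m, h1, h2⟩ := ih
    refine ⟨(x.1 * y.1, x.2 * y.2) :: m, ?_, ?_⟩
    · rw [tval_cons, tval_cons, h1, mul_add, Algebra.TensorProduct.tmul_mul_tmul]
    · rw [tcost_cons, tcost_cons]
      have h3 : p.1 (x.1 * y.1) * q.1 (x.2 * y.2) ≤ (p.1 x.1 * p.1 y.1) * (q.1 x.2 * q.1 y.2) :=
        mul_le_mul (p.2 _ _) (q.2 _ _) (apply_nonneg _ _)
          (mul_nonneg (apply_nonneg _ _) (apply_nonneg _ _))
      calc p.1 (x.1 * y.1) * q.1 (x.2 * y.2) + tcost p q m
          ≤ (p.1 x.1 * p.1 y.1) * (q.1 x.2 * q.1 y.2) + (p.1 x.1 * q.1 x.2) * tcost p q l :=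
            add_le_add h3 h2
        _ = p.1 x.1 * q.1 x.2 * (p.1 y.1 * q.1 y.2 + tcost p q l) := by ring

lemma texists_mul (p : SubmulSeminorm A) (q : SubmulSeminorm B) (l l' : List (A × B)) :
    ∃ m, tval m = tval l * tval l' ∧ tcost p q m ≤ tcost p q l * tcost p q l' := by
  induction l with
  | nil => exact ⟨[], by simp [tval], by simp [tcost]⟩
  | cons x l ih =>
    obtain ⟨m, h1, h2⟩ := ih
    obtain ⟨m', h1', h2'⟩ := texists_mul1 p q x l'
    refine ⟨m' ++ m, ?_, ?_⟩
    · rw [tval_append, tval_cons, h1, h1', add_mul]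
    · rw [tcost_append, tcost_cons, add_mul]
      exact add_le_add h2' h2

/-- The projective tensor product of submultiplicative seminorms. -/
lemma exists_tensorS (p : SubmulSeminorm A) (q : SubmulSeminorm B) :
    ∃ s : SubmulSeminorm (A ⊗[ℂ] B), (∀ a b, s.1 (a ⊗ₜ[ℂ] b) ≤ p.1 a * q.1 b) ∧
      ∀ (r : A ⊗[ℂ] B → ℝ) (C : ℝ), 0 ≤ C → r 0 ≤ 0 → (∀ u v, r (u + v) ≤ r u + r v) →
        (∀ a b, r (a ⊗ₜ[ℂ] b) ≤ C * (p.1 a * q.1 b)) → ∀ u, r u ≤ C * s.1 u := by
  obtain ⟨s, hs1, hs2⟩ := exists_infSeminorm (X := List (A × B)) (E := A ⊗[ℂ] B) tval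
    (tcost p q) tval_surjective (tcost_nonneg p q) ⟨[], by simp [tval], by simp [tcost]⟩
    (fun x y => ⟨x ++ y, tval_append x y, (tcost_append p q x y).le⟩) (texists_smul p q)
    (texists_mul p q)
  refine ⟨s, fun a b => ?_, ?_⟩
  · have := hs1 [(a, b)]
    simpa [tval, tcost] using this
  · intro r C hC hr0 hradd hr u
    have key : ∀ l : List (A × B), r (tval l) ≤ C * tcost p q l := by
      intro l
      induction l with
      | nil => simpa [tval, tcost] using hr0
      | cons x l ih =>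
        rw [tval_cons, tcost_cons, mul_add]
        exact (hradd _ _).trans (add_le_add (hr _ _) ih)
    refine le_of_forall_pos_le_add fun ε hε => ?_
    obtain ⟨l, hl1, hl2⟩ := hs2 u (s.1 u + ε / (C + 1)) (by
      have : 0 < ε / (C + 1) := by positivity
      linarith)
    have h1 := key l
    rw [hl1] at h1
    have h2 : C * tcost p q l ≤ C * (s.1 u + ε / (C + 1)) := mul_le_mul_of_nonneg_left hl2.le hC
    have h3 : C * (ε / (C + 1)) ≤ ε := by
      rw [mul_div_assoc', div_le_iff₀ (by positivity)]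
      nlinarith
    linarith

end tensorS

open scoped ComplexOrder

lemma induction2 {A B ι κ : Type} [Ring A] [Algebra ℂ A] [Ring B] [Algebra ℂ B]
    {P : ι → SubmulSeminorm A} {Q : κ → SubmulSeminorm B} {p : Cpl P → Cpl Q → Prop}
    (x : Cpl P) (y : Cpl Q) (hp : IsClosed {z : Cpl P × Cpl Q | p z.1 z.2})
    (ih : ∀ (a : A) (b : B), p (toC P a) (toC Q b)) : p x y :=
  Completion.induction_on₂ x y hp ih

section univ

variable (A B : Type) [Ring A] [Algebra ℂ A] [Ring B] [Algebra ℂ B]

instance (A : Type) [Ring A] [Algebra ℂ A] : CompleteLC (AM A) where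

/-- The bilinear map of the envelopes. -/
noncomputable def tAM : AM A →ₗ[ℂ] AM B →ₗ[ℂ] AM (A ⊗[ℂ] B) :=
  LinearMap.mk₂ ℂ (fun x y => mapA (Algebra.TensorProduct.includeLeft : A →ₐ[ℂ] A ⊗[ℂ] B) x *
      mapA (Algebra.TensorProduct.includeRight : B →ₐ[ℂ] A ⊗[ℂ] B) y)
    (fun x x' y => by rw [map_add, add_mul])
    (fun c x y => by rw [map_smul, smul_mul_assoc])
    (fun x y y' => by rw [map_add, mul_add])
    (fun c x y => by rw [map_smul, mul_smul_comm])

lemma tAM_apply (x : AM A) (y : AM B) : tAM A B x y =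
    mapA (Algebra.TensorProduct.includeLeft : A →ₐ[ℂ] A ⊗[ℂ] B) x *
      mapA (Algebra.TensorProduct.includeRight : B →ₐ[ℂ] A ⊗[ℂ] B) y := rfl

lemma tAM_toC (a : A) (b : B) : tAM A B (toC _ a) (toC _ b) = toC _ (a ⊗ₜ[ℂ] b) := by
  rw [tAM_apply, mapA_toC, mapA_toC, ← map_mul]
  simp

lemma continuous_tAM : Continuous (fun p : AM A × AM B => tAM A B p.1 p.2) := by
  simp only [tAM_apply]
  exact ((continuous_mapA _).comp continuous_fst).mul ((continuous_mapA _).comp continuous_snd)

variable {A B}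

lemma bilin_bound {K : Type} [AddCommGroup K] [Module ℂ K] [UniformSpace K] [CompleteLC K]
    (b : AM A →ₗ[ℂ] AM B →ₗ[ℂ] K) (hb : Continuous (fun p : AM A × AM B => b p.1 p.2))
    (r : Seminorm ℂ K) (hr : Continuous r) :
    ∃ (p : SubmulSeminorm A) (q : SubmulSeminorm B) (C : ℝ), 0 ≤ C ∧
      ∀ x y, r (b (toC _ x) (toC _ y)) ≤ C * (p.1 x * q.1 y) := by
  have h1 : {p : AM A × AM B | r (b p.1 p.2) < 1} ∈ 𝓝 ((0 : AM A), (0 : AM B)) := by
    have h2 : Continuous (fun p : AM A × AM B => r (b p.1 p.2)) := hr.comp hb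
    have h3 := h2.tendsto ((0 : AM A), (0 : AM B))
    simp only [map_zero] at h3
    exact h3 (Iio_mem_nhds one_pos)
  rw [nhds_prod_eq, Filter.mem_prod_iff] at h1
  obtain ⟨U, hU, V, hV, hUV⟩ := h1
  have hU' : toC' (allS A) ⁻¹' U ∈ 𝓝 (0 : FTop (allS A)) := by
    have h0 : toC' (allS A) 0 = 0 := map_zero (toC (allS A))
    exact (isDenseInducing_toC' (allS A)).continuous.continuousAt.preimage_mem_nhds (by rwa [h0])
  have hV' : toC' (allS B) ⁻¹' V ∈ 𝓝 (0 : FTop (allS B)) := by
    have h0 : toC' (allS B) 0 = 0 := map_zero (toC (allS B))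
    exact (isDenseInducing_toC' (allS B)).continuous.continuousAt.preimage_mem_nhds (by rwa [h0])
  obtain ⟨p, ε, hε, hp⟩ := mem_nhds_AM hU'
  obtain ⟨q, δ, hδ, hq⟩ := mem_nhds_AM hV'
  refine ⟨p, q, 1 / (ε * δ), by positivity, fun x y => ?_⟩
  have key : ∀ s t : ℝ, p.1 x < s → q.1 y < t →
      r (b (toC _ x) (toC _ y)) ≤ 1 / (ε * δ) * (s * t) := by
    intro s t hs ht
    have hs0 : 0 < s := (apply_nonneg _ _).trans_lt hs
    have ht0 : 0 < t := (apply_nonneg _ _).trans_lt ht
    have hx : p.1 (((ε / s : ℝ) : ℂ) • x) < ε := by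
      rw [map_smul_eq_mul, Complex.norm_real, Real.norm_of_nonneg (by positivity)]
      rw [div_mul_eq_mul_div, div_lt_iff₀ hs0]
      exact mul_lt_mul_of_pos_left hs hε
    have hy : q.1 (((δ / t : ℝ) : ℂ) • y) < δ := by
      rw [map_smul_eq_mul, Complex.norm_real, Real.norm_of_nonneg (by positivity)]
      rw [div_mul_eq_mul_div, div_lt_iff₀ ht0]
      exact mul_lt_mul_of_pos_left ht hδ
    have h4 : r (b (toC _ (((ε / s : ℝ) : ℂ) • x)) (toC _ (((δ / t : ℝ) : ℂ) • y))) < 1 :=
      hUV (Set.mk_mem_prod (hp _ hx) (hq _ hy))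
    have e4 : b (toC _ (((ε / s : ℝ) : ℂ) • x)) (toC _ (((δ / t : ℝ) : ℂ) • y)) =
        ((ε / s : ℝ) : ℂ) • ((δ / t : ℝ) : ℂ) • b (toC _ x) (toC _ y) := by
      rw [map_smul (toC (allS A)), map_smul (toC (allS B)), map_smul b, LinearMap.smul_apply,
        map_smul (b _)]
    rw [e4, map_smul_eq_mul, map_smul_eq_mul, Complex.norm_real, Complex.norm_real,
      Real.norm_of_nonneg (by positivity), Real.norm_of_nonneg (by positivity)] at h4
    have h5 : r (b (toC _ x) (toC _ y)) * (ε * δ) < s * t := by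
      have h6 : 0 < s * t := by positivity
      calc r (b (toC _ x) (toC _ y)) * (ε * δ)
          = (ε / s * (δ / t * r (b (toC _ x) (toC _ y)))) * (s * t) := by
            field_simp
        _ < 1 * (s * t) := mul_lt_mul_of_pos_right h4 h6
        _ = s * t := one_mul _
    rw [one_div, inv_mul_eq_div, le_div_iff₀ (by positivity)]
    exact h5.le
  have hlim : Filter.Tendsto (fun δ' : ℝ => 1 / (ε * δ) * ((p.1 x + δ') * (q.1 y + δ')))
      (nhdsWithin 0 (Set.Ioi 0)) (nhds (1 / (ε * δ) * (p.1 x * q.1 y))) := by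
    have hc : Continuous (fun δ' : ℝ => 1 / (ε * δ) * ((p.1 x + δ') * (q.1 y + δ'))) := by fun_prop
    have h2 := hc.tendsto 0
    simp only [add_zero] at h2
    exact h2.mono_left nhdsWithin_le_nhds
  refine ge_of_tendsto hlim ?_
  filter_upwards [self_mem_nhdsWithin] with δ' hδ'
  have hδ'' : 0 < δ' := hδ'
  exact key _ _ (by linarith) (by linarith)

theorem isHatTensor_tAM : IsHatTensor (tAM A B) where
  completeLC := inferInstance
  continuous := continuous_tAM A B
  lift := by
    intro K _ _ _ _ b hb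
    have hcs : ContinuousSMul ℝ K := ⟨by
      have h1 : Continuous (fun p : ℝ × K => (p.1 : ℂ) • p.2) :=
        (Complex.continuous_ofReal.comp continuous_fst).smul continuous_snd
      exact h1⟩
    have hlc : LocallyConvexSpace ℂ K := locallyConvex_complex K
    let g0 : A ⊗[ℂ] B →ₗ[ℂ] K := TensorProduct.lift
      (b.compl₁₂ (toC (allS A)).toLinearMap (toC (allS B)).toLinearMap)
    have hg0 : ∀ x y, g0 (x ⊗ₜ[ℂ] y) = b (toC _ x) (toC _ y) := fun x y => by
      simp [g0]
    have hcont : Continuous (fun u : FTop (allS (A ⊗[ℂ] B)) => g0 u) := by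
      refine continuous_of_nhds g0 fun U hU => ?_
      obtain ⟨s, r, hr, hU2⟩ := ((with_gaugeSeminormFamily (𝕜 := ℂ) (E := K)).mem_nhds_iff 0 U).1 hU
      have hrc : Continuous ((s.sup (gaugeSeminormFamily ℂ K) : Seminorm ℂ K) : K → ℝ) :=
        Seminorm.continuous_finsetSup fun i _ =>
          (with_gaugeSeminormFamily (𝕜 := ℂ) (E := K)).continuous_seminorm i
      obtain ⟨p, q, C, hC, hpq⟩ := bilin_bound b hb _ hrc
      obtain ⟨t, ht1, ht2⟩ := exists_tensorS p q
      have h7 := ht2 (fun u => (s.sup (gaugeSeminormFamily ℂ K)) (g0 u)) C hC (by simp)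
        (fun u v => by rw [map_add]; exact map_add_le_add _ _ _)
        (fun a b' => by rw [hg0]; exact hpq a b')
      refine ⟨t, r / (C + 1), by positivity, fun u hu => hU2 ?_⟩
      rw [Seminorm.mem_ball, sub_zero]
      refine (h7 u).trans_lt ?_
      rw [lt_div_iff₀ (by positivity)] at hu
      nlinarith [apply_nonneg t.1 u]
    refine ⟨extL _ g0 hcont, fun x y => ?_, fun g hg => ?_⟩
    · have h1 : Continuous (fun p : AM A × AM B => extL _ g0 hcont (tAM A B p.1 p.2)) :=
        (extL _ g0 hcont).continuous.comp (continuous_tAM A B)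
      exact induction2 (p := fun (x : AM A) (y : AM B) =>
        extL _ g0 hcont (tAM A B x y) = b x y) x y (isClosed_eq h1 hb) fun a c => by
          rw [tAM_toC, extL_toC, hg0]
    · ext z
      revert z
      rw [← funext_iff]
      refine hom_ext _ g.continuous (extL _ g0 hcont).continuous fun u => ?_
      rw [extL_toC]
      induction u using TensorProduct.induction_on with
      | zero => simp
      | tmul a c => rw [← tAM_toC, hg, hg0]
      | add u v hu hv => rw [map_add, map_add, map_add, hu, hv]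

end univ

end Pool.Agent.V11319.Env
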