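import Pool.Agent.H413R3.KGMain

set_option autoImplicit false

open Filter Topology

namespace Pool.Agent.V11319.GPU

open Pool.Agent.H413R3 Pool.Agent.H413R3.KG
open GP (cnt cnt_mono cnt_eq_sum)

/-! ### The product over the primes below `K` -/

lemma P_succ_not {K : ℕ} (h : ¬ K.Prime) : P (K + 1) = P K := by
  unfold P
  rw [Nat.primesBelow_succ, if_neg h]

lemma P_succ_prime {K : ℕ} (h : K.Prime) : P (K + 1) = (1 - (K : ℝ)⁻¹) * P K := by
  unfold P
  rw [Nat.primesBelow_succ, if_pos h, Finset.prod_insert (by simp [Nat.primesBelow])]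

lemma P_bound : ∀ m : ℕ, 1 ≤ m → 1 ≤ P (2 * m + 1) ^ 2 * (4 * (2 * (m : ℝ) - 1)) := by
  intro m hm
  induction m, hm using Nat.le_induction with
  | base =>
    have h0 : P 2 = 1 := by
      unfold P
      have : Nat.primesBelow 2 = ∅ := by decide
      rw [this]; simp
    have h1 : P (2 * 1 + 1) = 1 / 2 := by
      show P (2 + 1) = 1 / 2
      rw [P_succ_prime Nat.prime_two, h0]
      norm_num
    rw [h1]; norm_num
  | succ m hm ih =>
    have hmR : (1 : ℝ) ≤ m := by exact_mod_cast hm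
    have e1 : P (2 * (m + 1) + 1) = P (2 * m + 1 + 1) := by
      have : ¬ (2 * m + 1 + 1).Prime := by
        intro h
        have := (Nat.prime_dvd_prime_iff_eq Nat.prime_two h).1 ⟨m + 1, by ring⟩
        omega
      have h2 := P_succ_not this
      rw [← h2]
      congr 1
    have hP := P_pos (2 * m + 1)
    have e2 : (1 - ((2 * m + 1 : ℕ) : ℝ)⁻¹) * P (2 * m + 1) ≤ P (2 * m + 1 + 1) := by
      by_cases h : (2 * m + 1).Prime
      · rw [P_succ_prime h]
      · rw [P_succ_not h]
        have : (1 - ((2 * m + 1 : ℕ) : ℝ)⁻¹) ≤ 1 := by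
          have : (0 : ℝ) ≤ ((2 * m + 1 : ℕ) : ℝ)⁻¹ := by positivity
          linarith
        nlinarith
    rw [e1]
    have e3 : (1 - ((2 * m + 1 : ℕ) : ℝ)⁻¹) = 2 * m / (2 * m + 1) := by
      push_cast
      field_simp
      ring
    rw [e3] at e2
    have e4 : 0 ≤ 2 * (m : ℝ) / (2 * m + 1) * P (2 * m + 1) := by positivity
    have e5 : (2 * (m : ℝ) / (2 * m + 1) * P (2 * m + 1)) ^ 2 ≤ P (2 * m + 1 + 1) ^ 2 :=
      pow_le_pow_left₀ e4 e2 2
    have e6 : P (2 * m + 1) ^ 2 * (4 * (2 * (m : ℝ) - 1)) ≤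
        (2 * (m : ℝ) / (2 * m + 1) * P (2 * m + 1)) ^ 2 * (4 * (2 * ((m + 1 : ℕ) : ℝ) - 1)) := by
      have h1 : (2 * (m : ℝ) / (2 * m + 1) * P (2 * m + 1)) ^ 2 * (4 * (2 * ((m + 1 : ℕ) : ℝ) - 1)) =
          P (2 * m + 1) ^ 2 * (4 * ((2 * m) ^ 2 / (2 * m + 1))) := by
        push_cast
        field_simp
        ring
      rw [h1]
      apply mul_le_mul_of_nonneg_left _ (by positivity)
      apply mul_le_mul_of_nonneg_left _ (by norm_num)
      rw [le_div_iff₀ (by positivity)]
      nlinarith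
    calc (1 : ℝ) ≤ _ := ih
      _ ≤ _ := e6
      _ ≤ _ := by
        apply mul_le_mul_of_nonneg_right e5
        push_cast
        linarith

lemma P_val : 1 / 1200 ≤ P 360001 := by
  have h := P_bound 180000 (by norm_num)
  have hP := P_pos 360001
  have e : (2 * 180000 + 1 : ℕ) = 360001 := by norm_num
  rw [e] at h
  push_cast at h
  by_contra hc
  push Not at hc
  nlinarith

/-! ### Geometric progression free sets, `k = 3` -/

lemma gpf3_iff {T : Set ℕ} :
    GPF 3 T ↔ ∀ a ∈ T, ∀ b ∈ T, ∀ c ∈ T, b ^ 2 = a * c → a = b := by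
  constructor
  · intro h a ha b hb c hc heq
    have := h (fun i => if i = 0 then a else if i = 1 then b else c) (fun i hi => by
        split_ifs
        · exact ha
        · exact hb
        · exact hc) (fun i hi => by
        have : i = 0 := by omega
        subst this
        simpa using heq)
    simpa using this
  · intro h f hf hr
    exact h _ (hf 0 (by norm_num)) _ (hf 1 (by norm_num)) _ (hf 2 (by norm_num))
      (by simpa using hr 0 (by norm_num))

lemma cnt_le_card {T : Set ℕ} {k : ℕ} {S : Finset ℕ} (h : ∀ n ∈ T, 1 ≤ n → n ≤ k → n ∈ S) :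
    cnt T k ≤ S.card := by
  unfold cnt
  rw [← Set.ncard_coe_finset]
  apply Set.ncard_le_ncard _ (Finset.finite_toSet S)
  rintro n ⟨h1, h2, h3⟩
  exact h n h1 h2 h3

lemma sub_of_cnt {T : Set ℕ} {k : ℕ} {S : Finset ℕ} (h : ∀ n ∈ T, 1 ≤ n → n ≤ k → n ∈ S)
    (hc : S.card ≤ cnt T k) : ∀ n ∈ S, n ∈ T := by
  intro n hn
  have h1 : T ∩ Set.Icc 1 k ⊆ (S : Set ℕ) := by
    rintro m ⟨h1, h2, h3⟩
    exact h m h1 h2 h3
  have h2 : T ∩ Set.Icc 1 k = (S : Set ℕ) := by
    apply Set.eq_of_subset_of_ncard_le h1 _ (Finset.finite_toSet S)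
    rw [Set.ncard_coe_finset]
    exact hc
  have h3 : n ∈ T ∩ Set.Icc 1 k := by rw [h2]; exact hn
  exact h3.1

/-- No geometric progression free set has the maximal number of elements in all of `[1,3]`,
`[1,6]` and `[1,12]`. -/
lemma exists_better {T : Set ℕ} (hT : GPF 3 T) : ∃ (k : ℕ) (U : Finset ℕ), 1 ≤ k ∧ k ≤ 12 ∧
    (∀ u ∈ U, 1 ≤ u ∧ u ≤ k) ∧ GPF 3 (U : Set ℕ) ∧ cnt T k + 1 ≤ U.card := by
  have hT' := gpf3_iff.1 hT
  by_cases h3 : cnt T 3 ≤ 2
  · refine ⟨3, {1, 2, 3}, by norm_num, by norm_num, by decide, ?_, ?_⟩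
    · rw [gpf3_iff]
      simp only [Finset.mem_coe]
      decide
    · have : ({1, 2, 3} : Finset ℕ).card = 3 := by decide
      omega
  have m3 : ∀ n ∈ ({1, 2, 3} : Finset ℕ), n ∈ T := by
    apply sub_of_cnt (k := 3)
    · intro n _ h1 h2
      interval_cases n <;> decide
    · have : ({1, 2, 3} : Finset ℕ).card = 3 := by decide
      omega
  have t1 : 1 ∈ T := m3 1 (by decide)
  have t2 : 2 ∈ T := m3 2 (by decide)
  have t3 : 3 ∈ T := m3 3 (by decide)
  have t4 : 4 ∉ T := fun h => by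
    have := hT' 1 t1 2 t2 4 h (by norm_num)
    omega
  by_cases h6 : cnt T 6 ≤ 4
  · refine ⟨6, {1, 2, 3, 5, 6}, by norm_num, by norm_num, by decide, ?_, ?_⟩
    · rw [gpf3_iff]
      simp only [Finset.mem_coe]
      decide
    · have : ({1, 2, 3, 5, 6} : Finset ℕ).card = 5 := by decide
      omega
  have m6 : ∀ n ∈ ({1, 2, 3, 5, 6} : Finset ℕ), n ∈ T := by
    apply sub_of_cnt (k := 6)
    · intro n hn h1 h2
      interval_cases n
      · decide
      · decide
      · decide
      · exact absurd hn t4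
      · decide
      · decide
    · have : ({1, 2, 3, 5, 6} : Finset ℕ).card = 5 := by decide
      omega
  have t6 : 6 ∈ T := m6 6 (by decide)
  have t9 : 9 ∉ T := fun h => by
    have := hT' 1 t1 3 t3 9 h (by norm_num)
    omega
  have t12 : 12 ∉ T := fun h => by
    have := hT' 3 t3 6 t6 12 h (by norm_num)
    omega
  refine ⟨12, {1, 2, 5, 6, 7, 8, 9, 10, 11, 12}, by norm_num, by norm_num, by decide, ?_, ?_⟩
  · rw [gpf3_iff]
    simp only [Finset.mem_coe]
    decide +kernel
  · have h1 : cnt T 12 ≤ ({1, 2, 3, 5, 6, 7, 8, 10, 11} : Finset ℕ).card := by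
      apply cnt_le_card
      intro n hn h1 h2
      interval_cases n
      · decide
      · decide
      · decide
      · exact absurd hn t4
      · decide
      · decide
      · decide
      · decide
      · exact absurd hn t9
      · decide
      · decide
      · exact absurd hn t12
    have h2 : ({1, 2, 3, 5, 6, 7, 8, 10, 11} : Finset ℕ).card = 9 := by decide
    have h3 : ({1, 2, 5, 6, 7, 8, 9, 10, 11, 12} : Finset ℕ).card = 10 := by decide
    omega

/-! ### The modified sets -/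

/-- numbers `n` whose rough part `r` is square-free and whose smooth part lies in `U` if
`⌊N/r⌋ = k`, and in `T` otherwise -/
def Mod (K : ℕ) (T U : Set ℕ) (k N : ℕ) : Set ℕ :=
  {n | 1 ≤ n ∧ rg K n ∈ Fr 3 K ∧ ((N / rg K n = k → sm K n ∈ U) ∧
    (N / rg K n ≠ k → sm K n ∈ T))}

lemma mod_gpf {K : ℕ} {T U : Set ℕ} (hT : GPF 3 T) (hU : GPF 3 U) (k N : ℕ) :
    GPF 3 (Mod K T U k N) := by
  intro f hf hr
  have hpos : ∀ i < 3, 1 ≤ f i := fun i hi => (hf i hi).1
  have hc := rg_const (K := K) (le_refl 3) hpos hr (fun i hi p hp => by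
    have h1 := (hf i hi).2.1.2 p
    rwa [fac_rg K p (by have := (hf i hi).1; omega), if_neg (by omega)] at h1)
  have hrel : ∀ i, i + 2 < 3 → (fun i => sm K (f i)) (i + 1) ^ 2 =
      (fun i => sm K (f i)) i * (fun i => sm K (f i)) (i + 2) := fun i hi =>
    sm_rel (hpos i (by omega)) (hpos (i + 1) (by omega)) (hpos (i + 2) hi) (hr i hi)
  have h1 : sm K (f 0) = sm K (f 1) := by
    by_cases hk : N / rg K (f 0) = k
    · exact hU (fun i => sm K (f i)) (fun i hi => (hf i hi).2.2.1 (by rw [hc i hi]; exact hk)) hrel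
    · exact hT (fun i => sm K (f i)) (fun i hi => (hf i hi).2.2.2 (by rw [hc i hi]; exact hk)) hrel
  have e0 := sm_mul_rg K (n := f 0) (by have := hpos 0 (by omega); omega)
  have e1 := sm_mul_rg K (n := f 1) (by have := hpos 1 (by omega); omega)
  rw [← e0, ← e1, h1, hc 1 (by omega)]

end Pool.Agent.V11319.GPU
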