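import Pool.Agent.V11319.GPUpperA

set_option autoImplicit false

open Filter Topology

namespace Pool.Agent.V11319.GPU

open Pool.Agent.H413R3 Pool.Agent.H413R3.KG
open GP (cnt cnt_mono cnt_eq_sum dens_scale)

/-- the rough parts `r` with `⌊N/r⌋ = k` -/
def Bk (K k N : ℕ) : Set ℕ := {r | r ∈ Fr 3 K ∧ N / r = k}

lemma bk_finite (K : ℕ) {k : ℕ} (hk : 1 ≤ k) (N : ℕ) : (Bk K k N).Finite := by
  apply (Set.finite_Icc 1 N).subset
  rintro r ⟨h1, h2⟩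
  refine ⟨h1.1.1, ?_⟩
  by_contra h
  push Not at h
  rw [Nat.div_eq_of_lt h] at h2
  omega

lemma bk_card (K : ℕ) {k : ℕ} (hk : 1 ≤ k) (N : ℕ) :
    cnt (Fr 3 K) (N / k) ≤ cnt (Fr 3 K) (N / (k + 1)) + (Bk K k N).ncard := by
  unfold GP.cnt
  have hsub : Fr 3 K ∩ Set.Icc 1 (N / k) ⊆ (Fr 3 K ∩ Set.Icc 1 (N / (k + 1))) ∪ Bk K k N := by
    rintro r ⟨h1, h2, h3⟩
    by_cases h4 : r ≤ N / (k + 1)
    · exact Or.inl ⟨h1, h2, h4⟩
    · right
      refine ⟨h1, ?_⟩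
      rw [Nat.le_div_iff_mul_le hk] at h3
      rw [Nat.le_div_iff_mul_le (by omega)] at h4
      push Not at h4
      rw [Nat.div_eq_iff (by omega)]
      constructor
      · nlinarith
      · have : r * (k + 1) = k * r + r := by ring
        omega
  refine (Set.ncard_le_ncard hsub (((Set.finite_Icc 1 _).inter_of_right _).union
    (bk_finite K hk N))).trans (Set.ncard_union_le _ _)

lemma mod_card {K : ℕ} {T U : Set ℕ} (hT : T ⊆ Nat.smoothNumbers K) {k : ℕ} (hk : 1 ≤ k)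
    {Uf : Finset ℕ} (hUf : (Uf : Set ℕ) = U) (hU : ∀ u ∈ Uf, 1 ≤ u ∧ u ≤ k)
    (hUs : U ⊆ Nat.smoothNumbers K) (hc : cnt T k + 1 ≤ Uf.card) (N : ℕ) :
    cnt (D K T (Fr 3 K)) N + (Bk K k N).ncard ≤ (Mod K T U k N ∩ Set.Icc 1 N).ncard := by
  classical
  -- the part away from the fibre `⌊N/r⌋ = k`
  set X : Set ℕ := {n | n ∈ D K T (Fr 3 K) ∧ n ≤ N ∧ N / rg K n ≠ k} with hX
  set Y : Set ℕ := {n | n ∈ D K T (Fr 3 K) ∧ n ≤ N ∧ N / rg K n = k} with hY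
  set Z : Set ℕ := (fun p : ℕ × ℕ => p.2 * p.1) '' (Bk K k N ×ˢ U) with hZ
  have hBf := bk_finite K hk N
  have hUfin : U.Finite := by rw [← hUf]; exact Finset.finite_toSet _
  have hXf : X.Finite := (Set.finite_Icc 1 N).subset fun n h => ⟨h.1.1, h.2.1⟩
  have hYf : Y.Finite := (Set.finite_Icc 1 N).subset fun n h => ⟨h.1.1, h.2.1⟩
  have hZf : Z.Finite := (hBf.prod hUfin).image _
  -- count of `Y`
  have hYc : Y.ncard ≤ (Bk K k N).ncard * cnt T k := by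
    have h1 : Y ⊆ (fun p : ℕ × ℕ => p.2 * p.1) '' (Bk K k N ×ˢ (T ∩ Set.Icc 1 k)) := by
      rintro n ⟨⟨h1, h2, h3⟩, h4, h5⟩
      have hn : n ≠ 0 := by omega
      refine ⟨(rg K n, sm K n), ⟨⟨h3, h5⟩, h2, sm_pos K n, ?_⟩, sm_mul_rg K hn⟩
      rw [← h5, Nat.le_div_iff_mul_le (rg_pos K hn), sm_mul_rg K hn]
      exact h4
    have hfin : (Bk K k N ×ˢ (T ∩ Set.Icc 1 k)).Finite :=
      hBf.prod ((Set.finite_Icc 1 k).inter_of_right _)
    refine (Set.ncard_le_ncard h1 (hfin.image _)).trans ((Set.ncard_image_le hfin).trans ?_)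
    rw [Set.ncard_prod]
    exact le_rfl
  -- count of `Z`
  have hZc : Z.ncard = (Bk K k N).ncard * Uf.card := by
    rw [hZ, Set.InjOn.ncard_image, Set.ncard_prod, ← hUf, Set.ncard_coe_finset]
    rintro ⟨r, u⟩ ⟨h1, h2⟩ ⟨r', u'⟩ ⟨h3, h4⟩ heq
    simp only at h1 h2 h3 h4 heq
    have e1 := sm_mul (hUs h2) (fr_sub 3 K h1.1)
    have e2 := sm_mul (hUs h4) (fr_sub 3 K h3.1)
    have e3 := rg_mul (hUs h2) (fr_sub 3 K h1.1)
    have e4 := rg_mul (hUs h4) (fr_sub 3 K h3.1)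
    rw [heq] at e1 e3
    rw [Prod.mk.injEq]
    exact ⟨e3.symm.trans e4, e1.symm.trans e2⟩
  have hdisj : Disjoint X Z := by
    rw [Set.disjoint_left]
    rintro n ⟨_, _, h1⟩ ⟨⟨r, u⟩, ⟨h2, h3⟩, rfl⟩
    simp only at h1 h2 h3
    rw [rg_mul (hUs h3) (fr_sub 3 K h2.1)] at h1
    exact h1 h2.2
  have hsub : X ∪ Z ⊆ Mod K T U k N ∩ Set.Icc 1 N := by
    rintro n (⟨⟨h1, h2, h3⟩, h4, h5⟩ | ⟨⟨r, u⟩, ⟨h2, h3⟩, rfl⟩)
    · exact ⟨⟨h1, h3, fun h => absurd h h5, fun _ => h2⟩, h1, h4⟩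
    · simp only at h2 h3 ⊢
      have hu : u ∈ Uf := by rw [← Finset.mem_coe, hUf]; exact h3
      have hu2 := hU u hu
      have hr : 1 ≤ r := h2.1.1.1
      have hpos : 1 ≤ u * r := Nat.mul_pos hu2.1 hr
      have e1 := sm_mul (hUs h3) (fr_sub 3 K h2.1)
      have e2 := rg_mul (hUs h3) (fr_sub 3 K h2.1)
      refine ⟨⟨hpos, by rw [e2]; exact h2.1, fun _ => by rw [e1]; exact h3, fun h => ?_⟩, hpos, ?_⟩
      · rw [e2] at h
        exact absurd h2.2 h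
      · have h6 : u ≤ N / r := by rw [h2.2]; exact hu2.2
        rwa [Nat.le_div_iff_mul_le (by omega)] at h6
  have h1 : cnt (D K T (Fr 3 K)) N ≤ X.ncard + Y.ncard := by
    unfold GP.cnt
    refine (Set.ncard_le_ncard ?_ (hXf.union hYf)).trans (Set.ncard_union_le _ _)
    rintro n ⟨h1, h2, h3⟩
    by_cases h4 : N / rg K n = k
    · exact Or.inr ⟨h1, h3, h4⟩
    · exact Or.inl ⟨h1, h3, h4⟩
  have h2 : X.ncard + Z.ncard ≤ (Mod K T U k N ∩ Set.Icc 1 N).ncard := by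
    rw [← Set.ncard_union_eq hdisj hXf hZf]
    exact Set.ncard_le_ncard hsub ((Set.finite_Icc 1 N).inter_of_right _)
  rw [hZc] at h2
  have h3 : (Bk K k N).ncard * (cnt T k + 1) ≤ (Bk K k N).ncard * Uf.card :=
    Nat.mul_le_mul_left _ hc
  rw [Nat.mul_add, Nat.mul_one] at h3
  omega

/-- For every geometric progression free set `T` of `K`-smooth numbers there are geometric
progression free subsets of `[1, N]` of size almost `γ (W T + 1 / 156) N`. -/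
lemma exists_large {K : ℕ} (hK : 13 ≤ K) {T : Set ℕ} (hT : T ⊆ Nat.smoothNumbers K)
    (hg : GPF 3 T) {γ : ℝ} (hγ : Dens (Fr 3 K) γ) {ε : ℝ} (hε : 0 < ε) :
    ∃ N₀ : ℕ, ∀ N ≥ N₀, ∃ F : Set ℕ, F ⊆ Set.Icc 1 N ∧ GPF 3 F ∧
      (γ * (W T + 1 / 156) - ε) * N ≤ F.ncard := by
  obtain ⟨k, Uf, hk1, hk2, hU, hUg, hc⟩ := exists_better hg
  have hγ0 : 0 ≤ γ := dens_nonneg hγ
  have hUs : (Uf : Set ℕ) ⊆ Nat.smoothNumbers K := by
    intro u hu
    have h1 := hU u (Finset.mem_coe.1 hu)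
    rw [mem_smooth_iff]
    refine ⟨by omega, fun p hp => ?_⟩
    by_contra hne
    have := Nat.le_of_dvd (by omega) (Nat.dvd_of_factorization_pos hne)
    omega
  have hkR : (0 : ℝ) < k := by exact_mod_cast hk1
  have hlim : Tendsto (fun N : ℕ => (cnt (D K T (Fr 3 K)) N : ℝ) / N +
      ((cnt (Fr 3 K) (N / k) : ℝ) / N - (cnt (Fr 3 K) (N / (k + 1)) : ℝ) / N)) atTop
      (𝓝 (γ * W T + (γ * (1 / (k : ℝ)) - γ * (1 / ((k + 1 : ℕ) : ℝ))))) :=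
    (dens_D hT (fr_sub 3 K) hγ).add ((dens_scale hγ k hk1).sub (dens_scale hγ (k + 1) (by omega)))
  have hval : γ * (W T + 1 / 156) ≤
      γ * W T + (γ * (1 / (k : ℝ)) - γ * (1 / ((k + 1 : ℕ) : ℝ))) := by
    rw [mul_add, ← mul_sub]
    have : (1 : ℝ) / 156 ≤ 1 / (k : ℝ) - 1 / ((k + 1 : ℕ) : ℝ) := by
      push_cast
      rw [div_sub_div _ _ hkR.ne' (by positivity), div_le_div_iff₀ (by norm_num) (by positivity)]
      have : (k : ℝ) ≤ 12 := by exact_mod_cast hk2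
      nlinarith
    have := mul_le_mul_of_nonneg_left this hγ0
    linarith
  have hev := hlim.eventually (lt_mem_nhds (show γ * (W T + 1 / 156) - ε <
    γ * W T + (γ * (1 / (k : ℝ)) - γ * (1 / ((k + 1 : ℕ) : ℝ))) by linarith))
  obtain ⟨N₀, hN₀⟩ := eventually_atTop.1 hev
  refine ⟨max N₀ 1, fun N hN => ⟨Mod K T Uf k N ∩ Set.Icc 1 N, Set.inter_subset_right,
    gpf_mono Set.inter_subset_left (mod_gpf hg hUg k N), ?_⟩⟩
  have h1 := hN₀ N (le_of_max_le_left hN)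
  have hNR : (0 : ℝ) < N := by exact_mod_cast (le_of_max_le_right hN)
  have h2 := mod_card hT hk1 rfl hU hUs hc N
  have h3 := bk_card K hk1 N
  have h4 : cnt (D K T (Fr 3 K)) N + cnt (Fr 3 K) (N / k) ≤
      (Mod K T Uf k N ∩ Set.Icc 1 N).ncard + cnt (Fr 3 K) (N / (k + 1)) := by omega
  have h5 : (cnt (D K T (Fr 3 K)) N : ℝ) + cnt (Fr 3 K) (N / k) ≤
      ((Mod K T Uf k N ∩ Set.Icc 1 N).ncard : ℝ) + cnt (Fr 3 K) (N / (k + 1)) := by
    exact_mod_cast h4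
  rw [← sub_div, ← add_div, lt_div_iff₀ hNR] at h1
  linarith

end Pool.Agent.V11319.GPU
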