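import Pool.Agent.TH12.Hopf.Final

set_option autoImplicit false

/-! Weighted sum norms on free algebras, and the bound on the coefficients of normal forms. -/

namespace Pool.Agent.V11319

open Pool.Agent.TH12.Hopf MonoidAlgebra

section norm

variable {L : Type} (W : L → ℝ)

/-- The weight of a word. -/
noncomputable def ww (m : List L) : ℝ := (m.map W).prod

lemma ww_nil : ww W [] = 1 := rfl

lemma ww_append (u v : List L) : ww W (u ++ v) = ww W u * ww W v := by
  simp [ww]

/-- The weighted sum norm. -/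
noncomputable def nrm (f : FA ℂ L) : ℝ :=
  f.coeff.sum (fun m c => ‖c‖ * ww W (FreeMonoid.toList m))

lemma one_le_ww (hW1 : ∀ l, 1 ≤ W l) (m : List L) : 1 ≤ ww W m := by
  induction m with
  | nil => simp [ww]
  | cons a m ih =>
    simp only [ww, List.map_cons, List.prod_cons] at ih ⊢
    nlinarith [hW1 a]

variable (hW : ∀ l, 0 ≤ W l)

include hW in
lemma ww_nonneg (m : List L) : 0 ≤ ww W m := by
  induction m with
  | nil => simp [ww]
  | cons a m ih =>
    simp only [ww, List.map_cons, List.prod_cons] at ih ⊢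
    exact mul_nonneg (hW a) ih

include hW in
lemma nrm_nonneg (f : FA ℂ L) : 0 ≤ nrm W f :=
  Finset.sum_nonneg fun m _ => mul_nonneg (norm_nonneg _) (ww_nonneg W hW _)

lemma nrm_zero : nrm W 0 = 0 := by
  simp [nrm]

include hW in
lemma nrm_add (f g : FA ℂ L) : nrm W (f + g) ≤ nrm W f + nrm W g := by
  classical
  have h1 : ∀ h : FA ℂ L, h.coeff.support ⊆ f.coeff.support ∪ g.coeff.support →
      nrm W h = ∑ m ∈ f.coeff.support ∪ g.coeff.support, ‖h.coeff m‖ * ww W (FreeMonoid.toList m) := by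
    intro h hh
    exact Finsupp.sum_of_support_subset _ hh _ (by simp)
  rw [h1 (f + g) (by rw [MonoidAlgebra.coeff_add]; exact Finsupp.support_add),
    h1 f Finset.subset_union_left, h1 g Finset.subset_union_right, ← Finset.sum_add_distrib]
  refine Finset.sum_le_sum fun m _ => ?_
  rw [← add_mul, MonoidAlgebra.coeff_add, Finsupp.add_apply]
  exact mul_le_mul_of_nonneg_right (norm_add_le _ _) (ww_nonneg W hW _)

lemma nrm_smul_le (c : ℂ) (f : FA ℂ L) : nrm W (c • f) = ‖c‖ * nrm W f := by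
  classical
  have h1 : nrm W (c • f) = ∑ m ∈ f.coeff.support, ‖(c • f).coeff m‖ *
      ww W (FreeMonoid.toList m) := by
    refine Finsupp.sum_of_support_subset _ ?_ _ (by simp)
    rw [MonoidAlgebra.coeff_smul]
    exact Finsupp.support_smul
  rw [h1, nrm, Finsupp.sum, Finset.mul_sum]
  refine Finset.sum_congr rfl fun m _ => ?_
  rw [MonoidAlgebra.coeff_smul, Finsupp.smul_apply, norm_smul, mul_assoc]

lemma nrm_neg (f : FA ℂ L) : nrm W (-f) = nrm W f := by
  rw [← neg_one_smul ℂ f, nrm_smul_le]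
  simp

lemma nrm_wd (w : List L) : nrm W (wd w) = ww W w := by
  rw [nrm, wd, MonoidAlgebra.coeff_single, Finsupp.sum_single_index (by simp)]
  simp

include hW in
lemma nrm_sum {ι : Type} (s : Finset ι) (f : ι → FA ℂ L) :
    nrm W (∑ i ∈ s, f i) ≤ ∑ i ∈ s, nrm W (f i) := by
  classical
  induction s using Finset.induction_on with
  | empty => simp [nrm_zero]
  | insert a s ha ih =>
    rw [Finset.sum_insert ha, Finset.sum_insert ha]
    exact (nrm_add W hW _ _).trans (add_le_add le_rfl ih)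

lemma eq_sum (f : FA ℂ L) :
    f = ∑ m ∈ f.coeff.support, f.coeff m • (wd (FreeMonoid.toList m) : FA ℂ L) := by
  have h := MonoidAlgebra.sum_coeff_single f
  rw [Finsupp.sum] at h
  conv_lhs => rw [← h]
  refine Finset.sum_congr rfl fun m _ => ?_
  rw [wd, MonoidAlgebra.smul_single]
  simp

lemma nrm_eq (f : FA ℂ L) :
    nrm W f = ∑ m ∈ f.coeff.support, ‖f.coeff m‖ * nrm W (wd (FreeMonoid.toList m)) := by
  rw [nrm, Finsupp.sum]
  refine Finset.sum_congr rfl fun m _ => ?_
  rw [nrm_wd]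

include hW in
lemma nrm_wd_mul (u : List L) (g : FA ℂ L) : nrm W (wd u * g) ≤ ww W u * nrm W g := by
  conv_lhs => rw [eq_sum g, Finset.mul_sum]
  refine (nrm_sum W hW _ _).trans ?_
  rw [nrm_eq W g, Finset.mul_sum]
  refine Finset.sum_le_sum fun m _ => ?_
  rw [mul_smul_comm, nrm_smul_le, wd_mul, nrm_wd, nrm_wd, ww_append]
  exact le_of_eq (by ring)

include hW in
lemma nrm_mul_wd (u : List L) (g : FA ℂ L) : nrm W (g * wd u) ≤ nrm W g * ww W u := by
  conv_lhs => rw [eq_sum g, Finset.sum_mul]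
  refine (nrm_sum W hW _ _).trans ?_
  rw [nrm_eq W g, Finset.sum_mul]
  refine Finset.sum_le_sum fun m _ => ?_
  rw [smul_mul_assoc, nrm_smul_le, wd_mul, nrm_wd, nrm_wd, ww_append]
  exact le_of_eq (by ring)

include hW in
lemma nrm_mul (f g : FA ℂ L) : nrm W (f * g) ≤ nrm W f * nrm W g := by
  conv_lhs => rw [eq_sum f, Finset.sum_mul]
  refine (nrm_sum W hW _ _).trans ?_
  rw [nrm_eq W f, Finset.sum_mul]
  refine Finset.sum_le_sum fun m _ => ?_
  rw [smul_mul_assoc, nrm_smul_le, mul_assoc, nrm_wd]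
  exact mul_le_mul_of_nonneg_left (nrm_wd_mul W hW _ _) (norm_nonneg _)

/-- A functional bounded on the words of the support is bounded. -/
lemma functional_le (φ : FA ℂ L →ₗ[ℂ] ℂ) (f : FA ℂ L)
    (h : ∀ m, f.coeff m ≠ 0 → ‖φ (wd (FreeMonoid.toList m))‖ ≤ ww W (FreeMonoid.toList m)) :
    ‖φ f‖ ≤ nrm W f := by
  conv_lhs => rw [eq_sum f, map_sum]
  refine (norm_sum_le _ _).trans ?_
  rw [nrm, Finsupp.sum]
  refine Finset.sum_le_sum fun m hm => ?_
  rw [map_smul, norm_smul]
  exact mul_le_mul_of_nonneg_left (h m (Finsupp.mem_support_iff.mp hm)) (norm_nonneg _)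

end norm

section rs

variable {L : Type} (W : L → ℝ) (hW1 : ∀ l, 1 ≤ W l) (S : RS ℂ L)

/-- The coefficient functional of the normal form. -/
noncomputable def phi (w0 : List L) : FA ℂ L →ₗ[ℂ] ℂ :=
  (Finsupp.lapply (FreeMonoid.ofList w0)) ∘ₗ (MonoidAlgebra.coeffLinearEquiv ℂ).toLinearMap ∘ₗ S.Nh

lemma phi_apply (w0 : List L) (f : FA ℂ L) :
    phi S w0 f = (S.Nh f).coeff (FreeMonoid.ofList w0) := rfl

include hW1 in
theorem phi_wd_le (hr : ∀ r, nrm W (wd [S.x r, S.y r] - S.rel r) ≤ W (S.x r) * W (S.y r))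
    (w0 w : List L) : ‖phi S w0 (wd w)‖ ≤ ww W w := by
  classical
  have hW : ∀ l, 0 ≤ W l := fun l => zero_le_one.trans (hW1 l)
  induction w using (lt_wf S.wt).induction with
  | _ w ih =>
    by_cases hocc : ∃ t, S.Occ w t
    · obtain ⟨t, ht, hN⟩ := S.N_red hocc
      have e1 : phi S w0 (wd w) =
          phi S w0 (wd t.1 * (wd [S.x t.2.1, S.y t.2.1] - S.rel t.2.1) * wd t.2.2) := by
        rw [phi_apply, phi_apply, S.Nh_wd, hN]
      have hlo : (wd t.1 * (wd [S.x t.2.1, S.y t.2.1] - S.rel t.2.1) * wd t.2.2 : FA ℂ L) ∈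
          Lo S.wt w := by
        have h1 := S.hrel t.2.1
        have hs : w = t.1 ++ [S.x t.2.1, S.y t.2.1] ++ t.2.2 := ht
        rw [hs]
        generalize (wd [S.x t.2.1, S.y t.2.1] - S.rel t.2.1 : FA ℂ L) = f at h1
        induction h1 using Submodule.span_induction with
        | mem x hx =>
          obtain ⟨w', h, rfl⟩ := hx
          rw [wd_mul, wd_mul]
          exact wd_mem_Lo (lt_ctx _ _ h)
        | zero => simp
        | add a b _ _ ha hb => rw [mul_add, add_mul]; exact Submodule.add_mem _ ha hb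
        | smul c a _ ha => rw [mul_smul_comm, smul_mul_assoc]; exact Submodule.smul_mem _ _ ha
      rw [e1]
      refine (functional_le W (phi S w0) _ fun m hm => ih _ (Lo_supp hlo m hm)).trans ?_
      refine (nrm_mul_wd W hW _ _).trans ?_
      refine (mul_le_mul_of_nonneg_right (nrm_wd_mul W hW _ _) (ww_nonneg W hW _)).trans ?_
      have hs : w = t.1 ++ [S.x t.2.1, S.y t.2.1] ++ t.2.2 := ht
      rw [hs, ww_append, ww_append]
      refine mul_le_mul_of_nonneg_right (mul_le_mul_of_nonneg_left ?_ (ww_nonneg W hW _))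
        (ww_nonneg W hW _)
      refine (hr _).trans (le_of_eq ?_)
      simp [ww]
    · rw [phi_apply, S.Nh_wd, S.N_irr hocc, wd, MonoidAlgebra.coeff_single, Finsupp.single_apply]
      split_ifs
      · rw [norm_one]; exact one_le_ww W hW1 w
      · rw [norm_zero]; exact ww_nonneg W hW w

include hW1 in
theorem phi_le (hr : ∀ r, nrm W (wd [S.x r, S.y r] - S.rel r) ≤ W (S.x r) * W (S.y r))
    (w0 : List L) (f : FA ℂ L) : ‖phi S w0 f‖ ≤ nrm W f :=
  functional_le W (phi S w0) f fun _ _ => phi_wd_le W hW1 S hr w0 _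

end rs

end Pool.Agent.V11319
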