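import Pool.Agent.V11319.OpenQuot
import Pool.Agent.V11319.EnvHom
import Pool.Agent.V11319.WNorm

set_option autoImplicit false

/-! The algebra of free entire functions and holomorphically finitely generated algebras. -/

namespace Pool.Agent.V11319.Env

open TensorProduct UniformSpace Topology Filter Pool.Agent.TH12.Hopf

/-- The free algebra on `n` generators, with basis the words in `Fin n`. -/
abbrev FreeAlg (n : ℕ) : Type := MonoidAlgebra ℂ (FreeMonoid (Fin n))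

/-- The norm of `∑ c_α ζ_α`: the sum of the `‖c_α‖ ρ ^ |α|`. -/
noncomputable def rhoNorm (n : ℕ) (ρ : ℝ) (f : FreeAlg n) : ℝ :=
  f.coeff.sum (fun α c => ‖c‖ * ρ ^ (FreeMonoid.toList α).length)

lemma rhoNorm_eq (n : ℕ) (ρ : ℝ) : rhoNorm n ρ = nrm (fun _ => ρ) := by
  funext f
  simp only [rhoNorm, nrm, ww, List.map_const', List.prod_replicate]

/-- The norms `rhoNorm n ρ`, `ρ > 0`, as submultiplicative seminorms. -/
noncomputable def rhoS (n : ℕ) (ρ : {ρ : ℝ // 0 < ρ}) : SubmulSeminorm (FreeAlg n) :=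
  ⟨Seminorm.ofSMulLE (rhoNorm n ρ.1) (by rw [rhoNorm_eq]; exact nrm_zero _)
    (fun f g => by rw [rhoNorm_eq]; exact nrm_add _ (fun _ => ρ.2.le) f g)
    (fun c f => by rw [rhoNorm_eq]; exact (nrm_smul_le _ c f).le),
    fun f g => by
      change rhoNorm n ρ.1 (f * g) ≤ rhoNorm n ρ.1 f * rhoNorm n ρ.1 g
      rw [rhoNorm_eq]; exact nrm_mul _ (fun _ => ρ.2.le) f g⟩

lemma rhoS_apply (n : ℕ) (ρ : {ρ : ℝ // 0 < ρ}) (f : FreeAlg n) :
    (rhoS n ρ).1 f = nrm (fun _ => ρ.1) f := congrFun (rhoNorm_eq n ρ.1) f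

/-- The algebra of free entire functions in `n` generators: the completion of the free algebra
for the norms `rhoNorm n ρ`, `ρ > 0`. -/
abbrev Fn (n : ℕ) : Type := Cpl (rhoS n)

/-- The algebra `A` is holomorphically finitely generated: it is topologically isomorphic to the
quotient of some `Fn n` by a closed two-sided ideal `I` (that is, there is an algebra isomorphism
`e : Fn n ⧸ I ≃ A` whose composition with the quotient map is open, continuous and surjective). -/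
def IsHFG (A : Type) [Ring A] [Algebra ℂ A] [TopologicalSpace A] : Prop :=
  ∃ (n : ℕ) (I : Ideal (Fn n)) (_ : I.IsTwoSided), IsClosed (I : Set (Fn n)) ∧
    ∃ e : (Fn n ⧸ I) ≃ₐ[ℂ] A, IsOpenQuotientMap (fun x => e (Ideal.Quotient.mk I x))

lemma nrm_mono {n : ℕ} {r s : ℝ} (hr : 0 ≤ r) (hrs : r ≤ s) (f : FreeAlg n) :
    nrm (fun _ => r) f ≤ nrm (fun _ => s) f := by
  rw [← rhoNorm_eq, ← rhoNorm_eq, rhoNorm, rhoNorm]
  refine Finset.sum_le_sum fun m _ => ?_
  exact mul_le_mul_of_nonneg_left (pow_le_pow_left₀ hr hrs _) (norm_nonneg _)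

/-- The radius `N + 1`. -/
def natR (N : ℕ) : {ρ : ℝ // 0 < ρ} := ⟨(N : ℝ) + 1, by positivity⟩

lemma mem_nhds_Fn {n : ℕ} {U : Set (FTop (rhoS n))} (hU : U ∈ 𝓝 (0 : FTop (rhoS n))) :
    ∃ (N : ℕ) (ε : ℝ), 0 < ε ∧ ∀ x : FreeAlg n, nrm (fun _ => (N : ℝ) + 1) x < ε →
      (show FTop (rhoS n) from x) ∈ U := by
  obtain ⟨s, r, hr, h⟩ := ((withSeminorms (rhoS n)).mem_nhds_iff 0 U).1 hU
  obtain ⟨N, hN⟩ : ∃ N : ℕ, ∀ ρ ∈ s, ρ.1 ≤ (N : ℝ) + 1 := by
    obtain ⟨N, hN⟩ := exists_nat_ge (∑ ρ ∈ s, ρ.1)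
    refine ⟨N, fun ρ hρ => ?_⟩
    have := Finset.single_le_sum (f := fun ρ : {ρ : ℝ // 0 < ρ} => ρ.1)
      (fun i _ => i.2.le) hρ
    linarith
  refine ⟨N, r, hr, fun x hx => h ?_⟩
  rw [Seminorm.mem_ball, sub_zero]
  refine Seminorm.finset_sup_apply_lt hr fun ρ hρ => ?_
  refine lt_of_le_of_lt ?_ hx
  exact (rhoS_apply n ρ x).le.trans (nrm_mono ρ.2.le (hN ρ hρ) x)

lemma nhds_Fn {n : ℕ} (N : ℕ) {ε : ℝ} (hε : 0 < ε) :
    {x : FTop (rhoS n) | nrm (fun _ => (N : ℝ) + 1) (show FreeAlg n from x) < ε} ∈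
      𝓝 (0 : FTop (rhoS n)) := by
  have hc := (withSeminorms (rhoS n)).continuous_seminorm (natR N)
  have h := hc.tendsto 0
  rw [map_zero] at h
  have h1 := h (Iio_mem_nhds hε)
  refine Filter.mem_of_superset h1 fun x hx => ?_
  have h2 : (rhoS n (natR N)).1 (show FreeAlg n from x) < ε := hx
  exact (rhoS_apply n (natR N) (show FreeAlg n from x)).symm.trans_lt h2

instance (n : ℕ) : FirstCountableTopology (Fn n) := by
  have h : (𝓝 (0 : Fn n)).IsCountablyGenerated := by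
    refine Filter.HasBasis.isCountablyGenerated (ι := ℕ × ℕ) (p := fun _ => True)
      (s := fun p => closure (toC' (rhoS n) '' {x : FTop (rhoS n) |
        nrm (fun _ => (p.1 : ℝ) + 1) (show FreeAlg n from x) < 1 / ((p.2 : ℝ) + 1)})) ?_
    constructor
    intro U
    constructor
    · intro hU
      obtain ⟨V, hV, hVU⟩ := exists_closure_subset (rhoS n) hU
      obtain ⟨N, ε, hε, h1⟩ := mem_nhds_Fn hV
      obtain ⟨M, hM⟩ := exists_nat_one_div_lt hε
      refine ⟨(N, M), trivial, (closure_mono (Set.image_mono ?_)).trans hVU⟩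
      intro x hx
      exact h1 x (lt_trans hx hM)
    · rintro ⟨p, -, hp⟩
      exact Filter.mem_of_superset
        (closure_mem_nhds (rhoS n) (nhds_Fn p.1 (by positivity))) hp
  refine ⟨fun x => ?_⟩
  rw [← map_add_left_nhds_zero]
  infer_instance

section main

variable {H : Type} [Ring H] [Algebra ℂ H] {n : ℕ} (π : FreeAlg n →ₐ[ℂ] H)

/-- Every submultiplicative seminorm is dominated by one of the norms. -/
lemma dominated (p : SubmulSeminorm H) : ∃ (N : ℕ) (C : ℝ), 0 < C ∧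
    ∀ f, p.1 (π f) ≤ C * nrm (fun _ => (N : ℝ) + 1) f := by
  obtain ⟨N, hN⟩ := exists_nat_ge (∑ i : Fin n, p.1 (π (wd [i])))
  have h1 : ∀ i : Fin n, p.1 (π (wd [i])) ≤ (N : ℝ) + 1 := by
    intro i
    have := Finset.single_le_sum (f := fun i : Fin n => p.1 (π (wd [i])))
      (fun i _ => apply_nonneg _ _) (Finset.mem_univ i)
    linarith
  refine ⟨N, p.1 1 + 1, by have := apply_nonneg p.1 (1 : H); linarith, fun f => ?_⟩
  have h2 : ∀ w : List (Fin n), p.1 (π (wd w)) ≤ (p.1 1 + 1) * ((N : ℝ) + 1) ^ w.length := by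
    intro w
    induction w with
    | nil => rw [wd_nil, map_one]; simp
    | cons i w ih =>
      have e : (wd (i :: w) : FreeAlg n) = wd [i] * wd w := by rw [wd_mul]; rfl
      rw [e, map_mul]
      calc p.1 (π (wd [i]) * π (wd w)) ≤ p.1 (π (wd [i])) * p.1 (π (wd w)) := p.2 _ _
        _ ≤ ((N : ℝ) + 1) * ((p.1 1 + 1) * ((N : ℝ) + 1) ^ w.length) :=
            mul_le_mul (h1 i) ih (apply_nonneg _ _) (by positivity)
        _ = (p.1 1 + 1) * ((N : ℝ) + 1) ^ (i :: w).length := by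
            rw [List.length_cons, pow_succ]; ring
  conv_lhs => rw [eq_sum f, map_sum]
  refine (Finset.le_sum_of_subadditive p.1 (map_zero p.1).le (map_add_le_add p.1) _ _).trans ?_
  rw [← rhoNorm_eq, rhoNorm, Finsupp.sum, Finset.mul_sum]
  refine Finset.sum_le_sum fun m _ => ?_
  rw [map_smul, map_smul_eq_mul]
  calc ‖f.coeff m‖ * p.1 (π (wd (FreeMonoid.toList m)))
      ≤ ‖f.coeff m‖ * ((p.1 1 + 1) * ((N : ℝ) + 1) ^ (FreeMonoid.toList m).length) :=
        mul_le_mul_of_nonneg_left (h2 _) (norm_nonneg _)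
    _ = (p.1 1 + 1) * (‖f.coeff m‖ * ((N : ℝ) + 1) ^ (FreeMonoid.toList m).length) := by ring

lemma continuous_q0 : Continuous (fun f : FTop (rhoS n) => ((toC (allS H)).comp π) f) := by
  refine continuous_of_continuousAt_zero
    (show FTop (rhoS n) →ₗ[ℂ] AM H from ((toC (allS H)).comp π).toLinearMap) ?_
  intro U hU
  rw [map_zero] at hU
  have h1 : toC' (allS H) ⁻¹' U ∈ 𝓝 (0 : FTop (allS H)) := by
    have h0 : toC' (allS H) 0 = 0 := map_zero (toC (allS H))
    exact (isDenseInducing_toC' (allS H)).continuous.continuousAt.preimage_mem_nhds (by rwa [h0])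
  obtain ⟨p, ε, hε, hp⟩ := mem_nhds_AM h1
  obtain ⟨N, C, hC, hNC⟩ := dominated π p
  refine Filter.mem_map.2 (Filter.mem_of_superset (nhds_Fn N (ε := ε / C) (by positivity))
    fun x hx => ?_)
  refine hp (π x) ((hNC x).trans_lt ?_)
  have hx' : nrm (fun _ => (N : ℝ) + 1) (show FreeAlg n from x) < ε / C := hx
  rw [lt_div_iff₀ hC] at hx'
  rw [mul_comm]
  exact hx'

/-- The extension of a presentation. -/
noncomputable def qhat : Fn n →ₐ[ℂ] AM H :=
  extA (rhoS n) ((toC (allS H)).comp π) (continuous_q0 π)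

lemma qhat_toC (f : FreeAlg n) : qhat π (toC _ f) = toC _ (π f) := extA_toC _ _ _ f

lemma continuous_qhat : Continuous (qhat π) := continuous_extA _ _ _

lemma key (hπ : Function.Surjective π) (U : Set (Fn n)) (hU : U ∈ 𝓝 (0 : Fn n)) :
    ∃ V ∈ 𝓝 (0 : AM H), ∀ x, qhat π x ∈ V → ∃ u ∈ U, qhat π u = qhat π x := by
  obtain ⟨U', hU', hUU⟩ := exists_nhds_zero_half hU
  have h1 : toC' (rhoS n) ⁻¹' U' ∈ 𝓝 (0 : FTop (rhoS n)) := by
    have h0 : toC' (rhoS n) 0 = 0 := map_zero (toC (rhoS n))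
    exact (isDenseInducing_toC' (rhoS n)).continuous.continuousAt.preimage_mem_nhds (by rwa [h0])
  obtain ⟨N, ε, hε, hN⟩ := mem_nhds_Fn h1
  have hpos : ∀ _ : Fin n, (0 : ℝ) ≤ (N : ℝ) + 1 := fun _ => by positivity
  obtain ⟨p, hp1, hp2⟩ := exists_infSeminorm (X := FreeAlg n) (E := H) π
    (nrm (fun _ => (N : ℝ) + 1)) hπ (nrm_nonneg _ hpos) ⟨0, map_zero π, nrm_zero _⟩
    (fun x y => ⟨x + y, map_add π x y, nrm_add _ hpos x y⟩)
    (fun s x => ⟨s • x, map_smul π s x, (nrm_smul_le _ s x).le⟩)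
    (fun x y => ⟨x * y, map_mul π x y, nrm_mul _ hpos x y⟩)
  have h2 : {h : FTop (allS H) | p.1 h < ε} ∈ 𝓝 (0 : FTop (allS H)) := nhds_AM p hε
  rw [(isUniformInducing_toC' (allS H)).isInducing.nhds_eq_comap, mem_comap] at h2
  obtain ⟨V, hV, hVp⟩ := h2
  have hV0 : V ∈ 𝓝 (0 : AM H) := by
    have h0 : toC' (allS H) 0 = 0 := map_zero (toC (allS H))
    rwa [h0] at hV
  obtain ⟨V', hV', hVV⟩ := exists_nhds_half_neg hV0
  refine ⟨V', hV', fun x hx => ?_⟩
  have hW : {y : Fn n | y ∈ U' ∧ qhat π y ∈ V'} ∈ 𝓝 (0 : Fn n) :=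
    Filter.inter_mem hU' ((continuous_qhat π).continuousAt.preimage_mem_nhds
      (by rwa [map_zero]))
  have hWx : {z : Fn n | x - z ∈ {y : Fn n | y ∈ U' ∧ qhat π y ∈ V'}} ∈ 𝓝 x := by
    have hc : Continuous (fun z : Fn n => x - z) := continuous_const.sub continuous_id
    exact hc.continuousAt.preimage_mem_nhds (by rwa [sub_self])
  obtain ⟨z, hz1, ⟨f, rfl⟩⟩ := mem_closure_iff_nhds.1 ((denseRange_toC (rhoS n)) x) _ hWx
  have h5 := hVV (qhat π x) hx (qhat π (x - toC (rhoS n) f)) hz1.2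
  rw [map_sub, sub_sub_cancel, qhat_toC] at h5
  have h6 : p.1 (π f) < ε := hVp h5
  obtain ⟨f', hf'1, hf'2⟩ := hp2 _ _ h6
  refine ⟨toC (rhoS n) f' + (x - toC (rhoS n) f), hUU _ (hN f' hf'2) _ hz1.1, ?_⟩
  rw [map_add, map_sub, qhat_toC, qhat_toC, hf'1]
  abel

lemma isOpenQuotientMap_qhat (hπ : Function.Surjective π) : IsOpenQuotientMap (qhat π) := by
  refine isOpenQuotientMap_of_key ((qhat π : Fn n →+* AM H) : Fn n →+ AM H)
    (continuous_qhat π) ?_ (key π hπ)
  refine (denseRange_toC (allS H)).mono ?_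
  rintro _ ⟨h, rfl⟩
  obtain ⟨f, rfl⟩ := hπ h
  exact ⟨toC _ f, qhat_toC π f⟩

end main

lemma exists_presentation (H : Type) [Ring H] [Algebra ℂ H] (hf : Algebra.FiniteType ℂ H) :
    ∃ (n : ℕ) (π : FreeAlg n →ₐ[ℂ] H), Function.Surjective π := by
  obtain ⟨ι, hι, f, hs⟩ := Algebra.FiniteType.iff_quotient_freeAlgebra'.1 hf
  let e := Fintype.equivFin ι
  let π : FreeAlg (Fintype.card ι) →ₐ[ℂ] H := MonoidAlgebra.lift ℂ H (FreeMonoid _)
    (FreeMonoid.lift (fun i => f (FreeAlgebra.ι ℂ (e.symm i))))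
  refine ⟨Fintype.card ι, π, fun h => ?_⟩
  obtain ⟨a, rfl⟩ := hs h
  have h1 : f a ∈ π.range := by
    induction a using FreeAlgebra.induction with
    | grade0 c => rw [AlgHom.commutes]; exact Subalgebra.algebraMap_mem _ c
    | grade1 i =>
      refine ⟨wd [e i], ?_⟩
      change π (wd [e i]) = _
      rw [wd, MonoidAlgebra.lift_single, one_smul]
      change f (FreeAlgebra.ι ℂ (e.symm (e i))) = _
      rw [Equiv.symm_apply_apply]
    | mul a b ha hb => rw [map_mul]; exact Subalgebra.mul_mem _ ha hb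
    | add a b ha hb => rw [map_add]; exact Subalgebra.add_mem _ ha hb
  exact h1

/-- The Arens-Michael envelope of a finitely generated algebra is holomorphically finitely
generated. -/
theorem isHFG_AM (H : Type) [Ring H] [Algebra ℂ H] (hf : Algebra.FiniteType ℂ H) :
    IsHFG (AM H) := by
  obtain ⟨n, π, hπ⟩ := exists_presentation H hf
  have h := isOpenQuotientMap_qhat π hπ
  refine ⟨n, RingHom.ker (qhat π), inferInstance, ?_,
    Ideal.quotientKerAlgEquivOfSurjective h.surjective, ?_⟩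
  · have h1 : ((RingHom.ker (qhat π) : Ideal (Fn n)) : Set (Fn n)) = qhat π ⁻¹' {0} := by
      ext x
      rfl
    rw [h1]
    exact isClosed_singleton.preimage (continuous_qhat π)
  · exact h

end Pool.Agent.V11319.Env
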