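import Pool.Agent.V11319.HopfHat

set_option autoImplicit false

/-! Hopf algebras for the complete projective tensor product (unbundled form). -/

namespace Pool.Agent.V11319.Env

open TensorProduct UniformSpace Topology Filter

section defs

variable {E F G : Type} [AddCommGroup E] [Module ℂ E] [UniformSpace E]
    [AddCommGroup F] [Module ℂ F] [UniformSpace F] [AddCommGroup G] [Module ℂ G] [UniformSpace G]

/-- Continuous linear maps. -/
structure IsContLin (f : E → F) : Prop where
  add : ∀ x y, f (x + y) = f x + f y
  smul : ∀ (c : ℂ) x, f (c • x) = c • f x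
  continuous : Continuous f

/-- Jointly continuous bilinear maps. -/
structure IsContBilin (t : E → F → G) : Prop where
  add_left : ∀ x x' y, t (x + x') y = t x y + t x' y
  smul_left : ∀ (c : ℂ) x y, t (c • x) y = c • t x y
  add_right : ∀ x y y', t x (y + y') = t x y + t x y'
  smul_right : ∀ (c : ℂ) x y, t x (c • y) = c • t x y
  continuous : Continuous (fun p : E × F => t p.1 p.2)

/-- `G` with the bilinear map `t` is the complete projective tensor product of `E` and `F`: `G` is
complete Hausdorff locally convex, `t` is jointly continuous, and every jointly continuous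
bilinear map to a complete Hausdorff locally convex space factors through `t` by a unique
continuous linear map. -/
structure IsTensorHat (t : E → F → G) : Prop where
  completeLC : CompleteLC G
  isContBilin : IsContBilin t
  lift : ∀ (K : Type) [AddCommGroup K] [Module ℂ K] [UniformSpace K] [CompleteLC K]
    (b : E → F → K), IsContBilin b → ∃! g : G → K, IsContLin g ∧ ∀ x y, g (t x y) = b x y

end defs

/-- Continuous unital algebra homomorphisms. -/
structure IsContAlgHom {A B : Type} [Ring A] [Algebra ℂ A] [UniformSpace A] [Ring B]
    [Algebra ℂ B] [UniformSpace B] (f : A → B) : Prop where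
  isContLin : IsContLin f
  map_one : f 1 = 1
  map_mul : ∀ x y, f (x * y) = f x * f y

section hopf

variable (H : Type) [Ring H] [Algebra ℂ H] [UniformSpace H]

/-- The complete projective tensor square of the algebra `H`, with its algebra structure. -/
structure HatSquare where
  X : Type
  [ring : Ring X]
  [algebra : Algebra ℂ X]
  [uniformSpace : UniformSpace X]
  continuousMul : ContinuousMul X
  t : H → H → X
  isTensorHat : IsTensorHat t
  t_mul : ∀ a b c d, t a b * t c d = t (a * c) (b * d)
  t_one : t 1 1 = 1

attribute [instance] HatSquare.ring HatSquare.algebra HatSquare.uniformSpace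

/-- The complete projective tensor cube of `H`: the complete projective tensor product of the
square and `H` by `tl`, and of `H` and the square by `tr`, identified by associativity. -/
structure HatCube (Q : HatSquare H) where
  X : Type
  [group : AddCommGroup X]
  [module : Module ℂ X]
  [uniformSpace : UniformSpace X]
  tl : Q.X → H → X
  tr : H → Q.X → X
  isTensorHat_tl : IsTensorHat tl
  isTensorHat_tr : IsTensorHat tr
  tl_tr : ∀ a b c, tl (Q.t a b) c = tr a (Q.t b c)

attribute [instance] HatCube.group HatCube.module HatCube.uniformSpace

variable {H}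

/-- The continuous linear map `E` on the tensor square with `E (a ⊗ b) = f a b` satisfies
`E ∘ Δ = g`. -/
def Induces {Y : Type} [AddCommGroup Y] [Module ℂ Y] [UniformSpace Y] (Q : HatSquare H)
    (f : H → H → Y) (Δ : H → Q.X) (g : H → Y) : Prop :=
  ∃ E : Q.X → Y, IsContLin E ∧ (∀ a b, E (Q.t a b) = f a b) ∧ ∀ x, E (Δ x) = g x

variable (H)

/-- A Hopf algebra for the complete projective tensor product, with underlying algebra `H`. -/
structure HopfAlgHat where
  completeLC : CompleteLC H
  continuousMul : ContinuousMul H
  square : HatSquare H
  cube : HatCube H square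
  comul : H → square.X
  counit : H → ℂ
  antipode : H → H
  isContAlgHom_comul : IsContAlgHom comul
  isContAlgHom_counit : IsContAlgHom counit
  isContLin_antipode : IsContLin antipode
  /-- Coassociativity: `(comul ⊗ id) ∘ comul = (id ⊗ comul) ∘ comul`. -/
  coassoc : ∃ g : H → cube.X, Induces square (fun a b => cube.tl (comul a) b) comul g ∧
    Induces square (fun a b => cube.tr a (comul b)) comul g
  /-- `(counit ⊗ id) ∘ comul = id`. -/
  counit_left : Induces square (fun a b => counit a • b) comul id
  /-- `(id ⊗ counit) ∘ comul = id`. -/
  counit_right : Induces square (fun a b => counit b • a) comul id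
  /-- `m ∘ (antipode ⊗ id) ∘ comul = u ∘ counit`. -/
  antipode_left : Induces square (fun a b => antipode a * b) comul (fun x => algebraMap ℂ H (counit x))
  /-- `m ∘ (id ⊗ antipode) ∘ comul = u ∘ counit`. -/
  antipode_right : Induces square (fun a b => a * antipode b) comul
    (fun x => algebraMap ℂ H (counit x))

end hopf

section proofs

variable {E F G : Type} [AddCommGroup E] [Module ℂ E] [UniformSpace E]
    [AddCommGroup F] [Module ℂ F] [UniformSpace F] [AddCommGroup G] [Module ℂ G] [UniformSpace G]

lemma isContLin_coe (g : E →L[ℂ] F) : IsContLin g := ⟨map_add g, map_smul g, g.continuous⟩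

lemma IsHatTensor.toTensorHat {t : E →ₗ[ℂ] F →ₗ[ℂ] G} (ht : IsHatTensor t) :
    IsTensorHat (fun x y => t x y) where
  completeLC := ht.completeLC
  isContBilin :=
    { add_left := fun x x' y => by rw [map_add, LinearMap.add_apply]
      smul_left := fun c x y => by rw [map_smul, LinearMap.smul_apply]
      add_right := fun x y y' => map_add (t x) y y'
      smul_right := fun c x y => map_smul (t x) c y
      continuous := ht.continuous }
  lift := by
    intro K _ _ _ _ b hb
    obtain ⟨g, hg, hu⟩ := ht.lift K (LinearMap.mk₂ ℂ b hb.add_left hb.smul_left hb.add_right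
      hb.smul_right) hb.continuous
    refine ⟨g, ⟨isContLin_coe g, hg⟩, ?_⟩
    rintro g' ⟨hg', h'⟩
    have h1 := hu ⟨{ toFun := g', map_add' := hg'.add, map_smul' := hg'.smul }, hg'.continuous⟩ h'
    rw [← h1]
    rfl

variable (H : Type) [Ring H] [HopfAlgebra ℂ H]

/-- The tensor square of the envelope. -/
noncomputable def squareAM : HatSquare (AM H) where
  X := AM (H ⊗[ℂ] H)
  continuousMul := inferInstance
  t := fun a b => tAM H H a b
  isTensorHat := isHatTensor_tAM.toTensorHat
  t_mul := tAM_mul H
  t_one := by rw [tAM_apply, map_one, map_one, mul_one]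

/-- The tensor cube of the envelope. -/
noncomputable def cubeAM : HatCube (AM H) (squareAM H) where
  X := AM ((H ⊗[ℂ] H) ⊗[ℂ] H)
  tl := fun u b => tAM (H ⊗[ℂ] H) H u b
  tr := fun a u => trAM H a u
  isTensorHat_tl := isHatTensor_tAM.toTensorHat
  isTensorHat_tr := (isHatTensor_trAM H).toTensorHat
  tl_tr := tl_tr' H

/-- The envelope of a Hopf algebra is a Hopf algebra for the complete projective tensor
product. -/
noncomputable def hopfAlgAM : HopfAlgHat (AM H) where
  completeLC := inferInstance
  continuousMul := inferInstance
  square := squareAM H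
  cube := cubeAM H
  comul := comulAM H
  counit := counitAM H
  antipode := antipodeAM H
  isContAlgHom_comul := ⟨⟨map_add (comulAM H), map_smul (comulAM H), continuous_comulAM H⟩,
    map_one (comulAM H), map_mul (comulAM H)⟩
  isContAlgHom_counit := ⟨⟨map_add (counitAM H), map_smul (counitAM H), continuous_counitAM H⟩,
    map_one (counitAM H), map_mul (counitAM H)⟩
  isContLin_antipode := isContLin_coe (antipodeAM H)
  coassoc := ⟨fun x => mapCL (dL H) (comulAM H x),
    ⟨mapCL (dL H), isContLin_coe _, dL_t H, fun x => rfl⟩,
    ⟨mapCL (dR H), isContLin_coe _, dR_t H, fun x => (coassoc' H x).symm⟩⟩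
  counit_left := by
    obtain ⟨E, h1, h2⟩ := counit_left' H
    exact ⟨E, isContLin_coe E, h1, h2⟩
  counit_right := by
    obtain ⟨E, h1, h2⟩ := counit_right' H
    exact ⟨E, isContLin_coe E, h1, h2⟩
  antipode_left := by
    obtain ⟨E, h1, h2⟩ := antipode_left' H
    exact ⟨E, isContLin_coe E, h1, h2⟩
  antipode_right := by
    obtain ⟨E, h1, h2⟩ := antipode_right' H
    exact ⟨E, isContLin_coe E, h1, h2⟩

end proofs

end Pool.Agent.V11319.Env
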