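import Pool.Agent.V11319.HFGAlg
import Pool.Agent.V11319.HopfHat2

set_option autoImplicit false

/-! Holomorphically finitely generated algebras (characterisation of the algebra of free entire
functions as a completion). -/

namespace Pool.Agent.V11319.Env

open TensorProduct UniformSpace Topology Filter Pool.Agent.TH12.Hopf

/-- The norm of `∑ c_α ζ_α`: the sum of the `‖c_α‖ ρ ^ |α|`. -/
noncomputable def wordNorm (n : ℕ) (ρ : ℝ) (f : MonoidAlgebra ℂ (FreeMonoid (Fin n))) : ℝ :=
  ∑ α ∈ f.coeff.support, ‖f.coeff α‖ * ρ ^ α.length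

lemma wordNorm_eq (n : ℕ) (ρ : ℝ) (f : FreeAlg n) : wordNorm n ρ f = rhoNorm n ρ f := rfl

/-- The algebra `F` is the algebra of free entire functions in `n` generators: it is the
completion of the free algebra (embedded by `j`) for the norms `wordNorm n ρ`, `ρ > 0`. -/
structure IsFreeEntire (n : ℕ) (F : Type) [Ring F] [Algebra ℂ F] [UniformSpace F]
    (j : MonoidAlgebra ℂ (FreeMonoid (Fin n)) →ₐ[ℂ] F) : Prop where
  completeLC : CompleteLC F
  continuousMul : ContinuousMul F
  dense : DenseRange j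
  /-- The topology of `F` induces on the free algebra the topology of the norms. -/
  nhds_zero : ∀ U : Set (MonoidAlgebra ℂ (FreeMonoid (Fin n))),
    (∃ V ∈ 𝓝 (0 : F), j ⁻¹' V ⊆ U) ↔
      ∃ ρ : ℝ, 0 < ρ ∧ ∃ ε : ℝ, 0 < ε ∧ {f | wordNorm n ρ f < ε} ⊆ U

/-- The algebra `A` is holomorphically finitely generated: it is topologically isomorphic to the
quotient of the algebra `F` of free entire functions in `n` generators by a closed two-sided
ideal `I`. -/
def IsHolFG (A : Type) [Ring A] [Algebra ℂ A] [TopologicalSpace A] : Prop :=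
  ∃ (n : ℕ) (F : Type) (_ : Ring F) (_ : Algebra ℂ F) (_ : UniformSpace F)
    (j : MonoidAlgebra ℂ (FreeMonoid (Fin n)) →ₐ[ℂ] F),
    IsFreeEntire n F j ∧ ∃ (I : Ideal F) (_ : I.IsTwoSided), IsClosed (I : Set F) ∧
      ∃ e : (F ⧸ I) ≃ₐ[ℂ] A, IsOpenQuotientMap (fun x => e (Ideal.Quotient.mk I x))

lemma nhds_rho {n : ℕ} (ρ : {ρ : ℝ // 0 < ρ}) {ε : ℝ} (hε : 0 < ε) :
    {x : FTop (rhoS n) | wordNorm n ρ.1 (show FreeAlg n from x) < ε} ∈
      𝓝 (0 : FTop (rhoS n)) := by
  have hc := (withSeminorms (rhoS n)).continuous_seminorm ρ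
  have h := hc.tendsto 0
  rw [map_zero] at h
  exact h (Iio_mem_nhds hε)

lemma isFreeEntire_Fn (n : ℕ) : IsFreeEntire n (Fn n) (toC (rhoS n)) where
  completeLC := {}
  continuousMul := inferInstance
  dense := denseRange_toC _
  nhds_zero := by
    intro U
    have h0 : (∃ V ∈ 𝓝 (0 : Fn n), (toC (rhoS n)) ⁻¹' V ⊆ U) ↔
        (show Set (FTop (rhoS n)) from U) ∈ 𝓝 (0 : FTop (rhoS n)) := by
      rw [(isUniformInducing_toC' (rhoS n)).isInducing.nhds_eq_comap, mem_comap]
      have h1 : toC' (rhoS n) 0 = 0 := map_zero (toC (rhoS n))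
      rw [h1]
      rfl
    rw [h0]
    constructor
    · intro hU
      obtain ⟨N, ε, hε, h⟩ := mem_nhds_Fn hU
      refine ⟨(N : ℝ) + 1, by positivity, ε, hε, fun f hf => h f ?_⟩
      rw [← rhoNorm_eq]
      exact hf
    · rintro ⟨ρ, hρ, ε, hε, h⟩
      exact Filter.mem_of_superset (nhds_rho ⟨ρ, hρ⟩ hε) h

/-- The Arens-Michael envelope of a finitely generated algebra is holomorphically finitely
generated. -/
theorem isHolFG_AM (H : Type) [Ring H] [Algebra ℂ H] (hf : Algebra.FiniteType ℂ H) :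
    IsHolFG (AM H) := by
  obtain ⟨n, I, hI, hcl, e, he⟩ := isHFG_AM H hf
  exact ⟨n, Fn n, inferInstance, inferInstance, inferInstance, toC (rhoS n), isFreeEntire_Fn n,
    I, hI, hcl, e, he⟩

end Pool.Agent.V11319.Env
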