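import Pool.Agent.V11319.EnvTensor

set_option autoImplicit false

/-! Hopf algebras for the complete projective tensor product, and the envelope of a Hopf
algebra. -/

namespace Pool.Agent.V11319.Env

open TensorProduct UniformSpace Topology Filter

/-- A Hopf algebra for the complete projective tensor product, with underlying algebra `H`.
`H2` with the bilinear map `t` is the complete projective tensor square of `H`, with its algebra
structure; `H3` is the complete projective tensor cube of `H`, as a tensor product of `H2` and `H`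
(map `tl`) and of `H` and `H2` (map `tr`), identified by associativity. -/
structure HopfHat (H : Type) [Ring H] [Algebra ℂ H] [UniformSpace H] where
  completeLC : CompleteLC H
  continuousMul : ContinuousMul H
  H2 : Type
  [ring2 : Ring H2]
  [algebra2 : Algebra ℂ H2]
  [uniformSpace2 : UniformSpace H2]
  continuousMul2 : ContinuousMul H2
  t : H →ₗ[ℂ] H →ₗ[ℂ] H2
  isHatTensor : IsHatTensor t
  t_mul : ∀ a b c d, t a b * t c d = t (a * c) (b * d)
  t_one : t 1 1 = 1
  H3 : Type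
  [group3 : AddCommGroup H3]
  [module3 : Module ℂ H3]
  [uniformSpace3 : UniformSpace H3]
  tl : H2 →ₗ[ℂ] H →ₗ[ℂ] H3
  tr : H →ₗ[ℂ] H2 →ₗ[ℂ] H3
  isHatTensor_tl : IsHatTensor tl
  isHatTensor_tr : IsHatTensor tr
  tl_tr : ∀ a b c, tl (t a b) c = tr a (t b c)
  comul : H →ₐ[ℂ] H2
  continuous_comul : Continuous comul
  counit : H →ₐ[ℂ] ℂ
  continuous_counit : Continuous counit
  antipode : H →L[ℂ] H
  /-- Coassociativity: `D₁` is `comul ⊗ id` and `D₂` is `id ⊗ comul`. -/
  coassoc : ∃ D₁ D₂ : H2 →L[ℂ] H3, (∀ a b, D₁ (t a b) = tl (comul a) b) ∧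
    (∀ a b, D₂ (t a b) = tr a (comul b)) ∧ ∀ x, D₁ (comul x) = D₂ (comul x)
  /-- `E` is `counit ⊗ id`. -/
  counit_left : ∃ E : H2 →L[ℂ] H, (∀ a b, E (t a b) = counit a • b) ∧ ∀ x, E (comul x) = x
  /-- `E` is `id ⊗ counit`. -/
  counit_right : ∃ E : H2 →L[ℂ] H, (∀ a b, E (t a b) = counit b • a) ∧ ∀ x, E (comul x) = x
  /-- `M` is multiplication after `antipode ⊗ id`. -/
  antipode_left : ∃ M : H2 →L[ℂ] H, (∀ a b, M (t a b) = antipode a * b) ∧
    ∀ x, M (comul x) = algebraMap ℂ H (counit x)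
  /-- `M` is multiplication after `id ⊗ antipode`. -/
  antipode_right : ∃ M : H2 →L[ℂ] H, (∀ a b, M (t a b) = a * antipode b) ∧
    ∀ x, M (comul x) = algebraMap ℂ H (counit x)

section equiv

variable {E F G G' : Type} [AddCommGroup E] [Module ℂ E] [UniformSpace E]
    [AddCommGroup F] [Module ℂ F] [UniformSpace F]
    [AddCommGroup G] [Module ℂ G] [UniformSpace G]
    [AddCommGroup G'] [Module ℂ G'] [UniformSpace G'] [CompleteLC G']

/-- Transport of a complete tensor product along an isomorphism. -/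
lemma IsHatTensor.comp_equiv {t : E →ₗ[ℂ] F →ₗ[ℂ] G} (ht : IsHatTensor t) (e : G →L[ℂ] G')
    (e' : G' →L[ℂ] G) (h1 : ∀ x, e' (e x) = x) (h2 : ∀ x, e (e' x) = x)
    (t' : E →ₗ[ℂ] F →ₗ[ℂ] G') (h : ∀ x y, t' x y = e (t x y)) : IsHatTensor t' where
  completeLC := inferInstance
  continuous := by
    simp only [h]
    exact e.continuous.comp ht.continuous
  lift := by
    intro K _ _ _ _ b hb
    obtain ⟨g, hg, hu⟩ := ht.lift K b hb
    refine ⟨g.comp e', fun x y => ?_, fun g' hg' => ?_⟩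
    · rw [h, ContinuousLinearMap.comp_apply, h1, hg]
    · have h3 : g'.comp e = g := hu _ fun x y => by
        rw [ContinuousLinearMap.comp_apply, ← h, hg']
      ext z
      rw [← h3, ContinuousLinearMap.comp_apply, ContinuousLinearMap.comp_apply, h2]

end equiv

section hopf

variable (H : Type) [Ring H] [HopfAlgebra ℂ H]

/-- An algebra homomorphism of envelopes, as a continuous linear map. -/
noncomputable def mapCL {A B : Type} [Ring A] [Algebra ℂ A] [Ring B] [Algebra ℂ B]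
    (f : A →ₐ[ℂ] B) : AM A →L[ℂ] AM B :=
  ⟨(mapA f).toLinearMap, continuous_mapA f⟩

lemma mapCL_toC {A B : Type} [Ring A] [Algebra ℂ A] [Ring B] [Algebra ℂ B]
    (f : A →ₐ[ℂ] B) (a : A) : mapCL f (toC _ a) = toC _ (f a) := mapA_toC f a

lemma mapCL_mapCL {A B C : Type} [Ring A] [Algebra ℂ A] [Ring B] [Algebra ℂ B] [Ring C]
    [Algebra ℂ C] (g : B →ₐ[ℂ] C) (f : A →ₐ[ℂ] B) (x : AM A) :
    mapCL g (mapCL f x) = mapCL (g.comp f) x := by
  refine congrFun (hom_ext _ ((mapCL g).continuous.comp (mapCL f).continuous)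
    (mapCL (g.comp f)).continuous fun a => ?_) x
  change mapCL g (mapCL f (toC _ a)) = mapCL (g.comp f) (toC _ a)
  rw [mapCL_toC, mapCL_toC, mapCL_toC]
  rfl

lemma mapCL_id {A : Type} [Ring A] [Algebra ℂ A] (x : AM A) :
    mapCL (AlgHom.id ℂ A) x = x := by
  refine congrFun (hom_ext _ (mapCL (AlgHom.id ℂ A)).continuous continuous_id fun a => ?_) x
  rw [mapCL_toC]
  rfl

/-- The associativity isomorphism. -/
noncomputable abbrev assocA (A : Type) [Ring A] [Algebra ℂ A] :
    (A ⊗[ℂ] A) ⊗[ℂ] A ≃ₐ[ℂ] A ⊗[ℂ] (A ⊗[ℂ] A) :=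
  Algebra.TensorProduct.assoc ℂ ℂ ℂ A A A

/-- The second bilinear map to the tensor cube. -/
noncomputable def trAM (A : Type) [Ring A] [Algebra ℂ A] :
    AM A →ₗ[ℂ] AM (A ⊗[ℂ] A) →ₗ[ℂ] AM ((A ⊗[ℂ] A) ⊗[ℂ] A) :=
  (tAM A (A ⊗[ℂ] A)).compr₂ (mapCL (assocA A).symm.toAlgHom).toLinearMap

lemma trAM_toC {A : Type} [Ring A] [Algebra ℂ A] (a : A) (u : A ⊗[ℂ] A) :
    trAM A (toC _ a) (toC _ u) = toC _ ((assocA A).symm (a ⊗ₜ[ℂ] u)) := by
  change mapCL (assocA A).symm.toAlgHom (tAM A (A ⊗[ℂ] A) (toC _ a) (toC _ u)) = _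
  rw [tAM_toC, mapCL_toC]
  rfl

lemma isHatTensor_trAM (A : Type) [Ring A] [Algebra ℂ A] : IsHatTensor (trAM A) :=
  (isHatTensor_tAM (A := A) (B := A ⊗[ℂ] A)).comp_equiv (mapCL (assocA A).symm.toAlgHom)
    (mapCL (assocA A).toAlgHom) (fun x => by
      rw [mapCL_mapCL]
      have h : (assocA A).toAlgHom.comp (assocA A).symm.toAlgHom =
          AlgHom.id ℂ _ := AlgHom.ext fun u => (assocA A).apply_symm_apply u
      rw [h, mapCL_id]) (fun x => by
      rw [mapCL_mapCL]
      have h : (assocA A).symm.toAlgHom.comp (assocA A).toAlgHom =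
          AlgHom.id ℂ _ := AlgHom.ext fun u => (assocA A).symm_apply_apply u
      rw [h, mapCL_id]) _ (fun x y => rfl)

/-- The counit of the envelope. -/
lemma continuous_counit' : Continuous (fun a : FTop (allS H) => Bialgebra.counitAlgHom ℂ H a) := by
  refine continuous_of_nhds (Bialgebra.counitAlgHom ℂ H).toLinearMap fun U hU => ?_
  obtain ⟨ε, hε, h⟩ := Metric.mem_nhds_iff.1 hU
  refine ⟨⟨(normSeminorm ℂ ℂ).comp (Bialgebra.counitAlgHom ℂ H).toLinearMap, fun a b => ?_⟩,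
    ε, hε, fun x hx => h ?_⟩
  · change ‖Bialgebra.counitAlgHom ℂ H (a * b)‖ ≤
      ‖Bialgebra.counitAlgHom ℂ H a‖ * ‖Bialgebra.counitAlgHom ℂ H b‖
    rw [map_mul]
    exact norm_mul_le _ _
  · rw [mem_ball_zero_iff]
    exact hx

lemma continuous_antipode' :
    Continuous (fun a : FTop (allS H) => toC (allS H) (HopfAlgebra.antipode ℂ (A := H) a)) := by
  refine continuous_of_comp (HopfAlgebra.antipode ℂ (A := H)) fun q =>
    ⟨⟨q.1.comp (HopfAlgebra.antipode ℂ (A := H)), fun a b => ?_⟩, fun _ => le_rfl⟩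
  show q.1 (HopfAlgebra.antipode ℂ (a * b)) ≤
    q.1 (HopfAlgebra.antipode ℂ a) * q.1 (HopfAlgebra.antipode ℂ b)
  rw [HopfAlgebra.antipode_mul_antidistrib, mul_comm (q.1 (HopfAlgebra.antipode ℂ a))]
  exact q.2 _ _

/-- The antipode of the envelope. -/
noncomputable def antipodeAM : AM H →L[ℂ] AM H :=
  extL (allS H) ((toC (allS H)).toLinearMap ∘ₗ HopfAlgebra.antipode ℂ (A := H))
    (continuous_antipode' H)

lemma antipodeAM_toC (a : H) :
    antipodeAM H (toC _ a) = toC _ (HopfAlgebra.antipode ℂ a) := extL_toC _ _ _ a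

/-- The counit of the envelope. -/
noncomputable def counitAM : AM H →ₐ[ℂ] ℂ :=
  extA (allS H) (Bialgebra.counitAlgHom ℂ H) (continuous_counit' H)

lemma counitAM_toC (a : H) : counitAM H (toC _ a) = Coalgebra.counit (R := ℂ) a :=
  extA_toC _ _ _ a

lemma continuous_counitAM : Continuous (counitAM H) := continuous_extA _ _ _

/-- The comultiplication of the envelope. -/
noncomputable def comulAM : AM H →ₐ[ℂ] AM (H ⊗[ℂ] H) := mapA (Bialgebra.comulAlgHom ℂ H)

lemma comulAM_toC (a : H) : comulAM H (toC _ a) = toC _ (Coalgebra.comul (R := ℂ) a) :=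
  mapA_toC _ a

lemma continuous_comulAM : Continuous (comulAM H) := continuous_mapA _

lemma bilin_ext {A B K : Type} [Ring A] [Algebra ℂ A] [Ring B] [Algebra ℂ B]
    [TopologicalSpace K] [T2Space K] {f g : AM A → AM B → K}
    (hf : Continuous (fun p : AM A × AM B => f p.1 p.2))
    (hg : Continuous (fun p : AM A × AM B => g p.1 p.2))
    (h : ∀ a b, f (toC _ a) (toC _ b) = g (toC _ a) (toC _ b)) (x : AM A) (y : AM B) :
    f x y = g x y :=
  induction2 (p := fun x y => f x y = g x y) x y (isClosed_eq hf hg) h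

/-- A continuous linear map on the tensor square of the envelope, given by an algebra map. -/
lemma lift_exists (b : AM H →ₗ[ℂ] AM H →ₗ[ℂ] AM H)
    (hb : Continuous (fun p : AM H × AM H => b p.1 p.2)) (f : H ⊗[ℂ] H →ₗ[ℂ] H)
    (hf : ∀ x y, b (toC _ x) (toC _ y) = toC _ (f (x ⊗ₜ[ℂ] y))) :
    ∃ M : AM (H ⊗[ℂ] H) →L[ℂ] AM H, (∀ a c, M (tAM H H a c) = b a c) ∧
      ∀ u, M (toC _ u) = toC _ (f u) := by
  obtain ⟨M, hM, -⟩ := (isHatTensor_tAM (A := H) (B := H)).lift (AM H) b hb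
  refine ⟨M, hM, fun u => ?_⟩
  induction u using TensorProduct.induction_on with
  | zero => simp
  | tmul x y => rw [← tAM_toC, hM, hf]
  | add u v hu hv => rw [map_add, map_add, map_add, hu, hv, map_add]

lemma tAM_mul (a b c d : AM H) :
    tAM H H a b * tAM H H c d = tAM H H (a * c) (b * d) := by
  have hcomm : ∀ (x y : AM H), mapA (Algebra.TensorProduct.includeRight : H →ₐ[ℂ] H ⊗[ℂ] H) y *
      mapA (Algebra.TensorProduct.includeLeft : H →ₐ[ℂ] H ⊗[ℂ] H) x =
      mapA (Algebra.TensorProduct.includeLeft : H →ₐ[ℂ] H ⊗[ℂ] H) x *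
      mapA (Algebra.TensorProduct.includeRight : H →ₐ[ℂ] H ⊗[ℂ] H) y := by
    intro x y
    refine bilin_ext (f := fun x y => mapA (Algebra.TensorProduct.includeRight :
      H →ₐ[ℂ] H ⊗[ℂ] H) y * mapA (Algebra.TensorProduct.includeLeft : H →ₐ[ℂ] H ⊗[ℂ] H) x)
      (g := fun x y => mapA (Algebra.TensorProduct.includeLeft : H →ₐ[ℂ] H ⊗[ℂ] H) x *
      mapA (Algebra.TensorProduct.includeRight : H →ₐ[ℂ] H ⊗[ℂ] H) y)
      (((continuous_mapA _).comp continuous_snd).mul ((continuous_mapA _).comp continuous_fst))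
      (((continuous_mapA _).comp continuous_fst).mul ((continuous_mapA _).comp continuous_snd))
      (fun a b => ?_) x y
    rw [mapA_toC, mapA_toC, ← map_mul, ← map_mul]
    simp
  have h4 : ∀ (x y z w : AM (H ⊗[ℂ] H)), y * z = z * y → x * y * (z * w) = x * z * (y * w) :=
    fun x y z w h => by rw [mul_assoc, ← mul_assoc y, h, mul_assoc, mul_assoc]
  simp only [tAM_apply, map_mul]
  exact h4 _ _ _ _ (hcomm c b)

lemma trilin_ext {K : Type} [TopologicalSpace K] [T2Space K] {f g : AM H → AM H → AM H → K}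
    (hf : Continuous (fun p : AM H × AM H × AM H => f p.1 p.2.1 p.2.2))
    (hg : Continuous (fun p : AM H × AM H × AM H => g p.1 p.2.1 p.2.2))
    (h : ∀ a b c : H, f (toC _ a) (toC _ b) (toC _ c) = g (toC _ a) (toC _ b) (toC _ c))
    (x y z : AM H) : f x y z = g x y z :=
  Completion.induction_on₃ (p := fun (x y z : AM H) => f x y z = g x y z) x y z
    (isClosed_eq hf hg) h

lemma tl_tr0 (a b c : H) :
    tAM (H ⊗[ℂ] H) H (tAM H H (toC _ a) (toC _ b)) (toC _ c) =
      trAM H (toC _ a) (tAM H H (toC _ b) (toC _ c)) := by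
  have h1 : tAM H H (toC _ a) (toC _ b) = toC _ (a ⊗ₜ[ℂ] b) := tAM_toC H H a b
  have h2 : tAM H H (toC _ b) (toC _ c) = toC _ (b ⊗ₜ[ℂ] c) := tAM_toC H H b c
  have h3 : tAM (H ⊗[ℂ] H) H (toC _ (a ⊗ₜ[ℂ] b)) (toC _ c) = toC _ ((a ⊗ₜ[ℂ] b) ⊗ₜ[ℂ] c) :=
    tAM_toC _ _ _ _
  have h4 : trAM H (toC _ a) (toC _ (b ⊗ₜ[ℂ] c)) =
      toC _ ((assocA H).symm (a ⊗ₜ[ℂ] (b ⊗ₜ[ℂ] c))) := trAM_toC _ _
  have h5 : (assocA H).symm (a ⊗ₜ[ℂ] (b ⊗ₜ[ℂ] c)) = (a ⊗ₜ[ℂ] b) ⊗ₜ[ℂ] c := rfl
  exact ((congrArg (fun z => tAM (H ⊗[ℂ] H) H z (toC _ c)) h1).trans h3).trans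
    (((congrArg (toC _) h5).symm.trans h4.symm).trans
      (congrArg (fun z => trAM H (toC _ a) z) h2).symm)

lemma cont_tl : Continuous (fun p : AM H × AM H × AM H =>
    tAM (H ⊗[ℂ] H) H (tAM H H p.1 p.2.1) p.2.2) := by
  have h0 : Continuous (fun p : AM H × AM H × AM H => (p.1, p.2.1)) := by fun_prop
  have h1' := (continuous_tAM H H).comp h0
  have h1 : Continuous (fun p : AM H × AM H × AM H => tAM H H p.1 p.2.1) := h1'
  have h2 : Continuous (fun p : AM H × AM H × AM H => (tAM H H p.1 p.2.1, p.2.2)) :=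
    h1.prodMk (by fun_prop)
  have h3 := (continuous_tAM (H ⊗[ℂ] H) H).comp h2
  exact h3

lemma cont_tr : Continuous (fun p : AM H × AM H × AM H =>
    trAM H p.1 (tAM H H p.2.1 p.2.2)) := by
  have h0 : Continuous (fun p : AM H × AM H × AM H => (p.2.1, p.2.2)) := by fun_prop
  have h1' := (continuous_tAM H H).comp h0
  have h1 : Continuous (fun p : AM H × AM H × AM H => tAM H H p.2.1 p.2.2) := h1'
  have h2 : Continuous (fun p : AM H × AM H × AM H => (p.1, tAM H H p.2.1 p.2.2)) :=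
    continuous_fst.prodMk h1
  have h3 := (isHatTensor_trAM H).continuous.comp h2
  exact h3

lemma tl_tr' (a b c : AM H) :
    tAM (H ⊗[ℂ] H) H (tAM H H a b) c = trAM H a (tAM H H b c) :=
  trilin_ext H (f := fun a b c => tAM (H ⊗[ℂ] H) H (tAM H H a b) c)
    (g := fun a b c => trAM H a (tAM H H b c)) (cont_tl H) (cont_tr H) (tl_tr0 H) a b c

/-- The comultiplication tensor the identity. -/
noncomputable abbrev dL : H ⊗[ℂ] H →ₐ[ℂ] (H ⊗[ℂ] H) ⊗[ℂ] H :=
  Algebra.TensorProduct.map (Bialgebra.comulAlgHom ℂ H) (AlgHom.id ℂ H)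

/-- The identity tensor the comultiplication. -/
noncomputable abbrev dR : H ⊗[ℂ] H →ₐ[ℂ] (H ⊗[ℂ] H) ⊗[ℂ] H :=
  (assocA H).symm.toAlgHom.comp
    (Algebra.TensorProduct.map (AlgHom.id ℂ H) (Bialgebra.comulAlgHom ℂ H))

lemma dL_t0 (a b : H) : mapCL (dL H) (tAM H H (toC _ a) (toC _ b)) =
    tAM (H ⊗[ℂ] H) H (comulAM H (toC _ a)) (toC _ b) := by
  have h1 : tAM H H (toC _ a) (toC _ b) = toC _ (a ⊗ₜ[ℂ] b) := tAM_toC H H a b
  have h2 : comulAM H (toC _ a) = toC _ (Coalgebra.comul (R := ℂ) a) := comulAM_toC H a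
  have h3 : tAM (H ⊗[ℂ] H) H (toC _ (Coalgebra.comul (R := ℂ) a)) (toC _ b) =
      toC _ ((Coalgebra.comul (R := ℂ) a) ⊗ₜ[ℂ] b) := tAM_toC _ _ _ _
  have h4 : mapCL (dL H) (toC _ (a ⊗ₜ[ℂ] b)) = toC _ (dL H (a ⊗ₜ[ℂ] b)) := mapCL_toC _ _
  have h5 : dL H (a ⊗ₜ[ℂ] b) = (Coalgebra.comul (R := ℂ) a) ⊗ₜ[ℂ] b := rfl
  exact ((congrArg (mapCL (dL H)) h1).trans h4).trans ((congrArg (toC _) h5).trans
    (h3.symm.trans (congrArg (fun z => tAM (H ⊗[ℂ] H) H z (toC _ b)) h2).symm))

lemma dL_t (a b : AM H) : mapCL (dL H) (tAM H H a b) = tAM (H ⊗[ℂ] H) H (comulAM H a) b := by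
  have hc : Continuous (fun p : AM H × AM H => comulAM H p.1) :=
    (continuous_comulAM H).comp continuous_fst
  have h0 : Continuous (fun p : AM H × AM H => (comulAM H p.1, p.2)) := hc.prodMk continuous_snd
  have h1' := (continuous_tAM (H ⊗[ℂ] H) H).comp h0
  have h1 : Continuous (fun p : AM H × AM H => tAM (H ⊗[ℂ] H) H (comulAM H p.1) p.2) := h1'
  have h2' := (mapCL (dL H)).continuous.comp (continuous_tAM H H)
  have h2 : Continuous (fun p : AM H × AM H => mapCL (dL H) (tAM H H p.1 p.2)) := h2'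
  exact bilin_ext (f := fun a b => mapCL (dL H) (tAM H H a b))
    (g := fun a b => tAM (H ⊗[ℂ] H) H (comulAM H a) b) h2 h1 (dL_t0 H) a b

lemma dR_t0 (a b : H) : mapCL (dR H) (tAM H H (toC _ a) (toC _ b)) =
    trAM H (toC _ a) (comulAM H (toC _ b)) := by
  have h1 : tAM H H (toC _ a) (toC _ b) = toC _ (a ⊗ₜ[ℂ] b) := tAM_toC H H a b
  have h2 : comulAM H (toC _ b) = toC _ (Coalgebra.comul (R := ℂ) b) := comulAM_toC H b
  have h3 : trAM H (toC _ a) (toC _ (Coalgebra.comul (R := ℂ) b)) =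
      toC _ ((assocA H).symm (a ⊗ₜ[ℂ] (Coalgebra.comul (R := ℂ) b))) := trAM_toC _ _
  have h4 : mapCL (dR H) (toC _ (a ⊗ₜ[ℂ] b)) = toC _ (dR H (a ⊗ₜ[ℂ] b)) := mapCL_toC _ _
  have h5 : dR H (a ⊗ₜ[ℂ] b) = (assocA H).symm (a ⊗ₜ[ℂ] (Coalgebra.comul (R := ℂ) b)) := rfl
  exact ((congrArg (mapCL (dR H)) h1).trans h4).trans ((congrArg (toC _) h5).trans
    (h3.symm.trans (congrArg (fun z => trAM H (toC _ a) z) h2).symm))

lemma dR_t (a b : AM H) : mapCL (dR H) (tAM H H a b) = trAM H a (comulAM H b) := by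
  have hc : Continuous (fun p : AM H × AM H => comulAM H p.2) :=
    (continuous_comulAM H).comp continuous_snd
  have h0 : Continuous (fun p : AM H × AM H => (p.1, comulAM H p.2)) := continuous_fst.prodMk hc
  have h1' := (isHatTensor_trAM H).continuous.comp h0
  have h1 : Continuous (fun p : AM H × AM H => trAM H p.1 (comulAM H p.2)) := h1'
  have h2' := (mapCL (dR H)).continuous.comp (continuous_tAM H H)
  have h2 : Continuous (fun p : AM H × AM H => mapCL (dR H) (tAM H H p.1 p.2)) := h2'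
  exact bilin_ext (f := fun a b => mapCL (dR H) (tAM H H a b))
    (g := fun a b => trAM H a (comulAM H b)) h2 h1 (dR_t0 H) a b

lemma coassoc' (x : AM H) : mapCL (dL H) (comulAM H x) = mapCL (dR H) (comulAM H x) := by
  refine congrFun (hom_ext _ ((mapCL (dL H)).continuous.comp (continuous_comulAM H))
    ((mapCL (dR H)).continuous.comp (continuous_comulAM H)) fun a => ?_) x
  change mapCL (dL H) (comulAM H (toC _ a)) = mapCL (dR H) (comulAM H (toC _ a))
  rw [comulAM_toC, mapCL_toC, mapCL_toC]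
  congr 1
  have h := Coalgebra.coassoc_apply (R := ℂ) a
  have h2 : (assocA H).symm (TensorProduct.assoc ℂ H H H
      ((Coalgebra.comul (R := ℂ)).rTensor H (Coalgebra.comul (R := ℂ) a))) =
      (assocA H).symm ((Coalgebra.comul (R := ℂ)).lTensor H (Coalgebra.comul (R := ℂ) a)) := by
    rw [h]
  have h3 : (assocA H).symm (TensorProduct.assoc ℂ H H H
      ((Coalgebra.comul (R := ℂ)).rTensor H (Coalgebra.comul (R := ℂ) a))) =
      (Coalgebra.comul (R := ℂ)).rTensor H (Coalgebra.comul (R := ℂ) a) :=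
    (assocA H).symm_apply_apply _
  rw [h3] at h2
  exact h2

lemma counit_left' : ∃ E : AM (H ⊗[ℂ] H) →L[ℂ] AM H,
    (∀ a b, E (tAM H H a b) = counitAM H a • b) ∧ ∀ x, E (comulAM H x) = x := by
  obtain ⟨E, h1, h2⟩ := lift_exists H
    (LinearMap.mk₂ ℂ (fun a b => counitAM H a • b) (fun x x' y => by rw [map_add, add_smul])
      (fun c x y => by rw [map_smul, smul_assoc]) (fun x y y' => by rw [smul_add])
      (fun c x y => by rw [smul_comm]))
    (((continuous_counitAM H).comp continuous_fst).smul continuous_snd)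
    ((TensorProduct.lid ℂ H).toLinearMap ∘ₗ (Coalgebra.counit (R := ℂ) (A := H)).rTensor H)
    (fun x y => by simp [counitAM_toC])
  refine ⟨E, h1, fun x => congrFun (hom_ext _ (E.continuous.comp (continuous_comulAM H))
    continuous_id fun a => ?_) x⟩
  change E (comulAM H (toC _ a)) = toC _ a
  rw [comulAM_toC, h2]
  simp

lemma counit_right' : ∃ E : AM (H ⊗[ℂ] H) →L[ℂ] AM H,
    (∀ a b, E (tAM H H a b) = counitAM H b • a) ∧ ∀ x, E (comulAM H x) = x := by
  obtain ⟨E, h1, h2⟩ := lift_exists H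
    (LinearMap.mk₂ ℂ (fun a b => counitAM H b • a) (fun x x' y => by rw [smul_add])
      (fun c x y => by rw [smul_comm]) (fun x y y' => by rw [map_add, add_smul])
      (fun c x y => by rw [map_smul, smul_assoc]))
    (((continuous_counitAM H).comp continuous_snd).smul continuous_fst)
    ((TensorProduct.rid ℂ H).toLinearMap ∘ₗ (Coalgebra.counit (R := ℂ) (A := H)).lTensor H)
    (fun x y => by simp [counitAM_toC])
  refine ⟨E, h1, fun x => congrFun (hom_ext _ (E.continuous.comp (continuous_comulAM H))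
    continuous_id fun a => ?_) x⟩
  change E (comulAM H (toC _ a)) = toC _ a
  rw [comulAM_toC, h2]
  simp

lemma antipode_left' : ∃ M : AM (H ⊗[ℂ] H) →L[ℂ] AM H,
    (∀ a b, M (tAM H H a b) = antipodeAM H a * b) ∧
    ∀ x, M (comulAM H x) = algebraMap ℂ (AM H) (counitAM H x) := by
  obtain ⟨M, h1, h2⟩ := lift_exists H
    (LinearMap.mk₂ ℂ (fun a b => antipodeAM H a * b) (fun x x' y => by rw [map_add, add_mul])
      (fun c x y => by rw [map_smul, smul_mul_assoc]) (fun x y y' => by rw [mul_add])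
      (fun c x y => by rw [mul_smul_comm]))
    (((antipodeAM H).continuous.comp continuous_fst).mul continuous_snd)
    (LinearMap.mul' ℂ H ∘ₗ (HopfAlgebra.antipode ℂ (A := H)).rTensor H)
    (fun x y => by simp [antipodeAM_toC])
  refine ⟨M, h1, fun x => congrFun (hom_ext _ (M.continuous.comp (continuous_comulAM H))
    ((continuous_algebraMap ℂ (AM H)).comp (continuous_counitAM H)) fun a => ?_) x⟩
  change M (comulAM H (toC _ a)) = algebraMap ℂ (AM H) (counitAM H (toC _ a))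
  rw [comulAM_toC, h2, counitAM_toC, LinearMap.comp_apply,
    HopfAlgebra.mul_antipode_rTensor_comul_apply, AlgHom.commutes]

lemma antipode_right' : ∃ M : AM (H ⊗[ℂ] H) →L[ℂ] AM H,
    (∀ a b, M (tAM H H a b) = a * antipodeAM H b) ∧
    ∀ x, M (comulAM H x) = algebraMap ℂ (AM H) (counitAM H x) := by
  obtain ⟨M, h1, h2⟩ := lift_exists H
    (LinearMap.mk₂ ℂ (fun a b => a * antipodeAM H b) (fun x x' y => by rw [add_mul])
      (fun c x y => by rw [smul_mul_assoc]) (fun x y y' => by rw [map_add, mul_add])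
      (fun c x y => by rw [map_smul, mul_smul_comm]))
    (continuous_fst.mul ((antipodeAM H).continuous.comp continuous_snd))
    (LinearMap.mul' ℂ H ∘ₗ (HopfAlgebra.antipode ℂ (A := H)).lTensor H)
    (fun x y => by simp [antipodeAM_toC])
  refine ⟨M, h1, fun x => congrFun (hom_ext _ (M.continuous.comp (continuous_comulAM H))
    ((continuous_algebraMap ℂ (AM H)).comp (continuous_counitAM H)) fun a => ?_) x⟩
  change M (comulAM H (toC _ a)) = algebraMap ℂ (AM H) (counitAM H (toC _ a))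
  rw [comulAM_toC, h2, counitAM_toC, LinearMap.comp_apply,
    HopfAlgebra.mul_antipode_lTensor_comul_apply, AlgHom.commutes]

/-- The envelope of a Hopf algebra is a Hopf algebra for the complete projective tensor
product. -/
noncomputable def hopfAM : HopfHat (AM H) where
  completeLC := inferInstance
  continuousMul := inferInstance
  H2 := AM (H ⊗[ℂ] H)
  continuousMul2 := inferInstance
  t := tAM H H
  isHatTensor := isHatTensor_tAM
  t_mul := tAM_mul H
  t_one := by rw [tAM_apply, map_one, map_one, mul_one]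
  H3 := AM ((H ⊗[ℂ] H) ⊗[ℂ] H)
  tl := tAM (H ⊗[ℂ] H) H
  tr := trAM H
  isHatTensor_tl := isHatTensor_tAM
  isHatTensor_tr := isHatTensor_trAM H
  tl_tr := tl_tr' H
  comul := comulAM H
  continuous_comul := continuous_comulAM H
  counit := counitAM H
  continuous_counit := continuous_counitAM H
  antipode := antipodeAM H
  coassoc := ⟨mapCL (dL H), mapCL (dR H), dL_t H, dR_t H, coassoc' H⟩
  counit_left := counit_left' H
  counit_right := counit_right' H
  antipode_left := antipode_left' H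
  antipode_right := antipode_right' H

end hopf

end Pool.Agent.V11319.Env
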