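import Pool.Agent.V11319.MCDefs

namespace Pool.Agent.V11319.MC

/-- lattice points at squared distance `< R2` from `(x, y)` -/
def Io (R2 x y : ℝ) : Set (ℤ × ℤ) := {p | ((p.1 : ℝ) - x) ^ 2 + ((p.2 : ℝ) - y) ^ 2 < R2}

/-- lattice points at squared distance `≤ R2` from `(x, y)` -/
def Ic (R2 x y : ℝ) : Set (ℤ × ℤ) := {p | ((p.1 : ℝ) - x) ^ 2 + ((p.2 : ℝ) - y) ^ 2 ≤ R2}

def Good (R2 : ℝ) (a need : ℕ) (x y : ℝ) : Prop :=
  (need : ℕ∞) ≤ (Io R2 x y).encard ∨
    ((Io R2 x y).encard = a ∧ (need : ℕ∞) ≤ (Ic R2 x y).encard)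

lemma good_of_equiv {R2 : ℝ} {a need : ℕ} {x y x' y' : ℝ} (e : ℤ × ℤ ≃ ℤ × ℤ)
    (h : ∀ p, (((e p).1 : ℝ) - x') ^ 2 + (((e p).2 : ℝ) - y') ^ 2 =
      ((p.1 : ℝ) - x) ^ 2 + ((p.2 : ℝ) - y) ^ 2) (hg : Good R2 a need x y) :
    Good R2 a need x' y' := by
  have h1 : Io R2 x' y' = e '' Io R2 x y := by
    ext q
    constructor
    · intro hq
      refine ⟨e.symm q, ?_, by simp⟩
      have := h (e.symm q)
      simp only [Equiv.apply_symm_apply] at this
      show _ < R2
      rw [← this]; exact hq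
    · rintro ⟨p, hp, rfl⟩
      show _ < R2
      rw [h p]; exact hp
  have h2 : Ic R2 x' y' = e '' Ic R2 x y := by
    ext q
    constructor
    · intro hq
      refine ⟨e.symm q, ?_, by simp⟩
      have := h (e.symm q)
      simp only [Equiv.apply_symm_apply] at this
      show _ ≤ R2
      rw [← this]; exact hq
    · rintro ⟨p, hp, rfl⟩
      show _ ≤ R2
      rw [h p]; exact hp
  rw [Good, h1, h2, e.injective.encard_image, e.injective.encard_image]
  exact hg

/-- It is enough to check centres in the fundamental triangle. -/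
lemma good_all {R2 : ℝ} {a need : ℕ}
    (h : ∀ x y : ℝ, 0 ≤ y → y ≤ x → x ≤ 1 / 2 → Good R2 a need x y) :
    ∀ x y : ℝ, Good R2 a need x y := by
  -- first: centres with `0 ≤ x, y ≤ 1/2`
  have h1 : ∀ x y : ℝ, 0 ≤ x → 0 ≤ y → x ≤ 1 / 2 → y ≤ 1 / 2 → Good R2 a need x y := by
    intro x y hx hy hx2 hy2
    rcases le_total y x with hxy | hxy
    · exact h x y hy hxy hx2
    · refine good_of_equiv (Equiv.prodComm ℤ ℤ) ?_ (h y x hx hxy hy2)
      rintro ⟨p, q⟩
      simp only [Equiv.prodComm_apply, Prod.swap_prod_mk]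
      ring
  -- second: absolute values
  have h2 : ∀ x y : ℝ, |x| ≤ 1 / 2 → |y| ≤ 1 / 2 → Good R2 a need x y := by
    intro x y hx hy
    have hy' : ∀ x : ℝ, 0 ≤ x → x ≤ 1 / 2 → Good R2 a need x y := by
      intro x hx0 hx1
      rcases le_total 0 y with h0 | h0
      · exact h1 x y hx0 h0 hx1 (by rwa [abs_of_nonneg h0] at hy)
      · refine good_of_equiv (x := x) (y := -y)
          ((Equiv.refl ℤ).prodCongr (Equiv.neg ℤ)) ?_
          (h1 x (-y) hx0 (by linarith) hx1 (by rwa [abs_of_nonpos h0] at hy))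
        rintro ⟨p, q⟩
        simp only [Equiv.prodCongr_apply, Prod.map_apply, Equiv.refl_apply, Equiv.neg_apply]
        push_cast
        ring
    rcases le_total 0 x with h0 | h0
    · exact hy' x h0 (by rwa [abs_of_nonneg h0] at hx)
    · refine good_of_equiv (x := -x) (y := y)
        ((Equiv.neg ℤ).prodCongr (Equiv.refl ℤ)) ?_
        (hy' (-x) (by linarith) (by rwa [abs_of_nonpos h0] at hx))
      rintro ⟨p, q⟩
      simp only [Equiv.prodCongr_apply, Prod.map_apply, Equiv.refl_apply, Equiv.neg_apply]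
      push_cast
      ring
  intro x y
  refine good_of_equiv (x := x - round x) (y := y - round y)
    ((Equiv.addRight (round x)).prodCongr (Equiv.addRight (round y))) ?_
    (h2 _ _ (abs_sub_round x) (abs_sub_round y))
  rintro ⟨p, q⟩
  simp only [Equiv.prodCongr_apply, Prod.map_apply, Equiv.coe_addRight]
  push_cast
  ring

lemma inside_eq_Io {x y r R2 : ℝ} (h : r ^ 2 = R2) : inside x y r = Io R2 x y := by
  subst h; rfl

lemma Io_subset_inside {x y r R2 : ℝ} (h : R2 ≤ r ^ 2) : Io R2 x y ⊆ inside x y r := by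
  intro p hp
  exact lt_of_lt_of_le hp h

lemma Ic_subset_inside {x y r R2 : ℝ} (h : R2 < r ^ 2) : Ic R2 x y ⊆ inside x y r := by
  intro p hp
  exact lt_of_le_of_lt hp h

/-- Non-MC criterion. -/
theorem not_isMC_of {R2 : ℝ} {a need n : ℕ} (h1 : a < n) (h2 : n < need)
    (hG : ∀ x y, Good R2 a need x y)
    (hA : ∀ ε > 0, ∃ x y r, R2 - ε < r ^ 2 ∧ Encloses n x y r) : ¬ IsMC n := by
  rintro ⟨x, y, r, ⟨hr, hn⟩, hmax⟩
  have hlt : r ^ 2 < R2 := by
    by_contra hcon
    have hle : R2 ≤ r ^ 2 := not_lt.1 hcon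
    rcases hG x y with hg | ⟨hg1, hg2⟩
    · have := hg.trans (Set.encard_le_encard (Io_subset_inside hle))
      rw [hn] at this
      have : need ≤ n := by exact_mod_cast this
      omega
    · rcases hle.eq_or_lt with he | hlt
      · rw [inside_eq_Io he.symm, hg1] at hn
        have : a = n := by exact_mod_cast hn
        omega
      · have := hg2.trans (Set.encard_le_encard (Ic_subset_inside hlt))
        rw [hn] at this
        have : need ≤ n := by exact_mod_cast this
        omega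
  obtain ⟨x', y', r', h3, h4⟩ := hA (R2 - r ^ 2) (by linarith)
  have h5 := hmax x' y' r' h4
  have h6 := h4.1
  nlinarith

/-- MC-circle criterion. -/
theorem isMCCircle_of {R2 : ℝ} {n need : ℕ} (h2 : n < need)
    (hG : ∀ x y, Good R2 n need x y) {x y r : ℝ} (hr : 0 < r) (hr2 : r ^ 2 = R2)
    (hn : (Io R2 x y).encard = n) : IsMCCircle n x y r := by
  refine ⟨⟨hr, by rw [inside_eq_Io hr2]; exact hn⟩, ?_⟩
  rintro x' y' r' ⟨hr', hn'⟩
  by_contra hcon
  have hlt : R2 < r' ^ 2 := by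
    rw [← hr2]; push Not at hcon; nlinarith
  have key : (need : ℕ∞) ≤ (inside x' y' r').encard := by
    rcases hG x' y' with hg | ⟨_, hg2⟩
    · exact hg.trans (Set.encard_le_encard (Io_subset_inside hlt.le))
    · exact hg2.trans (Set.encard_le_encard (Ic_subset_inside hlt))
  rw [hn'] at key
  have : need ≤ n := by exact_mod_cast key
  omega

/-! ### Approximation from below -/

/-- `w^2` times the squared distance to `(u/w, v/w)`. -/
def nrm (w u v : ℤ) (p : ℤ × ℤ) : ℤ := (w * p.1 - u) ^ 2 + (w * p.2 - v) ^ 2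

def dot (w u v α β : ℤ) (p : ℤ × ℤ) : ℤ := α * (w * p.1 - u) + β * (w * p.2 - v)

lemma dot_bound (w u v α β : ℤ) (p : ℤ × ℤ) :
    2 * |dot w u v α β p| ≤ nrm w u v p + (α ^ 2 + β ^ 2) := by
  rw [dot, nrm]
  have h1 := sq_nonneg (w * p.1 - u - α)
  have h2 := sq_nonneg (w * p.2 - v - β)
  have h3 := sq_nonneg (w * p.1 - u + α)
  have h4 := sq_nonneg (w * p.2 - v + β)
  rcases abs_cases (α * (w * p.1 - u) + β * (w * p.2 - v)) with ⟨h, _⟩ | ⟨h, _⟩ <;> rw [h] <;> nlinarith

theorem approx_of {s w u v α β : ℤ} {c : ℕ} (hw : 0 < w) (hs : 0 < s) {n : ℕ}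
    (hn : {p : ℤ × ℤ | nrm w u v p < s ∨ (nrm w u v p = s ∧ c < dot w u v α β p)}.encard = n) :
    ∀ ε > 0, ∃ x y r : ℝ, (s : ℝ) / w ^ 2 - ε < r ^ 2 ∧ Encloses n x y r := by
  intro ε hε
  have hwR : (0 : ℝ) < w := by exact_mod_cast hw
  have hw1 : (1 : ℝ) ≤ w := by exact_mod_cast hw
  have hsR : (1 : ℝ) ≤ s := by exact_mod_cast hs
  have hcR : (0 : ℝ) ≤ (c : ℝ) := Nat.cast_nonneg c
  set A2 : ℝ := (α : ℝ) ^ 2 + (β : ℝ) ^ 2 with hA2
  have hA2n : 0 ≤ A2 := by positivity
  -- the small parameter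
  obtain ⟨t, ht0, ht1, htε⟩ : ∃ t : ℝ, 0 < t ∧ t * (4 * (s + A2 + c + 1)) < 1 ∧
      t * (2 * c + 1) < ε := by
    have hpos : (0 : ℝ) < 4 * (s + A2 + c + 1) := by positivity
    have hpos2 : (0 : ℝ) < 2 * c + 1 := by positivity
    refine ⟨min (1 / (2 * (4 * (s + A2 + c + 1)))) (ε / (2 * (2 * c + 1))), by positivity, ?_, ?_⟩
    · have h1 : min (1 / (2 * (4 * (s + A2 + c + 1)))) (ε / (2 * (2 * c + 1))) ≤
          1 / (2 * (4 * (s + A2 + c + 1))) := min_le_left _ _
      calc _ ≤ 1 / (2 * (4 * (s + A2 + c + 1))) * (4 * (s + A2 + c + 1)) := by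
            apply mul_le_mul_of_nonneg_right h1 hpos.le
        _ = 1 / 2 := by field_simp
        _ < 1 := by norm_num
    · have h1 : min (1 / (2 * (4 * (s + A2 + c + 1)))) (ε / (2 * (2 * c + 1))) ≤
          ε / (2 * (2 * c + 1)) := min_le_right _ _
      calc _ ≤ ε / (2 * (2 * c + 1)) * (2 * c + 1) := by
            apply mul_le_mul_of_nonneg_right h1 hpos2.le
        _ = ε / 2 := by field_simp
        _ < ε := by linarith
  have ht4 : t < 1 / 4 := by nlinarith
  have htc : t * (2 * c + 1) < 1 / 2 := by nlinarith [mul_nonneg ht0.le hA2n]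
  have hst : 0 < (s : ℝ) - t * (2 * c + 1) := by linarith
  refine ⟨(u + t * α) / w, (v + t * β) / w, Real.sqrt ((s - t * (2 * c + 1)) / w ^ 2), ?_, ?_, ?_⟩
  · rw [Real.sq_sqrt (by positivity)]
    rw [sub_div]
    have : t * (2 * c + 1) / (w : ℝ) ^ 2 ≤ t * (2 * c + 1) := by
      apply div_le_self (by positivity)
      nlinarith
    linarith
  · positivity
  · rw [← hn]
    congr 1
    ext p
    rw [inside, Set.mem_ofPred_eq, Set.mem_ofPred_eq, Real.sq_sqrt (by positivity)]
    have e1 : ((p.1 : ℝ) - (u + t * α) / w) ^ 2 + ((p.2 : ℝ) - (v + t * β) / w) ^ 2 =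
        ((nrm w u v p : ℤ) - 2 * t * (dot w u v α β p : ℤ) + t ^ 2 * A2) / w ^ 2 := by
      rw [nrm, dot, hA2]
      push_cast
      field_simp
      ring
    rw [e1, div_lt_div_iff_of_pos_right (by positivity)]
    have hd := dot_bound w u v α β p
    have hdR : 2 * |((dot w u v α β p : ℤ) : ℝ)| ≤ (nrm w u v p : ℤ) + A2 := by
      rw [hA2]; exact_mod_cast hd
    have hN0 : (0 : ℝ) ≤ (nrm w u v p : ℤ) := by
      rw [nrm]; push_cast; positivity
    set N : ℤ := nrm w u v p with hN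
    set d : ℤ := dot w u v α β p with hdd
    have habs1 := le_abs_self ((d : ℤ) : ℝ)
    have habs2 := neg_abs_le ((d : ℤ) : ℝ)
    have ht2 : t ^ 2 * A2 ≤ t * A2 := by
      apply mul_le_mul_of_nonneg_right _ hA2n
      nlinarith
    have ht2' : 0 ≤ t ^ 2 * A2 := by positivity
    have htA : 0 ≤ t * A2 := by positivity
    have htcc : 0 ≤ t * c := by positivity
    have hts : 0 ≤ t * s := by positivity
    constructor
    · intro hlt
      rcases lt_trichotomy N s with h | h | h
      · exact Or.inl h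
      · refine Or.inr ⟨h, ?_⟩
        by_contra hc
        have hc' : (d : ℝ) ≤ c := by exact_mod_cast (not_lt.1 hc)
        have hNs : (N : ℝ) = s := by exact_mod_cast h
        rw [hNs] at hlt
        have h7 : t * d ≤ t * c := mul_le_mul_of_nonneg_left hc' ht0.le
        nlinarith
      · exfalso
        have hNs : (s : ℝ) + 1 ≤ N := by exact_mod_cast h
        have h5 : t * (2 * d) ≤ t * (N + A2) := by
          apply mul_le_mul_of_nonneg_left _ ht0.le
          linarith
        have h6 : (N : ℝ) * (1 - t) ≥ (s + 1) * (1 - t) := by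
          apply mul_le_mul_of_nonneg_right hNs; linarith
        nlinarith
    · rintro (h | ⟨h, h'⟩)
      · have hNs : (N : ℝ) + 1 ≤ s := by exact_mod_cast h
        have h5 : -(t * (2 * d)) ≤ t * (N + A2) := by
          have : -(2 * (d : ℝ)) ≤ N + A2 := by linarith
          nlinarith
        have h6 : t * N ≤ t * s := mul_le_mul_of_nonneg_left (by linarith) ht0.le
        nlinarith
      · have hNs : (N : ℝ) = s := by exact_mod_cast h
        have hd1 : (c : ℝ) + 1 ≤ d := by exact_mod_cast h'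
        have h7 : t * (c + 1) ≤ t * d := mul_le_mul_of_nonneg_left hd1 ht0.le
        have h8 : t * (t * A2) < t * 1 := by
          apply mul_lt_mul_of_pos_left _ ht0
          nlinarith
        rw [hNs]
        nlinarith

end Pool.Agent.V11319.MC
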