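import Pool.Agent.V11319.MCBase

namespace Pool.Agent.V11319.MC

/-! ### Rows of lattice points -/

/-- the row `{(i, j) : -c2 < i ≤ c1}` -/
noncomputable def rowSet (c1 c2 : ℕ) (j : ℤ) : Finset (ℤ × ℤ) :=
  (Finset.Ioc (-(c2 : ℤ)) (c1 : ℤ)).map ⟨fun i => (i, j), fun a b h => by simpa using h⟩

lemma mem_rowSet {c1 c2 : ℕ} {j : ℤ} {p : ℤ × ℤ} :
    p ∈ rowSet c1 c2 j ↔ (-(c2 : ℤ) < p.1 ∧ p.1 ≤ c1) ∧ p.2 = j := by
  rw [rowSet, Finset.mem_map]
  constructor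
  · rintro ⟨i, hi, rfl⟩
    exact ⟨Finset.mem_Ioc.1 hi, rfl⟩
  · rintro ⟨h, rfl⟩
    exact ⟨p.1, Finset.mem_Ioc.2 h, rfl⟩

lemma card_rowSet (c1 c2 : ℕ) (j : ℤ) : (rowSet c1 c2 j).card = c1 + c2 := by
  rw [rowSet, Finset.card_map, Int.card_Ioc]
  omega

def sumRows (h : ℕ → ℕ → ℕ) : ℕ → List ℕ → ℕ
  | _, [] => 0
  | k, g :: t => h k g + sumRows h (k + 1) t

def allRows (ok : ℕ → ℕ → Bool) : ℕ → List ℕ → Bool
  | _, [] => true
  | k, g :: t => ok k g && allRows ok (k + 1) t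

lemma up_exists {h : ℕ → ℕ → ℕ} {P : ℤ × ℤ → Prop}
    (H : ∀ k g, ∃ G : Finset (ℤ × ℤ), G.card = h k g ∧ ∀ p ∈ G, p.2 = (k : ℤ) + 1 ∧ P p) :
    ∀ (l : List ℕ) (k : ℕ), ∃ F : Finset (ℤ × ℤ), F.card = sumRows h k l ∧
      ∀ p ∈ F, (k : ℤ) + 1 ≤ p.2 ∧ P p := by
  intro l
  induction l with
  | nil => intro k; exact ⟨∅, by simp [sumRows], by simp⟩
  | cons g t ih =>
    intro k
    obtain ⟨F, hF1, hF2⟩ := ih (k + 1)
    obtain ⟨G, hG1, hG2⟩ := H k g
    have hd : Disjoint G F := by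
      rw [Finset.disjoint_left]
      intro p hp hq
      have h1 := (hG2 p hp).1
      have h2 := (hF2 p hq).1
      push_cast at h2
      omega
    refine ⟨G ∪ F, ?_, ?_⟩
    · rw [Finset.card_union_of_disjoint hd, hG1, hF1, sumRows]
    · intro p hp
      rcases Finset.mem_union.1 hp with h1 | h1
      · exact ⟨(hG2 p h1).1.ge, (hG2 p h1).2⟩
      · have := (hF2 p h1).1
        push_cast at this
        exact ⟨by omega, (hF2 p h1).2⟩

lemma dn_exists {h : ℕ → ℕ → ℕ} {P : ℤ × ℤ → Prop}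
    (H : ∀ k g, ∃ G : Finset (ℤ × ℤ), G.card = h k g ∧ ∀ p ∈ G, p.2 = -(k : ℤ) ∧ P p) :
    ∀ (l : List ℕ) (k : ℕ), ∃ F : Finset (ℤ × ℤ), F.card = sumRows h k l ∧
      ∀ p ∈ F, p.2 ≤ -(k : ℤ) ∧ P p := by
  intro l
  induction l with
  | nil => intro k; exact ⟨∅, by simp [sumRows], by simp⟩
  | cons g t ih =>
    intro k
    obtain ⟨F, hF1, hF2⟩ := ih (k + 1)
    obtain ⟨G, hG1, hG2⟩ := H k g
    have hd : Disjoint G F := by
      rw [Finset.disjoint_left]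
      intro p hp hq
      have h1 := (hG2 p hp).1
      have h2 := (hF2 p hq).1
      push_cast at h2
      omega
    refine ⟨G ∪ F, ?_, ?_⟩
    · rw [Finset.card_union_of_disjoint hd, hG1, hF1, sumRows]
    · intro p hp
      rcases Finset.mem_union.1 hp with h1 | h1
      · exact ⟨(hG2 p h1).1.le, (hG2 p h1).2⟩
      · have := (hF2 p h1).1
        push_cast at this
        exact ⟨by omega, (hF2 p h1).2⟩

lemma both_exists {hu hd : ℕ → ℕ → ℕ} {P : ℤ × ℤ → Prop}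
    (Hu : ∀ k g, ∃ G : Finset (ℤ × ℤ), G.card = hu k g ∧ ∀ p ∈ G, p.2 = (k : ℤ) + 1 ∧ P p)
    (Hd : ∀ k g, ∃ G : Finset (ℤ × ℤ), G.card = hd k g ∧ ∀ p ∈ G, p.2 = -(k : ℤ) ∧ P p)
    (lu ld : List ℕ) :
    ∃ F : Finset (ℤ × ℤ), F.card = sumRows hu 0 lu + sumRows hd 0 ld ∧ ∀ p ∈ F, P p := by
  obtain ⟨F1, h1, h2⟩ := up_exists Hu lu 0
  obtain ⟨F2, h3, h4⟩ := dn_exists Hd ld 0
  have hdj : Disjoint F1 F2 := by
    rw [Finset.disjoint_left]
    intro p hp hq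
    have a1 := (h2 p hp).1
    have a2 := (h4 p hq).1
    push_cast at a1 a2
    omega
  refine ⟨F1 ∪ F2, by rw [Finset.card_union_of_disjoint hdj, h1, h3], ?_⟩
  intro p hp
  rcases Finset.mem_union.1 hp with h | h
  · exact (h2 p h).2
  · exact (h4 p h).2

/-! ### Lower bound over a box -/

def newton (M : ℕ) : ℕ → ℕ → ℕ
  | 0, g => g
  | k + 1, g => newton M k ((g + M / g) / 2)

def tQ (S W V Q : ℕ) : Bool := Nat.blt (W * (Q * Q + V * V)) S

def rowC (S W D X1 X2 V Q : ℕ) : ℕ :=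
  bif tQ S W V Q then (Q + X1) / D + (Q + (D - X2)) / D
  else bif tQ S W V (Q - 1) then ((Q - 1) + X1) / D + ((Q - 1) + (D - X2)) / D
  else 0

def rc (S W D X1 X2 V g : ℕ) : ℕ :=
  rowC S W D X1 X2 V (newton ((S - W * (V * V)) / W) 6 g)

/-- lower bound for the number of lattice points strictly inside every circle with
squared radius `S / (W D^2)` and centre in the box `[X1/D, X2/D] × [Y1/D, Y2/D]`. -/
def boxCount (lu ld : List ℕ) (S W D X1 X2 Y1 Y2 : ℕ) : ℕ :=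
  sumRows (fun k g => rc S W D X1 X2 (D * (k + 1) - Y1) (g * D)) 0 lu +
  sumRows (fun k g => rc S W D X1 X2 (D * k + Y2) (g * D)) 0 ld

lemma row_real {D X1 X2 Q : ℕ} (hD : 0 < D) (hX2 : X2 ≤ D) {x : ℝ}
    (hx1 : (X1 : ℝ) ≤ D * x) (hx2 : (D : ℝ) * x ≤ X2) {i : ℤ}
    (hi1 : -(((Q + (D - X2)) / D : ℕ) : ℤ) < i) (hi2 : i ≤ ((Q + X1) / D : ℕ)) :
    |(D : ℝ) * (i - x)| ≤ Q := by
  rw [abs_le]
  constructor
  · have h1 : ((Q + (D - X2)) / D) * D ≤ Q + (D - X2) := Nat.div_mul_le_self _ _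
    set c2 : ℕ := (Q + (D - X2)) / D with hc2
    have h2 : (c2 : ℝ) * D ≤ Q + (D - X2) := by
      have : ((c2 * D : ℕ) : ℝ) ≤ ((Q + (D - X2) : ℕ) : ℝ) := by exact_mod_cast h1
      push_cast [Nat.cast_sub hX2] at this
      exact this
    have h3 : (1 : ℝ) - c2 ≤ i := by
      have : (1 : ℤ) - c2 ≤ i := by omega
      exact_mod_cast this
    have hDR : (0 : ℝ) < D := by exact_mod_cast hD
    nlinarith
  · have h1 : ((Q + X1) / D) * D ≤ Q + X1 := Nat.div_mul_le_self _ _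
    set c1 : ℕ := (Q + X1) / D with hc1
    have h2 : (c1 : ℝ) * D ≤ Q + X1 := by exact_mod_cast h1
    have h3 : (i : ℝ) ≤ c1 := by exact_mod_cast hi2
    have hDR : (0 : ℝ) < D := by exact_mod_cast hD
    nlinarith

/-- The condition that `p` is strictly inside all the circles of the box. -/
def BoxIn (R2 : ℝ) (D X1 X2 Y1 Y2 : ℕ) (p : ℤ × ℤ) : Prop :=
  ∀ x y : ℝ, (X1 : ℝ) ≤ D * x → (D : ℝ) * x ≤ X2 → (Y1 : ℝ) ≤ D * y → (D : ℝ) * y ≤ Y2 →
    ((p.1 : ℝ) - x) ^ 2 + ((p.2 : ℝ) - y) ^ 2 < R2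

lemma rowC_exists {S W D X1 X2 Y1 Y2 : ℕ} (hD : 0 < D) (hW : 0 < W) (hX2 : X2 ≤ D)
    (V Q : ℕ) (j : ℤ)
    (hV : ∀ y : ℝ, (Y1 : ℝ) ≤ D * y → (D : ℝ) * y ≤ Y2 → |(D : ℝ) * (j - y)| ≤ V) :
    ∃ G : Finset (ℤ × ℤ), G.card = rowC S W D X1 X2 V Q ∧
      ∀ p ∈ G, p.2 = j ∧ BoxIn ((S : ℝ) / (W * D ^ 2)) D X1 X2 Y1 Y2 p := by
  have main : ∀ Q : ℕ, tQ S W V Q = true → ∀ p ∈ rowSet ((Q + X1) / D) ((Q + (D - X2)) / D) j,
      p.2 = j ∧ BoxIn ((S : ℝ) / (W * D ^ 2)) D X1 X2 Y1 Y2 p := by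
    intro Q hQ p hp
    rw [mem_rowSet] at hp
    obtain ⟨⟨hp1, hp2⟩, hp3⟩ := hp
    refine ⟨hp3, ?_⟩
    intro x y hx1 hx2 hy1 hy2
    have h1 := row_real hD hX2 hx1 hx2 hp1 hp2
    have h2 := hV y hy1 hy2
    rw [← hp3] at h2
    rw [tQ, Nat.blt_eq] at hQ
    have hQR : (W : ℝ) * (Q * Q + V * V) < S := by exact_mod_cast hQ
    have hDR : (0 : ℝ) < D := by exact_mod_cast hD
    have hWR : (0 : ℝ) < W := by exact_mod_cast hW
    rw [lt_div_iff₀ (by positivity)]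
    have h3 : ((D : ℝ) * (p.1 - x)) ^ 2 ≤ Q ^ 2 := sq_le_sq' (by linarith [abs_le.1 h1])
      (abs_le.1 h1).2
    have h4 : ((D : ℝ) * (p.2 - y)) ^ 2 ≤ V ^ 2 := sq_le_sq' (by linarith [abs_le.1 h2])
      (abs_le.1 h2).2
    calc (((p.1 : ℝ) - x) ^ 2 + ((p.2 : ℝ) - y) ^ 2) * ((W : ℝ) * (D : ℝ) ^ 2)
        = (W : ℝ) * (((D : ℝ) * (p.1 - x)) ^ 2 + ((D : ℝ) * (p.2 - y)) ^ 2) := by ring
      _ ≤ (W : ℝ) * ((Q : ℝ) ^ 2 + (V : ℝ) ^ 2) := by
          apply mul_le_mul_of_nonneg_left _ hWR.le; linarith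
      _ = (W : ℝ) * ((Q : ℝ) * Q + (V : ℝ) * V) := by ring
      _ < (S : ℝ) := hQR
  rw [rowC]
  cases h1 : tQ S W V Q with
  | true => exact ⟨_, by rw [card_rowSet]; rfl, main Q h1⟩
  | false =>
    cases h2 : tQ S W V (Q - 1) with
    | true => exact ⟨_, by rw [card_rowSet]; rfl, main (Q - 1) h2⟩
    | false => exact ⟨∅, by simp, by simp⟩

lemma boxCount_exists (lu ld : List ℕ) {S W D X1 X2 Y1 Y2 : ℕ} (hD : 0 < D) (hW : 0 < W)
    (hX2 : X2 ≤ D) (hY : Y1 ≤ Y2) (hY2 : Y2 ≤ D) :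
    ∃ F : Finset (ℤ × ℤ), F.card = boxCount lu ld S W D X1 X2 Y1 Y2 ∧
      ∀ p ∈ F, BoxIn ((S : ℝ) / (W * D ^ 2)) D X1 X2 Y1 Y2 p := by
  have hDR : (0 : ℝ) < D := by exact_mod_cast hD
  apply both_exists
  · intro k g
    apply rowC_exists hD hW hX2
    intro y hy1 hy2
    have hle : Y1 ≤ D * (k + 1) := by nlinarith
    rw [abs_le]
    push_cast [Nat.cast_sub hle]
    have hk : (0 : ℝ) ≤ k := Nat.cast_nonneg k
    have hY2R : (Y2 : ℝ) ≤ D := by exact_mod_cast hY2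
    have hY1R : (Y1 : ℝ) ≤ D := by exact_mod_cast hY.trans hY2
    constructor
    · nlinarith
    · nlinarith
  · intro k g
    apply rowC_exists hD hW hX2
    intro y hy1 hy2
    rw [abs_le]
    push_cast
    have hk : (0 : ℝ) ≤ k := Nat.cast_nonneg k
    have hY1R : (0 : ℝ) ≤ Y1 := Nat.cast_nonneg Y1
    have hY2R : (0 : ℝ) ≤ Y2 := Nat.cast_nonneg Y2
    constructor
    · nlinarith
    · nlinarith

/-! ### Exact count around the centre `(u/w, v/w)` -/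

def pickE (M g : ℕ) : ℕ :=
  bif Nat.blt (newton (M - 1) 14 g * newton (M - 1) 14 g) M then newton (M - 1) 14 g
  else newton (M - 1) 14 g - 1

/-- row count of `{i : (w i - u)^2 < s - V^2}` -/
def exRow (s w u V g : ℕ) : ℕ :=
  bif Nat.ble s (V * V) then 0
  else (pickE (s - V * V) g + u) / w + (pickE (s - V * V) g + (w - u)) / w

def exOK (s V g : ℕ) : Bool :=
  Nat.ble s (V * V) ||
    (Nat.blt (pickE (s - V * V) g * pickE (s - V * V) g) (s - V * V) &&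
      Nat.ble (s - V * V) ((pickE (s - V * V) g + 1) * (pickE (s - V * V) g + 1)))

lemma exRow_exists {s w u : ℕ} (hw : 0 < w) (hu : u ≤ w) (v : ℤ) (V g : ℕ) (j : ℤ)
    (hV : (w * j - v) ^ 2 = (V : ℤ) ^ 2) (hok : exOK s V g = true) :
    ∃ G : Finset (ℤ × ℤ), G.card = exRow s w u V g ∧
      ∀ p, p ∈ G ↔ p.2 = j ∧ nrm w u v p < s := by
  rw [exOK, Bool.or_eq_true, Bool.and_eq_true, Nat.ble_eq, Nat.blt_eq, Nat.ble_eq] at hok
  rw [exRow]
  by_cases hs : s ≤ V * V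
  · refine ⟨∅, ?_, ?_⟩
    · have : Nat.ble s (V * V) = true := by rw [Nat.ble_eq]; exact hs
      rw [this]; rfl
    · intro p
      simp only [Finset.notMem_empty, false_iff, not_and]
      rintro rfl
      rw [nrm, hV]
      have hs' : (s : ℤ) ≤ V * V := by exact_mod_cast hs
      nlinarith [sq_nonneg ((w : ℤ) * p.1 - u)]
  · have h2 := hok.resolve_left hs
    have hble : Nat.ble s (V * V) = false := by
      rw [← Bool.not_eq_true, Nat.ble_eq]; exact hs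
    rw [hble]
    set q := pickE (s - V * V) g with hq
    refine ⟨rowSet ((q + u) / w) ((q + (w - u)) / w) j, by rw [card_rowSet]; rfl, ?_⟩
    intro p
    rw [mem_rowSet]
    have hM : ((s - V * V : ℕ) : ℤ) = s - V * V := by
      rw [Nat.cast_sub (by omega)]; push_cast; rfl
    have h3 : (q : ℤ) * q < s - V * V := by rw [← hM]; exact_mod_cast h2.1
    have h4 : (s : ℤ) - V * V ≤ (q + 1) * (q + 1) := by rw [← hM]; exact_mod_cast h2.2
    have hwZ : (0 : ℤ) < w := by exact_mod_cast hw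
    -- the key equivalences
    have k1 : (-((((q + (w - u)) / w : ℕ)) : ℤ) < p.1) ↔ -(q : ℤ) ≤ w * p.1 - u := by
      have e : (((q + (w - u)) / w : ℕ) : ℤ) = ((q : ℤ) + (w - u)) / w := by
        push_cast [Nat.cast_sub hu]; rfl
      rw [e]
      constructor
      · intro h
        have h5 : 1 - p.1 ≤ ((q : ℤ) + (w - u)) / w := by omega
        rw [Int.le_ediv_iff_mul_le hwZ] at h5
        nlinarith
      · intro h
        have h5 : 1 - p.1 ≤ ((q : ℤ) + (w - u)) / w := by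
          rw [Int.le_ediv_iff_mul_le hwZ]; nlinarith
        omega
    have k2 : (p.1 ≤ (((q + u) / w : ℕ) : ℤ)) ↔ (w : ℤ) * p.1 - u ≤ q := by
      have e : (((q + u) / w : ℕ) : ℤ) = ((q : ℤ) + u) / w := by push_cast; rfl
      rw [e, Int.le_ediv_iff_mul_le hwZ]
      constructor <;> intro h <;> nlinarith
    rw [k1, k2]
    constructor
    · rintro ⟨⟨h5, h6⟩, rfl⟩
      refine ⟨rfl, ?_⟩
      rw [nrm, hV]
      have : ((w : ℤ) * p.1 - u) ^ 2 ≤ q ^ 2 := sq_le_sq' h5 h6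
      nlinarith
    · rintro ⟨rfl, h5⟩
      rw [nrm, hV] at h5
      refine ⟨?_, rfl⟩
      have h6 : ((w : ℤ) * p.1 - u) ^ 2 < (q + 1) ^ 2 := by nlinarith
      have h7 := abs_lt_of_sq_lt_sq h6 (by positivity)
      rw [abs_lt] at h7
      omega

lemma up_exact {h : ℕ → ℕ → ℕ} {ok : ℕ → ℕ → Bool} {P : ℤ × ℤ → Prop}
    (H : ∀ k g, ok k g = true → ∃ G : Finset (ℤ × ℤ), G.card = h k g ∧
      ∀ p, p ∈ G ↔ p.2 = (k : ℤ) + 1 ∧ P p) :
    ∀ (l : List ℕ) (k : ℕ), allRows ok k l = true → ∃ F : Finset (ℤ × ℤ),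
      F.card = sumRows h k l ∧ ∀ p, p ∈ F ↔ ((k : ℤ) + 1 ≤ p.2 ∧ p.2 ≤ k + l.length) ∧ P p := by
  intro l
  induction l with
  | nil =>
    intro k _
    refine ⟨∅, by simp [sumRows], ?_⟩
    intro p
    simp only [Finset.notMem_empty, List.length_nil, Nat.cast_zero, false_iff, not_and]
    intro h1
    omega
  | cons g t ih =>
    intro k hk
    rw [allRows, Bool.and_eq_true] at hk
    obtain ⟨F, hF1, hF2⟩ := ih (k + 1) hk.2
    obtain ⟨G, hG1, hG2⟩ := H k g hk.1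
    have hd : Disjoint G F := by
      rw [Finset.disjoint_left]
      intro p hp hq
      have h1 := ((hG2 p).1 hp).1
      have h2 := ((hF2 p).1 hq).1
      push_cast at h2
      omega
    refine ⟨G ∪ F, ?_, ?_⟩
    · rw [Finset.card_union_of_disjoint hd, hG1, hF1, sumRows]
    · intro p
      rw [Finset.mem_union, hG2, hF2]
      push_cast [List.length_cons]
      constructor
      · rintro (⟨h1, h2⟩ | ⟨⟨h1, h2⟩, h3⟩)
        · exact ⟨by omega, h2⟩
        · exact ⟨by omega, h3⟩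
      · rintro ⟨⟨h1, h2⟩, h3⟩
        rcases eq_or_lt_of_le h1 with h4 | h4
        · exact Or.inl ⟨h4.symm, h3⟩
        · exact Or.inr ⟨by omega, h3⟩

lemma dn_exact {h : ℕ → ℕ → ℕ} {ok : ℕ → ℕ → Bool} {P : ℤ × ℤ → Prop}
    (H : ∀ k g, ok k g = true → ∃ G : Finset (ℤ × ℤ), G.card = h k g ∧
      ∀ p, p ∈ G ↔ p.2 = -(k : ℤ) ∧ P p) :
    ∀ (l : List ℕ) (k : ℕ), allRows ok k l = true → ∃ F : Finset (ℤ × ℤ),
      F.card = sumRows h k l ∧ ∀ p, p ∈ F ↔ (p.2 ≤ -(k : ℤ) ∧ -(k + l.length : ℤ) < p.2) ∧ P p := by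
  intro l
  induction l with
  | nil =>
    intro k _
    refine ⟨∅, by simp [sumRows], ?_⟩
    intro p
    simp only [Finset.notMem_empty, List.length_nil, Nat.cast_zero, false_iff, not_and]
    intro h1
    omega
  | cons g t ih =>
    intro k hk
    rw [allRows, Bool.and_eq_true] at hk
    obtain ⟨F, hF1, hF2⟩ := ih (k + 1) hk.2
    obtain ⟨G, hG1, hG2⟩ := H k g hk.1
    have hd : Disjoint G F := by
      rw [Finset.disjoint_left]
      intro p hp hq
      have h1 := ((hG2 p).1 hp).1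
      have h2 := ((hF2 p).1 hq).1
      push_cast at h2
      omega
    refine ⟨G ∪ F, ?_, ?_⟩
    · rw [Finset.card_union_of_disjoint hd, hG1, hF1, sumRows]
    · intro p
      rw [Finset.mem_union, hG2, hF2]
      push_cast [List.length_cons]
      constructor
      · rintro (⟨h1, h2⟩ | ⟨⟨h1, h2⟩, h3⟩)
        · exact ⟨by omega, h2⟩
        · exact ⟨by omega, h3⟩
      · rintro ⟨⟨h1, h2⟩, h3⟩
        rcases eq_or_lt_of_le h1 with h4 | h4
        · exact Or.inl ⟨h4, h3⟩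
        · exact Or.inr ⟨by omega, h3⟩

/-- exact number of `p` with `nrm w u v p < s`. -/
def exCount (lu ld : List ℕ) (s w u v : ℕ) : ℕ :=
  sumRows (fun k g => exRow s w u (w * (k + 1) - v) (g * w)) 0 lu +
  sumRows (fun k g => exRow s w u (w * k + v) (g * w)) 0 ld

def exCheck (lu ld : List ℕ) (s w v : ℕ) : Bool :=
  allRows (fun k g => exOK s (w * (k + 1) - v) (g * w)) 0 lu &&
  allRows (fun k g => exOK s (w * k + v) (g * w)) 0 ld &&
  Nat.ble s ((w * (lu.length + 1) - v) * (w * (lu.length + 1) - v)) &&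
  Nat.ble s ((w * ld.length + v) * (w * ld.length + v))

lemma exCount_spec (lu ld : List ℕ) {s w u v : ℕ} (hw : 0 < w) (hu : u ≤ w) (hv : v ≤ w)
    (hc : exCheck lu ld s w v = true) :
    ∃ F : Finset (ℤ × ℤ), F.card = exCount lu ld s w u v ∧ ∀ p, p ∈ F ↔ nrm w u v p < s := by
  rw [exCheck, Bool.and_eq_true, Bool.and_eq_true, Bool.and_eq_true, Nat.ble_eq, Nat.ble_eq] at hc
  obtain ⟨⟨⟨h1, h2⟩, h3⟩, h4⟩ := hc
  have hwZ : (0 : ℤ) < w := by exact_mod_cast hw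
  have hvZ : (v : ℤ) ≤ w := by exact_mod_cast hv
  obtain ⟨F1, a1, b1⟩ := up_exact (P := fun p => nrm w u v p < s)
    (h := fun k g => exRow s w u (w * (k + 1) - v) (g * w)) (by
      intro k g hok
      refine exRow_exists hw hu v _ _ _ ?_ hok
      have hle : v ≤ w * (k + 1) := by nlinarith
      push_cast [Nat.cast_sub hle]; ring) lu 0 h1
  obtain ⟨F2, a2, b2⟩ := dn_exact (P := fun p => nrm w u v p < s)
    (h := fun k g => exRow s w u (w * k + v) (g * w)) (by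
      intro k g hok
      refine exRow_exists hw hu v _ _ _ ?_ hok
      push_cast; ring) ld 0 h2
  have hdj : Disjoint F1 F2 := by
    rw [Finset.disjoint_left]
    intro p hp hq
    have c1 := ((b1 p).1 hp).1.1
    have c2 := ((b2 p).1 hq).1.1
    push_cast at c1 c2
    omega
  refine ⟨F1 ∪ F2, by rw [Finset.card_union_of_disjoint hdj, a1, a2, exCount], ?_⟩
  intro p
  rw [Finset.mem_union, b1, b2]
  constructor
  · rintro (h | h)
    · exact h.2
    · exact h.2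
  · intro h
    rcases lt_or_ge 0 p.2 with hp | hp
    · left
      refine ⟨⟨by push_cast; omega, ?_⟩, h⟩
      by_contra hcon
      push_cast at hcon
      have h5 : (lu.length : ℤ) + 1 ≤ p.2 := by omega
      have hle : v ≤ w * (lu.length + 1) := by nlinarith
      have h6 : (s : ℤ) ≤ (w * (lu.length + 1) - v) * (w * (lu.length + 1) - v) := by
        have : (s : ℤ) ≤ (((w * (lu.length + 1) - v) * (w * (lu.length + 1) - v) : ℕ) : ℤ) := by
          exact_mod_cast h3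
        rw [Nat.cast_mul, Nat.cast_sub hle] at this
        push_cast at this
        exact this
      have h7 : (w : ℤ) * (lu.length + 1) - v ≤ w * p.2 - v := by nlinarith
      have h8 : (0 : ℤ) ≤ (w : ℤ) * (lu.length + 1) - v := by
        have : (v : ℤ) ≤ ((w * (lu.length + 1) : ℕ) : ℤ) := by exact_mod_cast hle
        push_cast at this; linarith
      rw [nrm] at h
      nlinarith [sq_nonneg ((w : ℤ) * p.1 - u)]
    · right
      refine ⟨⟨by push_cast; omega, ?_⟩, h⟩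
      by_contra hcon
      push_cast at hcon
      have h5 : p.2 ≤ -(ld.length : ℤ) := by omega
      have h6 : (s : ℤ) ≤ (w * ld.length + v) * (w * ld.length + v) := by exact_mod_cast h4
      have h7 : (w : ℤ) * p.2 - v ≤ -(w * ld.length + v) := by nlinarith
      have h8 : (0 : ℤ) ≤ (w : ℤ) * ld.length + v := by positivity
      rw [nrm] at h
      nlinarith [sq_nonneg ((w : ℤ) * p.1 - u)]

end Pool.Agent.V11319.MC
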