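import Pool.Agent.V11319.MCMain

/-! Certificates for special circles. -/

namespace Pool.Agent.V11319.MC

def LF50 : List (ℤ × ℤ) :=
  [(-50, -1), (-50, 1), (-29, -41), (-29, 41), (-26, -43), (-26, 43), (-18, -47), (-18, 47), (19,
  -47), (19, 47), (27, -43), (27, 43), (30, -41), (30, 41), (51, -1), (51, 1)]

def luF50 : List ℕ :=
  [51, 51, 51, 51, 51, 51, 51, 50, 50, 50, 50, 50, 49, 49, 49, 49, 48, 48, 48, 47, 47, 46, 46, 45,
  45, 44, 44, 43, 42, 42, 41, 40, 39, 38, 37, 36, 35, 34, 33, 32, 31, 29, 28, 26, 24, 22, 20, 18,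
  15, 11, 2]

def ldF50 : List ℕ :=
  [51, 51, 51, 51, 51, 51, 51, 51, 50, 50, 50, 50, 50, 49, 49, 49, 48, 48, 48, 47, 47, 46, 46, 45,
  45, 44, 44, 43, 43, 42, 41, 40, 40, 39, 38, 37, 36, 35, 34, 33, 31, 30, 29, 27, 25, 23, 21, 19,
  16, 13, 8]

def tF50 : QT :=
  (.node (.node .leaf .out (.node .leaf .leaf .leaf .leaf) (.node .leaf .out .leaf .leaf)) .out
  (.node (.node .leaf .leaf .leaf .leaf) (.node .leaf .leaf .leaf (.node .leaf .leaf .leaf .leaf))
  (.node (.node .leaf .leaf .leaf (.node .leaf .leaf .leaf .leaf)) (.node .leaf .leaf .leaf .leaf)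
  (.node (.node .leaf .leaf .leaf .leaf) (.node .leaf .leaf .leaf .leaf) (.node (.node .leaf
  (.node .leaf .leaf .leaf .leaf) .leaf (.node .leaf .leaf .leaf .leaf)) (.node (.node .leaf .leaf
  (.node .leaf .leaf .leaf .leaf) .leaf) .leaf .leaf .leaf) (.node (.node .leaf .leaf .leaf (.node
  .leaf .leaf .leaf .leaf)) .leaf .spec .leaf) .leaf) (.node .leaf .leaf .leaf .leaf)) (.node
  .leaf .leaf (.node .leaf .leaf .leaf .leaf) .leaf)) (.node .leaf (.node .leaf .leaf .leaf .leaf)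
  (.node .leaf .leaf .leaf (.node .leaf .leaf .leaf .leaf)) (.node (.node .leaf .leaf .leaf .leaf)
  (.node .leaf .leaf .leaf .leaf) (.node .leaf .leaf .leaf (.node .leaf .leaf .leaf .leaf)) (.node
  .leaf .leaf .leaf .leaf)))) (.node (.node .leaf .out .leaf (.node .leaf .out .leaf .leaf)) .out
  (.node .leaf .leaf (.node .leaf .leaf (.node .leaf .leaf .leaf .leaf) .leaf) .leaf) (.node
  (.node .leaf .out .leaf .leaf) .out (.node .leaf .leaf .leaf .leaf) .leaf)))

lemma checksF50 : allChecks LF50 luF50 ldF50 10205 2 1 0 128 1 3 8001 7998 8014 tF50 = true := by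
  decide +kernel

theorem factsF50 : Facts LF50 10205 2 1 0 8001 7998 8014 :=
  facts_of_checks checksF50

theorem not_isMC_8000 : ¬ IsMC 8000 :=
  factsF50.not_isMC (by norm_num) (by norm_num) (-1) (-1) 131 (by decide +kernel)

end Pool.Agent.V11319.MC
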