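import Pool.Agent.V11319.MCMain

/-! Certificates for special circles. -/

namespace Pool.Agent.V11319.MC

def LG19 : List (ℤ × ℤ) :=
  [(-18, -4), (-18, 5), (-17, -7), (-17, 8), (-16, -9), (-16, 10), (-9, -16), (-9, 17), (-7, -17),
  (-7, 18), (-4, -18), (-4, 19), (5, -18), (5, 19), (8, -17), (8, 18), (10, -16), (10, 17), (17,
  -9), (17, 10), (18, -7), (18, 8), (19, -4), (19, 5)]

def luG19 : List ℕ :=
  [20, 19, 19, 19, 19, 19, 18, 18, 18, 17, 16, 16, 15, 14, 13, 12, 10, 8, 5]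

def ldG19 : List ℕ :=
  [20, 20, 19, 19, 19, 19, 19, 18, 18, 17, 17, 16, 15, 14, 13, 12, 11, 9, 7, 2]

def tG19 : QT :=
  (.node (.node (.node (.node .leaf .out .leaf (.node .leaf .out .leaf .leaf)) .out (.node .leaf
  (.node .leaf .leaf .leaf .leaf) .leaf .leaf) (.node .leaf .out .leaf .leaf)) .out (.node .leaf
  .leaf (.node .leaf .leaf .leaf .leaf) .leaf) .leaf) .out (.node (.node .leaf .leaf .leaf .leaf)
  .leaf .leaf .leaf) (.node .leaf .out .leaf .spec))

lemma checksG19 : allChecks LG19 luG19 ldG19 1450 2 1 1 8 1 6 1130 1124 1148 tG19 = true := by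
  decide +kernel

theorem factsG19 : Facts LG19 1450 2 1 1 1130 1124 1148 :=
  facts_of_checks checksG19

theorem not_isMC_1129 : ¬ IsMC 1129 :=
  factsG19.not_isMC (by norm_num) (by norm_num) (-3) (-2) 101 (by decide +kernel)

def LG27 : List (ℤ × ℤ) :=
  [(-25, -9), (-25, 9), (-22, -15), (-22, 15), (-1, -27), (-1, 27), (2, -27), (2, 27), (23, -15),
  (23, 15), (26, -9), (26, 9)]

def luG27 : List ℕ :=
  [28, 28, 27, 27, 27, 27, 27, 26, 26, 26, 25, 25, 24, 24, 23, 23, 22, 21, 20, 19, 18, 17, 16, 14,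
  12, 10, 6]

def ldG27 : List ℕ :=
  [28, 28, 27, 27, 27, 27, 27, 27, 26, 26, 26, 25, 25, 24, 24, 23, 22, 22, 21, 20, 19, 18, 16, 15,
  13, 11, 8, 2]

def tG27 : QT :=
  (.node (.node (.node .leaf .out .leaf (.node .leaf .out .leaf .leaf)) .out (.node (.node .leaf
  (.node .leaf .leaf .leaf .leaf) .leaf (.node .leaf .leaf .leaf .leaf)) (.node (.node .leaf .leaf
  .leaf .leaf) .leaf .leaf .leaf) (.node (.node .leaf .leaf .leaf .leaf) (.node .leaf .leaf .leaf
  .leaf) (.node .leaf (.node .leaf .leaf .leaf .leaf) (.node .leaf .leaf .leaf (.node .leaf .leaf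
  .leaf .leaf)) (.node .leaf .leaf .leaf .leaf)) (.node .leaf .leaf .leaf .leaf)) (.node .leaf
  .leaf .leaf .leaf)) (.node (.node .leaf .out .leaf .leaf) .out .leaf .leaf)) .out (.node (.node
  (.node (.node (.node .leaf (.node .leaf (.node .leaf .leaf (.node .leaf .leaf (.node .leaf .leaf
  .leaf .leaf) .leaf) .leaf) .leaf (.node (.node (.node .leaf (.node .leaf .leaf .leaf .leaf)
  .leaf .leaf) (.node .leaf .leaf .leaf .leaf) .leaf .leaf) .leaf .leaf .leaf)) .leaf .leaf)
  (.node (.node .leaf .leaf .leaf .leaf) .leaf .leaf .leaf) .leaf .leaf) (.node .leaf .leaf (.node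
  .leaf .leaf .leaf .leaf) .leaf) .leaf .leaf) (.node (.node .leaf .leaf .leaf .leaf) .leaf .leaf
  .leaf) (.node .leaf .leaf .leaf .leaf) (.node .leaf .leaf .leaf .leaf)) (.node .leaf .leaf .leaf
  .leaf) (.node (.node .leaf .leaf .leaf .leaf) .leaf (.node .leaf .leaf .spec .leaf) .leaf)
  (.node .leaf .leaf .leaf .leaf)) (.node (.node .leaf .out .leaf .leaf) .out (.node .leaf .leaf
  .leaf .leaf) (.node .leaf .out .leaf .leaf)))

lemma checksG27 : allChecks LG27 luG27 ldG27 2925 2 1 0 32 1 4 2290 2286 2298 tG27 = true := by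
  decide +kernel

theorem factsG27 : Facts LG27 2925 2 1 0 2290 2286 2298 :=
  facts_of_checks checksG27

theorem not_isMC_2289 : ¬ IsMC 2289 :=
  factsG27.not_isMC (by norm_num) (by norm_num) (-1) (-1) 51 (by decide +kernel)

end Pool.Agent.V11319.MC
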