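import Pool.Agent.V11319.MCMain

/-! Certificates for special circles. -/

namespace Pool.Agent.V11319.MC

def LS11202 : List (ℤ × ℤ) :=
  [(-55, 23), (-42, -42), (0, 60), (23, -55), (60, 0)]

def luS11202 : List ℕ :=
  [60, 60, 60, 60, 60, 60, 60, 60, 60, 59, 59, 59, 59, 59, 58, 58, 58, 58, 57, 57, 57, 56, 56, 55,
  55, 55, 54, 54, 53, 52, 52, 51, 51, 50, 49, 49, 48, 47, 46, 45, 44, 43, 42, 41, 40, 39, 38, 37,
  35, 34, 32, 31, 29, 27, 25, 23, 20, 17, 13, 6]

def ldS11202 : List ℕ :=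
  [60, 60, 60, 60, 60, 60, 60, 60, 60, 60, 59, 59, 59, 59, 59, 58, 58, 58, 57, 57, 57, 56, 56, 56,
  55, 55, 54, 54, 53, 53, 52, 52, 51, 50, 50, 49, 48, 47, 47, 46, 45, 44, 43, 42, 41, 40, 39, 37,
  36, 35, 33, 32, 30, 28, 26, 24, 21, 18, 15, 10]

def tS11202 : QT :=
  (.node (.node (.node .leaf .out (.node .leaf .leaf .leaf .leaf) (.node .leaf .out .leaf .leaf))
  .out (.node (.node .leaf .leaf .leaf .leaf) (.node .leaf .leaf .leaf .leaf) (.node .leaf .leaf
  .leaf (.node .leaf .leaf .leaf .leaf)) (.node .leaf .leaf .leaf (.node .leaf .leaf .leaf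
  .leaf))) (.node (.node .leaf .out .leaf .leaf) .out (.node .leaf .leaf .leaf .leaf) (.node .leaf
  .out .leaf (.node .leaf .out .leaf (.node .leaf .out .leaf .spec))))) .out (.node (.node (.node
  .leaf .leaf (.node .leaf .leaf .leaf .leaf) .leaf) (.node (.node .leaf .leaf .leaf .leaf) .leaf
  .leaf .leaf) (.node .leaf .leaf .leaf .leaf) (.node .leaf .leaf .leaf (.node .leaf .leaf .leaf
  (.node .leaf .leaf .leaf .leaf)))) (.node (.node .leaf .leaf .leaf .leaf) (.node (.node .leaf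
  .leaf .leaf .leaf) (.node (.node .leaf .leaf .leaf .leaf) (.node .leaf .spec .leaf .leaf) .leaf
  .leaf) .leaf (.node .leaf .leaf .leaf .leaf)) (.node .leaf (.node .leaf .leaf .leaf .leaf)
  (.node .leaf .leaf (.node .leaf .leaf .leaf .leaf) .leaf) (.node .leaf .leaf .leaf .leaf))
  (.node .leaf .leaf .leaf .leaf)) (.node (.node .leaf .leaf .leaf .leaf) (.node (.node .leaf
  .leaf .leaf .leaf) (.node (.node .leaf .leaf .leaf .leaf) (.node .leaf (.node .leaf .leaf .leaf
  .leaf) .leaf .leaf) .leaf .leaf) .leaf .leaf) (.node (.node .leaf .leaf .leaf .leaf) .leaf .leaf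
  .leaf) (.node .leaf .leaf .leaf .leaf)) (.node (.node (.node .leaf .leaf .leaf .leaf) .leaf
  .leaf .leaf) (.node .leaf .leaf .leaf .leaf) (.node .leaf .leaf .leaf .leaf) .leaf)) (.node
  (.node (.node (.node (.node .spec .out .leaf .leaf) .out .leaf .leaf) .out (.node .leaf .leaf
  .leaf .leaf) .leaf) .out (.node .leaf .leaf .leaf .leaf) .leaf) .out (.node (.node .leaf .leaf
  .leaf .leaf) .leaf .leaf .leaf) (.node .leaf .out .leaf (.node .leaf .out .leaf .leaf))))

lemma checksS11202 : allChecks LS11202 luS11202 ldS11202 57122 4 1 1 96 4 2 11204 11202 11207 tS11202 = true := by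
  decide +kernel

theorem factsS11202 : Facts LS11202 57122 4 1 1 11204 11202 11207 :=
  facts_of_checks checksS11202

theorem not_isMC_11203 : ¬ IsMC 11203 :=
  factsS11202.not_isMC (by norm_num) (by norm_num) (-1) (-1) 130 (by decide +kernel)

end Pool.Agent.V11319.MC
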