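import Pool.Agent.V11319.MCMain

/-! Certificates for special circles. -/

namespace Pool.Agent.V11319.MC

def LS1748 : List (ℤ × ℤ) :=
  [(-23, 4), (-21, -10), (-14, 19), (5, -23), (23, 7), (24, 0)]

def luS1748 : List ℕ :=
  [24, 24, 24, 24, 24, 24, 23, 23, 23, 22, 22, 21, 21, 20, 19, 18, 17, 16, 15, 14, 12, 10, 8, 3]

def ldS1748 : List ℕ :=
  [24, 24, 24, 24, 24, 24, 23, 23, 23, 22, 22, 21, 21, 20, 20, 19, 18, 17, 16, 15, 13, 11, 9, 6]

def tS1748 : QT :=
  (.node (.node (.node .leaf .out .leaf .leaf) .out .leaf (.node .leaf .out .leaf .leaf)) .out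
  (.node (.node .leaf .leaf .leaf .leaf) (.node .leaf .leaf (.node .leaf .spec .leaf .spec) (.node
  .spec .leaf .spec .leaf)) (.node .leaf .leaf .leaf (.node .leaf .leaf .leaf .leaf)) (.node .leaf
  (.node .leaf .leaf .leaf .leaf) .leaf .leaf)) (.node (.node (.node .leaf .out .leaf .leaf) .out
  (.node .leaf .leaf .leaf .leaf) .leaf) .out (.node .leaf .leaf .leaf .leaf) .leaf))

lemma checksS1748 : allChecks LS1748 luS1748 ldS1748 378250 26 9 5 24 1 2 1750 1748 1754 tS1748 = true := by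
  decide +kernel

theorem factsS1748 : Facts LS1748 378250 26 9 5 1750 1748 1754 :=
  facts_of_checks checksS1748

theorem not_isMC_1749 : ¬ IsMC 1749 :=
  factsS1748.not_isMC (by norm_num) (by norm_num) (-1) (-1) 508 (by decide +kernel)

end Pool.Agent.V11319.MC
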