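import Pool.Agent.V11319.MCMulti

/-! Certificates for two special circles of equal radius. -/

namespace Pool.Agent.V11319.MC

def luU322 : List ℕ :=
  [11, 11, 10, 10, 10, 9, 8, 7, 6, 4]

def ldU322 : List ℕ :=
  [11, 11, 11, 10, 10, 9, 9, 8, 7, 5, 3]

def LU322a : List (ℤ × ℤ) :=
  [(-7, 7), (-1, -10), (2, -10), (8, 7)]

theorem cfactsU322a : CFacts LU322a 120250 34 17 3 24 323 322 :=
  cfacts_of_checks (lu := luU322) (ld := ldU322) (K := 1) (m := 1) (b := 326)
    (by decide +kernel)

def LU322b : List (ℤ × ℤ) :=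
  [(-9, -4), (-5, 9), (-4, -9), (9, -5)]

theorem cfactsU322b : CFacts LU322b 120250 34 9 9 16 323 322 :=
  cfacts_of_checks (lu := luU322) (ld := ldU322) (K := 1) (m := 1) (b := 326)
    (by decide +kernel)

def tU322 : QT :=
  (.node (.node .leaf .out (.node .leaf .leaf .leaf .leaf) (.node .leaf .out .leaf (.node (.node
  .leaf .out .leaf .spec) .out .leaf .spec))) .out (.node (.node .leaf .leaf .leaf .leaf) (.node
  .leaf (.node .leaf .spec .leaf .spec) .leaf .leaf) (.node .leaf (.node .leaf .leaf .leaf .leaf)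
  .leaf (.node .leaf (.node .leaf .leaf .leaf .leaf) .spec .spec)) (.node (.node .leaf .leaf .leaf
  .leaf) .leaf (.node .leaf .leaf .leaf .leaf) .leaf)) (.node (.node .spec .out .leaf .leaf) .out
  .leaf .leaf))

theorem goodU322 : ∀ x y, Good (((120250 : ℕ) : ℝ) / ((34 : ℕ) : ℝ) ^ 2) 322 323 x y :=
  good_of_tree2 (lu := luU322) (ld := ldU322) (t := tU322) cfactsU322a cfactsU322b (by decide +kernel)

theorem factsU322a : Facts LU322a 120250 34 17 3 323 322 326 := cfactsU322a.toFacts goodU322

theorem factsU322b : Facts LU322b 120250 34 9 9 323 322 326 := cfactsU322b.toFacts goodU322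

end Pool.Agent.V11319.MC
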