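import Mathlib

/-!
Circles in the plane and the lattice points they enclose: basic definitions.
-/

namespace Pool.Agent.V11319.MC

/-- The lattice points strictly inside the circle with centre `(x, y)` and radius `r`. -/
def inside (x y r : ℝ) : Set (ℤ × ℤ) :=
  {p | ((p.1 : ℝ) - x) ^ 2 + ((p.2 : ℝ) - y) ^ 2 < r ^ 2}

/-- The lattice points on the circle with centre `(x, y)` and radius `r`. -/
def onCircle (x y r : ℝ) : Set (ℤ × ℤ) :=
  {p | ((p.1 : ℝ) - x) ^ 2 + ((p.2 : ℝ) - y) ^ 2 = r ^ 2}

/-- The circle with centre `(x, y)` and radius `r` is `n`-enclosing: `r > 0` and exactly `n`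
lattice points lie strictly inside it. -/
def Encloses (n : ℕ) (x y r : ℝ) : Prop := 0 < r ∧ (inside x y r).encard = n

/-- The circle with centre `(x, y)` and radius `r` is an MC-circle of `n`: a largest
`n`-enclosing circle. -/
def IsMCCircle (n : ℕ) (x y r : ℝ) : Prop :=
  Encloses n x y r ∧ ∀ x' y' r', Encloses n x' y' r' → r' ≤ r

/-- `n` is an MC number: a largest `n`-enclosing circle exists. -/
def IsMC (n : ℕ) : Prop := ∃ x y r, IsMCCircle n x y r

/-- `n` is a strong MC number: `n` is MC and `n + 1` is non-MC. -/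
def IsStrongMC (n : ℕ) : Prop := IsMC n ∧ ¬ IsMC (n + 1)

end Pool.Agent.V11319.MC
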