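import Pool.Agent.V11319.MCCount

namespace Pool.Agent.V11319.MC

/-- quadtree certificates -/
inductive QT
  | leaf : QT
  | spec : QT
  | out : QT
  | node : QT → QT → QT → QT → QT

def chkTree (lu ld : List ℕ) (s w u v H need : ℕ) : QT → ℕ → ℕ → ℕ → Bool
  | .leaf, D, X, Y => Nat.ble (X + 1) D && Nat.ble (Y + 1) D &&
      Nat.ble need (boxCount lu ld (s * (D * D)) (w * w) D X (X + 1) Y (Y + 1))
  | .spec, D, X, Y => Nat.ble ((u * H - w) * D) (X * (w * H)) &&
      Nat.ble ((X + 1) * (w * H)) ((u * H + w) * D) &&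
      Nat.ble ((v * H - w) * D) (Y * (w * H)) &&
      Nat.ble ((Y + 1) * (w * H)) ((v * H + w) * D)
  | .out, _, X, Y => Nat.ble (X + 1) Y
  | .node a b c d, D, X, Y =>
      chkTree lu ld s w u v H need a (2 * D) (2 * X) (2 * Y) &&
      chkTree lu ld s w u v H need b (2 * D) (2 * X) (2 * Y + 1) &&
      chkTree lu ld s w u v H need c (2 * D) (2 * X + 1) (2 * Y) &&
      chkTree lu ld s w u v H need d (2 * D) (2 * X + 1) (2 * Y + 1)

def InB (D X : ℕ) (x : ℝ) : Prop := (X = 0 ∨ (X : ℝ) < D * x) ∧ (D : ℝ) * x ≤ X + 1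

lemma InB.low {D X : ℕ} {x : ℝ} (h : InB D X x) (hx : 0 ≤ x) : (X : ℝ) ≤ D * x := by
  rcases h.1 with h1 | h1
  · rw [h1]; push_cast; positivity
  · exact h1.le

lemma InB.split {D X : ℕ} {x : ℝ} (h : InB D X x) :
    InB (2 * D) (2 * X) x ∨ InB (2 * D) (2 * X + 1) x := by
  rcases le_or_gt (2 * (D : ℝ) * x) (2 * X + 1) with h1 | h1
  · left
    refine ⟨?_, by push_cast; linarith⟩
    rcases h.1 with h2 | h2
    · left; omega
    · right; push_cast; linarith
  · right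
    refine ⟨Or.inr (by push_cast; linarith), ?_⟩
    have := h.2
    push_cast; linarith

lemma boxIn_R2 {s w D : ℕ} (hD : 0 < D) :
    (((s * (D * D) : ℕ) : ℝ) / (((w * w : ℕ) : ℝ) * (D : ℝ) ^ 2)) = (s : ℝ) / (w : ℝ) ^ 2 := by
  have hDR : (D : ℝ) ≠ 0 := by positivity
  push_cast
  rw [show (s : ℝ) * (D * D) = s * D ^ 2 by ring, show (w : ℝ) * w * D ^ 2 = w ^ 2 * D ^ 2 by ring]
  exact mul_div_mul_right _ _ (by positivity)

lemma tree_good {lu ld : List ℕ} {s w u v H need a : ℕ} (hw : 0 < w) (hH : 0 < H)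
    (hspec : ∀ x y : ℝ, ((u * H - w : ℕ) : ℝ) ≤ ((w * H : ℕ) : ℝ) * x →
      ((w * H : ℕ) : ℝ) * x ≤ ((u * H + w : ℕ) : ℝ) →
      ((v * H - w : ℕ) : ℝ) ≤ ((w * H : ℕ) : ℝ) * y →
      ((w * H : ℕ) : ℝ) * y ≤ ((v * H + w : ℕ) : ℝ) → Good ((s : ℝ) / (w : ℝ) ^ 2) a need x y) :
    ∀ (t : QT) (D X Y : ℕ), 0 < D → chkTree lu ld s w u v H need t D X Y = true →
      ∀ x y : ℝ, 0 ≤ y → y ≤ x → InB D X x → InB D Y y →
        Good ((s : ℝ) / (w : ℝ) ^ 2) a need x y := by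
  intro t
  induction t with
  | leaf =>
    intro D X Y hD hc x y hy hyx hx1 hy1
    rw [chkTree, Bool.and_eq_true, Bool.and_eq_true, Nat.ble_eq, Nat.ble_eq, Nat.ble_eq] at hc
    obtain ⟨⟨h1, h2⟩, h3⟩ := hc
    obtain ⟨F, hF1, hF2⟩ := boxCount_exists (Y1 := Y) (Y2 := Y + 1) lu ld (S := s * (D * D)) (W := w * w) hD
      (Nat.mul_pos hw hw) h1 (Nat.le_succ Y) h2
    left
    rw [boxIn_R2 hD] at hF2
    have hsub : (F : Set (ℤ × ℤ)) ⊆ Io ((s : ℝ) / (w : ℝ) ^ 2) x y := by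
      intro p hp
      apply hF2 p (by exact_mod_cast hp) x y (hx1.low (hy.trans hyx)) (by push_cast; exact hx1.2)
        (hy1.low hy) (by push_cast; exact hy1.2)
    calc (need : ℕ∞) ≤ (F.card : ℕ∞) := by rw [hF1]; exact_mod_cast h3
      _ = (F : Set (ℤ × ℤ)).encard := (Set.encard_coe_eq_coe_finsetCard F).symm
      _ ≤ _ := Set.encard_le_encard hsub
  | spec =>
    intro D X Y hD hc x y hy hyx hx1 hy1
    rw [chkTree, Bool.and_eq_true, Bool.and_eq_true, Bool.and_eq_true, Nat.ble_eq, Nat.ble_eq,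
      Nat.ble_eq, Nat.ble_eq] at hc
    obtain ⟨⟨⟨h1, h2⟩, h3⟩, h4⟩ := hc
    have hDR : (0 : ℝ) < D := by exact_mod_cast hD
    have hwR : (0 : ℝ) < w := by exact_mod_cast hw
    have hHR : (0 : ℝ) < H := by exact_mod_cast hH
    have h1R : (((u * H - w : ℕ)) : ℝ) * D ≤ X * (w * H) := by exact_mod_cast h1
    have h2R : ((X : ℝ) + 1) * (w * H) ≤ ((u * H + w : ℕ) : ℝ) * D := by exact_mod_cast h2
    have h3R : (((v * H - w : ℕ)) : ℝ) * D ≤ Y * (w * H) := by exact_mod_cast h3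
    have h4R : ((Y : ℝ) + 1) * (w * H) ≤ ((v * H + w : ℕ) : ℝ) * D := by exact_mod_cast h4
    have b1 := hx1.low (hy.trans hyx)
    have b2 := hx1.2
    have b3 := hy1.low hy
    have b4 := hy1.2
    have hwH : (0 : ℝ) < (w : ℝ) * H := by positivity
    apply hspec x y
    · rw [← mul_le_mul_iff_left₀ hDR]
      calc _ ≤ (X : ℝ) * (w * H) := h1R
        _ ≤ (D * x) * (w * H) := mul_le_mul_of_nonneg_right b1 hwH.le
        _ = _ := by push_cast; ring
    · rw [← mul_le_mul_iff_left₀ hDR]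
      calc _ = ((D : ℝ) * x) * (w * H) := by push_cast; ring
        _ ≤ ((X : ℝ) + 1) * (w * H) := mul_le_mul_of_nonneg_right b2 hwH.le
        _ ≤ _ := h2R
    · rw [← mul_le_mul_iff_left₀ hDR]
      calc _ ≤ (Y : ℝ) * (w * H) := h3R
        _ ≤ (D * y) * (w * H) := mul_le_mul_of_nonneg_right b3 hwH.le
        _ = _ := by push_cast; ring
    · rw [← mul_le_mul_iff_left₀ hDR]
      calc _ = ((D : ℝ) * y) * (w * H) := by push_cast; ring
        _ ≤ ((Y : ℝ) + 1) * (w * H) := mul_le_mul_of_nonneg_right b4 hwH.le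
        _ ≤ _ := h4R
  | out =>
    intro D X Y hD hc x y hy hyx hx1 hy1
    exfalso
    rw [chkTree, Nat.ble_eq] at hc
    have hDR : (0 : ℝ) < D := by exact_mod_cast hD
    have h1 : (Y : ℝ) < D * y := by
      rcases hy1.1 with h | h
      · omega
      · exact h
    have h2 := hx1.2
    have h3 : (X : ℝ) + 1 ≤ Y := by exact_mod_cast hc
    nlinarith
  | node ta tb tc td iha ihb ihc ihd =>
    intro D X Y hD hc x y hy hyx hx1 hy1
    rw [chkTree, Bool.and_eq_true, Bool.and_eq_true, Bool.and_eq_true] at hc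
    obtain ⟨⟨⟨h1, h2⟩, h3⟩, h4⟩ := hc
    rcases hx1.split with hx2 | hx2 <;> rcases hy1.split with hy2 | hy2
    · exact iha _ _ _ (by omega) h1 x y hy hyx hx2 hy2
    · exact ihb _ _ _ (by omega) h2 x y hy hyx hx2 hy2
    · exact ihc _ _ _ (by omega) h3 x y hy hyx hx2 hy2
    · exact ihd _ _ _ (by omega) h4 x y hy hyx hx2 hy2

/-! ### Near the special centre -/

/-- both endpoint conditions for a boundary point `p` -/
def dirG (w u v H K : ℤ) (a1 a2 b1 b2 : ℤ) (p : ℤ × ℤ) : Bool :=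
  decide (w * K < H * ((w * p.1 - u) * a1 + (w * p.2 - v) * a2)) &&
  decide (w * K < H * ((w * p.1 - u) * b1 + (w * p.2 - v) * b2))

def dirCheck (L : List (ℤ × ℤ)) (w u v H K : ℤ) (m : ℕ) : ℕ → Bool
  | 0 => true
  | i + 1 => dirCheck L w u v H K m i &&
      Nat.ble m (L.filter (dirG w u v H K K (i - K) K (i + 1 - K))).length &&
      Nat.ble m (L.filter (dirG w u v H K (-K) (i - K) (-K) (i + 1 - K))).length &&
      Nat.ble m (L.filter (dirG w u v H K (i - K) K (i + 1 - K) K)).length &&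
      Nat.ble m (L.filter (dirG w u v H K (i - K) (-K) (i + 1 - K) (-K))).length

lemma dirCheck_spec {L : List (ℤ × ℤ)} {w u v H K : ℤ} {m : ℕ} :
    ∀ N, dirCheck L w u v H K m N = true → ∀ i : ℕ, i < N →
      m ≤ (L.filter (dirG w u v H K K (i - K) K (i + 1 - K))).length ∧
      m ≤ (L.filter (dirG w u v H K (-K) (i - K) (-K) (i + 1 - K))).length ∧
      m ≤ (L.filter (dirG w u v H K (i - K) K (i + 1 - K) K)).length ∧
      m ≤ (L.filter (dirG w u v H K (i - K) (-K) (i + 1 - K) (-K))).length := by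
  intro N
  induction N with
  | zero => intro _ i hi; omega
  | succ N ih =>
    intro h i hi
    rw [dirCheck, Bool.and_eq_true, Bool.and_eq_true, Bool.and_eq_true, Bool.and_eq_true,
      Nat.ble_eq, Nat.ble_eq, Nat.ble_eq, Nat.ble_eq] at h
    rcases Nat.lt_or_ge i N with h1 | h1
    · exact ih h.1.1.1.1 i h1
    · have : i = N := by omega
      subst this
      exact ⟨h.1.1.1.2, h.1.1.2, h.1.2, h.2⟩

lemma dirG_inside {w u v H K : ℤ} (hw : 0 < w) (hH : 0 < H) (hK : 0 < K) {a1 a2 b1 b2 : ℤ}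
    {p : ℤ × ℤ} (hd : dirG w u v H K a1 a2 b1 b2 p = true) {s : ℤ} (hp : nrm w u v p = s)
    {x y τ θ : ℝ} (hτ : 0 < τ) (hHτ : H * τ ≤ 1) (hθ0 : 0 ≤ θ) (hθ1 : θ ≤ 1)
    (hx : K * (x - u / w) = τ * ((1 - θ) * a1 + θ * b1))
    (hy : K * (y - v / w) = τ * ((1 - θ) * a2 + θ * b2))
    (hx' : |x - u / w| ≤ τ) (hy' : |y - v / w| ≤ τ) :
    p ∈ Io ((s : ℝ) / (w : ℝ) ^ 2) x y := by
  rw [dirG, Bool.and_eq_true, decide_eq_true_eq, decide_eq_true_eq] at hd
  obtain ⟨h1, h2⟩ := hd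
  have hwR : (0 : ℝ) < w := by exact_mod_cast hw
  have hHR : (0 : ℝ) < H := by exact_mod_cast hH
  have hKR : (0 : ℝ) < K := by exact_mod_cast hK
  set z1 : ℝ := w * p.1 - u with hz1
  set z2 : ℝ := w * p.2 - v with hz2
  have h1R : (w : ℝ) * K < H * (z1 * a1 + z2 * a2) := by rw [hz1, hz2]; exact_mod_cast h1
  have h2R : (w : ℝ) * K < H * (z1 * b1 + z2 * b2) := by rw [hz1, hz2]; exact_mod_cast h2
  set dx : ℝ := x - u / w with hdx
  set dy : ℝ := y - v / w with hdy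
  have hs : z1 ^ 2 + z2 ^ 2 = s := by
    rw [hz1, hz2, ← hp, nrm]; push_cast; ring
  -- H * (z · d) > w * τ
  have h3 : (w : ℝ) * K < H * ((1 - θ) * (z1 * a1 + z2 * a2) + θ * (z1 * b1 + z2 * b2)) := by
    rcases eq_or_lt_of_le hθ0 with h0 | h0
    · rw [← h0]; nlinarith
    · nlinarith
  have h4 : H * (z1 * dx + z2 * dy) * K = τ * (H * ((1 - θ) * (z1 * a1 + z2 * a2) +
      θ * (z1 * b1 + z2 * b2))) := by
    calc H * (z1 * dx + z2 * dy) * K = H * (z1 * (K * dx) + z2 * (K * dy)) := by ring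
      _ = _ := by rw [hx, hy]; ring
  have h5 : (w : ℝ) * τ < H * (z1 * dx + z2 * dy) := by
    have : (w : ℝ) * τ * K < H * (z1 * dx + z2 * dy) * K := by
      rw [h4]
      calc (w : ℝ) * τ * K = τ * (w * K) := by ring
        _ < _ := mul_lt_mul_of_pos_left h3 hτ
    exact lt_of_mul_lt_mul_right this hKR.le
  -- z · d > w τ^2
  have h6 : (w : ℝ) * τ ^ 2 < z1 * dx + z2 * dy := by
    have h7 : H * (w * τ ^ 2) ≤ w * τ := by
      calc H * (w * τ ^ 2) = (H * τ) * (w * τ) := by ring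
        _ ≤ 1 * (w * τ) := mul_le_mul_of_nonneg_right hHτ (by positivity)
        _ = w * τ := one_mul _
    have h8 : H * (w * τ ^ 2) < H * (z1 * dx + z2 * dy) := lt_of_le_of_lt h7 h5
    exact lt_of_mul_lt_mul_left h8 hHR.le
  have h9 : dx ^ 2 ≤ τ ^ 2 := sq_le_sq' (by linarith [abs_le.1 hx']) (abs_le.1 hx').2
  have h10 : dy ^ 2 ≤ τ ^ 2 := sq_le_sq' (by linarith [abs_le.1 hy']) (abs_le.1 hy').2
  show ((p.1 : ℝ) - x) ^ 2 + ((p.2 : ℝ) - y) ^ 2 < (s : ℝ) / (w : ℝ) ^ 2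
  rw [lt_div_iff₀ (by positivity)]
  have h11 : (((p.1 : ℝ) - x) ^ 2 + ((p.2 : ℝ) - y) ^ 2) * (w : ℝ) ^ 2 =
      (z1 - w * dx) ^ 2 + (z2 - w * dy) ^ 2 := by
    rw [hz1, hz2, hdx, hdy]; field_simp; ring
  rw [h11]
  nlinarith

lemma exists_cell {K : ℕ} (hK : 0 < K) {T : ℝ} (h0 : 0 ≤ T) (h1 : T ≤ 2 * K) :
    ∃ i : ℕ, i < 2 * K ∧ ∃ θ : ℝ, 0 ≤ θ ∧ θ ≤ 1 ∧ T = i + θ := by
  rcases lt_or_eq_of_le h1 with h | h
  · refine ⟨⌊T⌋₊, ?_, T - ⌊T⌋₊, ?_, ?_, by ring⟩
    · rw [Nat.floor_lt h0]; push_cast; exact h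
    · linarith [Nat.floor_le h0]
    · linarith [(Nat.lt_floor_add_one T).le]
  · refine ⟨2 * K - 1, by omega, 1, by norm_num, le_rfl, ?_⟩
    rw [Nat.cast_sub (by omega), h]; push_cast; ring

lemma spec_good {L : List (ℤ × ℤ)} {lu ld : List ℕ} {s w u v H K m need a : ℕ}
    (hw : 0 < w) (hH : 0 < H) (hK : 0 < K)
    (hX2 : u * H + w ≤ w * H) (hY2 : v * H + w ≤ w * H)
    (hbox : a ≤ boxCount lu ld (s * ((w * H) * (w * H))) (w * w) (w * H)
      (u * H - w) (u * H + w) (v * H - w) (v * H + w))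
    (hneed : need ≤ a + m) (hLn : L.Nodup) (hL : ∀ p ∈ L, nrm w u v p = s)
    (hdir : dirCheck L w u v H K m (2 * K) = true)
    (hc1 : (Io ((s : ℝ) / (w : ℝ) ^ 2) (u / w) (v / w)).encard = a)
    (hc2 : (need : ℕ∞) ≤ (Ic ((s : ℝ) / (w : ℝ) ^ 2) (u / w) (v / w)).encard) :
    ∀ x y : ℝ, ((u * H - w : ℕ) : ℝ) ≤ ((w * H : ℕ) : ℝ) * x →
      ((w * H : ℕ) : ℝ) * x ≤ ((u * H + w : ℕ) : ℝ) →
      ((v * H - w : ℕ) : ℝ) ≤ ((w * H : ℕ) : ℝ) * y →
      ((w * H : ℕ) : ℝ) * y ≤ ((v * H + w : ℕ) : ℝ) →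
      Good ((s : ℝ) / (w : ℝ) ^ 2) a need x y := by
  intro x y hx1 hx2 hy1 hy2
  have hwR : (0 : ℝ) < w := by exact_mod_cast hw
  have hHR : (0 : ℝ) < H := by exact_mod_cast hH
  have hKR : (0 : ℝ) < K := by exact_mod_cast hK
  have hwH : 0 < w * H := Nat.mul_pos hw hH
  -- bounds on the displacement
  have bnd : ∀ (c : ℕ) (t : ℝ), ((c * H - w : ℕ) : ℝ) ≤ ((w * H : ℕ) : ℝ) * t →
      ((w * H : ℕ) : ℝ) * t ≤ ((c * H + w : ℕ) : ℝ) → (H : ℝ) * |t - c / w| ≤ 1 := by
    intro c t h1 h2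
    have e : (H : ℝ) * |t - c / w| = |(w * H * t - c * H) / w| := by
      rw [show (w * H * t - c * H) / (w : ℝ) = H * (t - c / w) by field_simp]
      rw [abs_mul, abs_of_pos hHR]
    rw [e, abs_div, abs_of_pos hwR, div_le_one hwR, abs_le]
    push_cast at h2
    have h3 : (c : ℝ) * H - w ≤ ((c * H - w : ℕ) : ℝ) := by
      have : c * H ≤ (c * H - w) + w := by omega
      have : ((c * H : ℕ) : ℝ) ≤ (((c * H - w) + w : ℕ) : ℝ) := by exact_mod_cast this
      push_cast at this ⊢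
      linarith
    push_cast at h1
    constructor <;> nlinarith
  have hbx := bnd u x hx1 hx2
  have hby := bnd v y hy1 hy2
  set dx : ℝ := x - u / w with hdx
  set dy : ℝ := y - v / w with hdy
  -- the centre
  by_cases hzero : dx = 0 ∧ dy = 0
  · right
    have ex : x = u / w := by linarith [hzero.1]
    have ey : y = v / w := by linarith [hzero.2]
    rw [ex, ey]
    exact ⟨hc1, hc2⟩
  left
  obtain ⟨F, hF1, hF2⟩ := boxCount_exists (S := s * ((w * H) * (w * H))) (W := w * w)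
    (X1 := u * H - w) (X2 := u * H + w) (Y1 := v * H - w) (Y2 := v * H + w) lu ld hwH
    (Nat.mul_pos hw hw) hX2 (by omega) hY2
  rw [boxIn_R2 hwH] at hF2
  -- points of F are strictly inside at the centre
  have hFc : ∀ p ∈ F, nrm w u v p < s := by
    intro p hp
    have h1 := hF2 p hp (u / w) (v / w) (by
      rw [show ((w * H : ℕ) : ℝ) * (u / w) = u * H by push_cast; field_simp]
      have : u * H - w ≤ u * H := Nat.sub_le _ _
      exact_mod_cast this) (by
      rw [show ((w * H : ℕ) : ℝ) * (u / w) = u * H by push_cast; field_simp]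
      push_cast; linarith) (by
      rw [show ((w * H : ℕ) : ℝ) * (v / w) = v * H by push_cast; field_simp]
      have : v * H - w ≤ v * H := Nat.sub_le _ _
      exact_mod_cast this) (by
      rw [show ((w * H : ℕ) : ℝ) * (v / w) = v * H by push_cast; field_simp]
      push_cast; linarith)
    rw [lt_div_iff₀ (by positivity)] at h1
    have h2 : (((p.1 : ℝ) - u / w) ^ 2 + ((p.2 : ℝ) - v / w) ^ 2) * (w : ℝ) ^ 2 =
        ((nrm w u v p : ℤ) : ℝ) := by
      rw [nrm]; push_cast; field_simp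
    rw [h2] at h1
    exact_mod_cast h1
  have hFin : ∀ p ∈ F, p ∈ Io ((s : ℝ) / (w : ℝ) ^ 2) x y := by
    intro p hp
    exact hF2 p hp x y hx1 hx2 hy1 hy2
  -- boundary points that move inside
  obtain ⟨G, hG1, hG2, hG3⟩ : ∃ G : Finset (ℤ × ℤ), m ≤ G.card ∧ (∀ p ∈ G, p ∈ L) ∧
      ∀ p ∈ G, p ∈ Io ((s : ℝ) / (w : ℝ) ^ 2) x y := by
    have mk : ∀ a1 a2 b1 b2 : ℤ, m ≤ (L.filter (dirG w u v H K a1 a2 b1 b2)).length →
        (∀ p ∈ L, dirG w u v H K a1 a2 b1 b2 p = true → p ∈ Io ((s : ℝ) / (w : ℝ) ^ 2) x y) →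
        ∃ G : Finset (ℤ × ℤ), m ≤ G.card ∧ (∀ p ∈ G, p ∈ L) ∧
          ∀ p ∈ G, p ∈ Io ((s : ℝ) / (w : ℝ) ^ 2) x y := by
      intro a1 a2 b1 b2 h1 h2
      refine ⟨(L.filter (dirG w u v H K a1 a2 b1 b2)).toFinset, ?_, ?_, ?_⟩
      · rw [List.toFinset_card_of_nodup (hLn.filter _)]; exact h1
      · intro p hp
        rw [List.mem_toFinset, List.mem_filter] at hp
        exact hp.1
      · intro p hp
        rw [List.mem_toFinset, List.mem_filter] at hp
        exact h2 p hp.1 hp.2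
    have hsp := dirCheck_spec _ hdir
    have hwZ : (0 : ℤ) < w := by exact_mod_cast hw
    have hHZ : (0 : ℤ) < H := by exact_mod_cast hH
    have hKZ : (0 : ℤ) < K := by exact_mod_cast hK
    rcases le_total |dy| |dx| with hc | hc
    · -- |dx| is the sup norm
      have hτ : 0 < |dx| := by
        rcases eq_or_lt_of_le (abs_nonneg dx) with h | h
        · exfalso
          apply hzero
          have h1 : dx = 0 := abs_eq_zero.1 h.symm
          have h2 : dy = 0 := by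
            rw [← h] at hc
            exact abs_eq_zero.1 (le_antisymm hc (abs_nonneg _))
          exact ⟨h1, h2⟩
        · exact h
      obtain ⟨i, hi, θ, hθ0, hθ1, hT⟩ := exists_cell (T := (dy / |dx| + 1) * K) hK (by
        have : -1 ≤ dy / |dx| := by
          rw [le_div_iff₀ hτ]; linarith [abs_le.1 hc]
        have : 0 ≤ dy / |dx| + 1 := by linarith
        positivity) (by
        have : dy / |dx| ≤ 1 := by
          rw [div_le_one hτ]; exact (abs_le.1 hc).2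
        nlinarith)
      have hy3 : (K : ℝ) * dy = |dx| * (i + θ - K) := by
        rw [← hT]; field_simp; ring
      obtain ⟨s1, s2, _, _⟩ := hsp i hi
      rcases le_total 0 dx with hs | hs
      · have habs : |dx| = dx := abs_of_nonneg hs
        refine mk _ _ _ _ s1 (fun p hp hd => ?_)
        refine dirG_inside hwZ hHZ hKZ hd (hL p hp) hτ (by exact_mod_cast hbx) hθ0 hθ1 ?_ ?_ le_rfl hc
        · push_cast
          rw [← hdx, habs]; ring
        · push_cast
          rw [← hdy, hy3]; ring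
      · have habs : |dx| = -dx := abs_of_nonpos hs
        refine mk _ _ _ _ s2 (fun p hp hd => ?_)
        refine dirG_inside hwZ hHZ hKZ hd (hL p hp) hτ (by exact_mod_cast hbx) hθ0 hθ1 ?_ ?_ le_rfl hc
        · push_cast
          rw [← hdx, habs]; ring
        · push_cast
          rw [← hdy, hy3]; ring
    · -- |dy| is the sup norm
      have hτ : 0 < |dy| := by
        rcases eq_or_lt_of_le (abs_nonneg dy) with h | h
        · exfalso
          apply hzero
          have h1 : dy = 0 := abs_eq_zero.1 h.symm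
          have h2 : dx = 0 := by
            rw [← h] at hc
            exact abs_eq_zero.1 (le_antisymm hc (abs_nonneg _))
          exact ⟨h2, h1⟩
        · exact h
      obtain ⟨i, hi, θ, hθ0, hθ1, hT⟩ := exists_cell (T := (dx / |dy| + 1) * K) hK (by
        have : -1 ≤ dx / |dy| := by
          rw [le_div_iff₀ hτ]; linarith [abs_le.1 hc]
        have : 0 ≤ dx / |dy| + 1 := by linarith
        positivity) (by
        have : dx / |dy| ≤ 1 := by
          rw [div_le_one hτ]; exact (abs_le.1 hc).2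
        nlinarith)
      have hx3 : (K : ℝ) * dx = |dy| * (i + θ - K) := by
        rw [← hT]; field_simp; ring
      obtain ⟨_, _, s3, s4⟩ := hsp i hi
      rcases le_total 0 dy with hs | hs
      · have habs : |dy| = dy := abs_of_nonneg hs
        refine mk _ _ _ _ s3 (fun p hp hd => ?_)
        refine dirG_inside hwZ hHZ hKZ hd (hL p hp) hτ (by exact_mod_cast hby) hθ0 hθ1 ?_ ?_ hc le_rfl
        · push_cast
          rw [← hdx, hx3]; ring
        · push_cast
          rw [← hdy, habs]; ring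
      · have habs : |dy| = -dy := abs_of_nonpos hs
        refine mk _ _ _ _ s4 (fun p hp hd => ?_)
        refine dirG_inside hwZ hHZ hKZ hd (hL p hp) hτ (by exact_mod_cast hby) hθ0 hθ1 ?_ ?_ hc le_rfl
        · push_cast
          rw [← hdx, hx3]; ring
        · push_cast
          rw [← hdy, habs]; ring
  have hdj : Disjoint F G := by
    rw [Finset.disjoint_left]
    intro p hp hq
    have h1 := hFc p hp
    have h2 := hL p (hG2 p hq)
    omega
  have hsub : ((F ∪ G : Finset (ℤ × ℤ)) : Set (ℤ × ℤ)) ⊆ Io ((s : ℝ) / (w : ℝ) ^ 2) x y := by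
    intro p hp
    rw [Finset.mem_coe, Finset.mem_union] at hp
    rcases hp with h | h
    · exact hFin p h
    · exact hG3 p h
  calc (need : ℕ∞) ≤ ((F ∪ G).card : ℕ∞) := by
        rw [Finset.card_union_of_disjoint hdj, hF1]
        exact_mod_cast (by omega)
    _ = ((F ∪ G : Finset (ℤ × ℤ)) : Set (ℤ × ℤ)).encard :=
        (Set.encard_coe_eq_coe_finsetCard _).symm
    _ ≤ _ := Set.encard_le_encard hsub

/-! ### The exact situation at the centre -/

lemma Io_center {s w u v : ℕ} (hw : 0 < w) :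
    Io ((s : ℝ) / (w : ℝ) ^ 2) (u / w) (v / w) = {p | nrm w u v p < s} := by
  ext p
  have hwR : (0 : ℝ) < w := by exact_mod_cast hw
  rw [Io, Set.mem_ofPred_eq, Set.mem_ofPred_eq, lt_div_iff₀ (by positivity)]
  have h2 : (((p.1 : ℝ) - u / w) ^ 2 + ((p.2 : ℝ) - v / w) ^ 2) * (w : ℝ) ^ 2 =
      ((nrm w u v p : ℤ) : ℝ) := by
    rw [nrm]; push_cast; field_simp
  rw [h2]
  exact_mod_cast Iff.rfl

lemma Ic_center {s w u v : ℕ} (hw : 0 < w) :
    Ic ((s : ℝ) / (w : ℝ) ^ 2) (u / w) (v / w) = {p | nrm w u v p < (s + 1 : ℕ)} := by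
  ext p
  have hwR : (0 : ℝ) < w := by exact_mod_cast hw
  rw [Ic, Set.mem_ofPred_eq, Set.mem_ofPred_eq, le_div_iff₀ (by positivity)]
  have h2 : (((p.1 : ℝ) - u / w) ^ 2 + ((p.2 : ℝ) - v / w) ^ 2) * (w : ℝ) ^ 2 =
      ((nrm w u v p : ℤ) : ℝ) := by
    rw [nrm]; push_cast; field_simp
  rw [h2]
  push_cast
  rw [Int.lt_add_one_iff]
  exact_mod_cast Iff.rfl

lemma boundary_eq {L : List (ℤ × ℤ)} {s w u v a b : ℕ} (hLn : L.Nodup)
    (hL : ∀ p ∈ L, nrm w u v p = s) (hlen : a + L.length = b)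
    {Fa Fb : Finset (ℤ × ℤ)} (hFa : Fa.card = a) (hFa2 : ∀ p, p ∈ Fa ↔ nrm w u v p < s)
    (hFb : Fb.card = b) (hFb2 : ∀ p, p ∈ Fb ↔ nrm w u v p < (s + 1 : ℕ)) :
    ∀ p : ℤ × ℤ, nrm w u v p = s ↔ p ∈ L := by
  classical
  have hdj : Disjoint Fa L.toFinset := by
    rw [Finset.disjoint_left]
    intro p hp hq
    have h1 := (hFa2 p).1 hp
    have h2 := hL p (List.mem_toFinset.1 hq)
    omega
  have hsub : Fa ∪ L.toFinset ⊆ Fb := by
    intro p hp
    rw [hFb2]
    push_cast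
    rcases Finset.mem_union.1 hp with h | h
    · have := (hFa2 p).1 h; omega
    · have := hL p (List.mem_toFinset.1 h); omega
  have hcard : (Fa ∪ L.toFinset).card = Fb.card := by
    rw [Finset.card_union_of_disjoint hdj, hFa, hFb, List.toFinset_card_of_nodup hLn, hlen]
  have heq := Finset.eq_of_subset_of_card_le hsub hcard.ge
  intro p
  constructor
  · intro h
    have h1 : p ∈ Fb := by rw [hFb2]; push_cast; omega
    rw [← heq, Finset.mem_union] at h1
    rcases h1 with h2 | h2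
    · have := (hFa2 p).1 h2; omega
    · exact List.mem_toFinset.1 h2
  · exact hL p

/-- All checks bundled. -/
def allChecks (L : List (ℤ × ℤ)) (lu ld : List ℕ) (s w u v H K m need a b : ℕ) (t : QT) : Bool :=
  Nat.ble 1 w && Nat.ble 1 H && Nat.ble 1 K && Nat.ble 1 s &&
  Nat.ble u w && Nat.ble v w &&
  Nat.ble (u * H + w) (w * H) && Nat.ble (v * H + w) (w * H) &&
  Nat.ble a (boxCount lu ld (s * ((w * H) * (w * H))) (w * w) (w * H)
      (u * H - w) (u * H + w) (v * H - w) (v * H + w)) &&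
  Nat.ble need (a + m) && Nat.ble need b &&
  decide L.Nodup && L.all (fun p => decide (nrm w u v p = s)) &&
  dirCheck L w u v H K m (2 * K) &&
  exCheck lu ld s w v && exCheck lu ld (s + 1) w v &&
  Nat.beq (exCount lu ld s w u v) a && Nat.beq (exCount lu ld (s + 1) w u v) b &&
  Nat.beq (a + L.length) b &&
  chkTree lu ld s w u v H need t 2 0 0

structure Facts (L : List (ℤ × ℤ)) (s w u v need a b : ℕ) : Prop where
  hw : 0 < w
  hs : 0 < s
  good : ∀ x y, Good ((s : ℝ) / (w : ℝ) ^ 2) a need x y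
  center : (Io ((s : ℝ) / (w : ℝ) ^ 2) (u / w) (v / w)).encard = a
  nodup : L.Nodup
  boundary : ∀ p : ℤ × ℤ, nrm w u v p = s ↔ p ∈ L

theorem facts_of_checks {L : List (ℤ × ℤ)} {lu ld : List ℕ} {s w u v H K m need a b : ℕ} {t : QT}
    (h : allChecks L lu ld s w u v H K m need a b t = true) : Facts L s w u v need a b := by
  simp only [allChecks, Bool.and_eq_true, Nat.ble_eq, Nat.beq_eq, decide_eq_true_eq,
    List.all_eq_true] at h
  obtain ⟨⟨⟨⟨⟨⟨⟨⟨⟨⟨⟨⟨⟨⟨⟨⟨⟨⟨⟨h1, h2⟩, h3⟩, h4⟩, h5⟩, h6⟩, h7⟩, h8⟩, h9⟩, h10⟩, h11⟩, h12⟩, h13⟩,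
    h14⟩, h15⟩, h16⟩, h17⟩, h18⟩, h19⟩, h20⟩ := h
  have hw : 0 < w := h1
  obtain ⟨Fa, ha1, ha2⟩ := exCount_spec lu ld hw h5 h6 h15
  obtain ⟨Fb, hb1, hb2⟩ := exCount_spec lu ld hw h5 h6 h16
  rw [h17] at ha1
  rw [h18] at hb1
  have hc1 : (Io ((s : ℝ) / (w : ℝ) ^ 2) (u / w) (v / w)).encard = a := by
    rw [Io_center hw, ← ha1, ← Set.encard_coe_eq_coe_finsetCard]
    congr 1
    ext p
    rw [Set.mem_ofPred_eq, Finset.mem_coe, ha2]
  have hc2 : (need : ℕ∞) ≤ (Ic ((s : ℝ) / (w : ℝ) ^ 2) (u / w) (v / w)).encard := by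
    rw [Ic_center hw]
    calc (need : ℕ∞) ≤ (b : ℕ∞) := by exact_mod_cast h11
      _ = (Fb : Set (ℤ × ℤ)).encard := by rw [Set.encard_coe_eq_coe_finsetCard, hb1]
      _ = _ := by
        congr 1
        ext p
        rw [Set.mem_ofPred_eq, Finset.mem_coe, hb2]
  refine ⟨hw, h4, ?_, hc1, h12, boundary_eq h12 h13 h19 ha1 ha2 hb1 hb2⟩
  apply good_all
  intro x y hy hyx hx
  have hspec := spec_good hw h2 h3 h7 h8 h9 h10 h12 h13 h14 hc1 hc2
  apply tree_good hw h2 hspec t 2 0 0 (by norm_num) h20 x y hy hyx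
  · exact ⟨Or.inl rfl, by push_cast; linarith⟩
  · exact ⟨Or.inl rfl, by push_cast; linarith⟩

/-- Non-MC criterion, decidable form. -/
theorem Facts.not_isMC {L : List (ℤ × ℤ)} {s w u v need a b n : ℕ} (F : Facts L s w u v need a b)
    (h1 : a < n) (h2 : n < need) (α β : ℤ) (c : ℕ)
    (h3 : a + (L.filter (fun p => decide ((c : ℤ) < dot w u v α β p))).length = n) :
    ¬ IsMC n := by
  refine not_isMC_of h1 h2 F.good ?_
  have hwZ : (0 : ℤ) < w := by exact_mod_cast F.hw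
  have hsZ : (0 : ℤ) < s := by exact_mod_cast F.hs
  have key := approx_of (s := s) (w := w) (u := u) (v := v) (α := α) (β := β)
    (c := c) hwZ hsZ (n := n) ?_
  · intro ε hε
    obtain ⟨x, y, r, a1, a2⟩ := key ε hε
    exact ⟨x, y, r, by simpa using a1, a2⟩
  · have hA : {p : ℤ × ℤ | nrm w u v p < s ∨ (nrm w u v p = s ∧ (c : ℤ) < dot w u v α β p)} =
        {p | nrm w u v p < s} ∪
          ((L.filter (fun p => decide ((c : ℤ) < dot w u v α β p))).toFinset : Set (ℤ × ℤ)) := by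
      ext p
      simp only [Set.mem_union, Set.mem_ofPred_eq, List.coe_toFinset, List.mem_filter,
        decide_eq_true_eq]
      rw [F.boundary p]
    rw [hA, Set.encard_union_eq]
    · rw [← Io_center F.hw, F.center, Set.encard_coe_eq_coe_finsetCard,
        List.toFinset_card_of_nodup (F.nodup.filter _), ← h3]
      push_cast
      rfl
    · rw [Set.disjoint_left]
      intro p hp hq
      simp only [List.coe_toFinset, Set.mem_ofPred_eq, List.mem_filter] at hp hq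
      have := (F.boundary p).2 hq.1
      omega

/-- MC-circle criterion, decidable form. -/
theorem Facts.isMCCircle {L : List (ℤ × ℤ)} {s w u v need a b : ℕ} (F : Facts L s w u v need a b)
    (h2 : a < need) : IsMCCircle a (u / w) (v / w) (Real.sqrt ((s : ℝ) / (w : ℝ) ^ 2)) := by
  have hwR : (0 : ℝ) < w := by exact_mod_cast F.hw
  have hsR : (0 : ℝ) < s := by exact_mod_cast F.hs
  exact isMCCircle_of h2 F.good (by positivity) (Real.sq_sqrt (by positivity)) F.center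

theorem Facts.onCircle_eq {L : List (ℤ × ℤ)} {s w u v need a b : ℕ}
    (F : Facts L s w u v need a b) :
    onCircle (u / w) (v / w) (Real.sqrt ((s : ℝ) / (w : ℝ) ^ 2)) = {p | p ∈ L} := by
  have hwR : (0 : ℝ) < w := by exact_mod_cast F.hw
  have hsR : (0 : ℝ) < s := by exact_mod_cast F.hs
  ext p
  rw [onCircle, Set.mem_ofPred_eq, Set.mem_ofPred_eq, Real.sq_sqrt (by positivity),
    eq_div_iff (by positivity), ← F.boundary p]
  have h2 : (((p.1 : ℝ) - u / w) ^ 2 + ((p.2 : ℝ) - v / w) ^ 2) * (w : ℝ) ^ 2 =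
      ((nrm w u v p : ℤ) : ℝ) := by
    rw [nrm]; push_cast; field_simp
  rw [h2]
  exact_mod_cast Iff.rfl

end Pool.Agent.V11319.MC
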