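import Pool.Agent.V11319.MCMain

/-! Certificates with two special centres. -/

namespace Pool.Agent.V11319.MC

def specOK (w u v H D X Y : ℕ) : Bool :=
  Nat.ble ((u * H - w) * D) (X * (w * H)) && Nat.ble ((X + 1) * (w * H)) ((u * H + w) * D) &&
  Nat.ble ((v * H - w) * D) (Y * (w * H)) && Nat.ble ((Y + 1) * (w * H)) ((v * H + w) * D)

def chkTree2 (lu ld : List ℕ) (s w u v H u2 v2 H2 need : ℕ) : QT → ℕ → ℕ → ℕ → Bool
  | .leaf, D, X, Y => Nat.ble (X + 1) D && Nat.ble (Y + 1) D &&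
      Nat.ble need (boxCount lu ld (s * (D * D)) (w * w) D X (X + 1) Y (Y + 1))
  | .spec, D, X, Y => specOK w u v H D X Y || specOK w u2 v2 H2 D X Y
  | .out, _, X, Y => Nat.ble (X + 1) Y
  | .node a b c d, D, X, Y =>
      chkTree2 lu ld s w u v H u2 v2 H2 need a (2 * D) (2 * X) (2 * Y) &&
      chkTree2 lu ld s w u v H u2 v2 H2 need b (2 * D) (2 * X) (2 * Y + 1) &&
      chkTree2 lu ld s w u v H u2 v2 H2 need c (2 * D) (2 * X + 1) (2 * Y) &&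
      chkTree2 lu ld s w u v H u2 v2 H2 need d (2 * D) (2 * X + 1) (2 * Y + 1)

/-- the box around `(u/w, v/w)` -/
def SpecBox (w u v H : ℕ) (x y : ℝ) : Prop :=
  ((u * H - w : ℕ) : ℝ) ≤ ((w * H : ℕ) : ℝ) * x ∧ ((w * H : ℕ) : ℝ) * x ≤ ((u * H + w : ℕ) : ℝ) ∧
  ((v * H - w : ℕ) : ℝ) ≤ ((w * H : ℕ) : ℝ) * y ∧ ((w * H : ℕ) : ℝ) * y ≤ ((v * H + w : ℕ) : ℝ)

lemma specOK_box {w u v H D X Y : ℕ} (hD : 0 < D) (hw : 0 < w) (hH : 0 < H)
    (hc : specOK w u v H D X Y = true) {x y : ℝ} (b1 : (X : ℝ) ≤ D * x) (b2 : (D : ℝ) * x ≤ X + 1)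
    (b3 : (Y : ℝ) ≤ D * y) (b4 : (D : ℝ) * y ≤ Y + 1) : SpecBox w u v H x y := by
  rw [specOK, Bool.and_eq_true, Bool.and_eq_true, Bool.and_eq_true, Nat.ble_eq, Nat.ble_eq,
    Nat.ble_eq, Nat.ble_eq] at hc
  obtain ⟨⟨⟨h1, h2⟩, h3⟩, h4⟩ := hc
  have hDR : (0 : ℝ) < D := by exact_mod_cast hD
  have hwR : (0 : ℝ) < w := by exact_mod_cast hw
  have hHR : (0 : ℝ) < H := by exact_mod_cast hH
  have h1R : (((u * H - w : ℕ)) : ℝ) * D ≤ X * (w * H) := by exact_mod_cast h1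
  have h2R : ((X : ℝ) + 1) * (w * H) ≤ ((u * H + w : ℕ) : ℝ) * D := by exact_mod_cast h2
  have h3R : (((v * H - w : ℕ)) : ℝ) * D ≤ Y * (w * H) := by exact_mod_cast h3
  have h4R : ((Y : ℝ) + 1) * (w * H) ≤ ((v * H + w : ℕ) : ℝ) * D := by exact_mod_cast h4
  have hwH : (0 : ℝ) < (w : ℝ) * H := by positivity
  refine ⟨?_, ?_, ?_, ?_⟩
  · rw [← mul_le_mul_iff_left₀ hDR]
    calc _ ≤ (X : ℝ) * (w * H) := h1R
      _ ≤ (D * x) * (w * H) := mul_le_mul_of_nonneg_right b1 hwH.le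
      _ = _ := by push_cast; ring
  · rw [← mul_le_mul_iff_left₀ hDR]
    calc _ = ((D : ℝ) * x) * (w * H) := by push_cast; ring
      _ ≤ ((X : ℝ) + 1) * (w * H) := mul_le_mul_of_nonneg_right b2 hwH.le
      _ ≤ _ := h2R
  · rw [← mul_le_mul_iff_left₀ hDR]
    calc _ ≤ (Y : ℝ) * (w * H) := h3R
      _ ≤ (D * y) * (w * H) := mul_le_mul_of_nonneg_right b3 hwH.le
      _ = _ := by push_cast; ring
  · rw [← mul_le_mul_iff_left₀ hDR]
    calc _ = ((D : ℝ) * y) * (w * H) := by push_cast; ring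
      _ ≤ ((Y : ℝ) + 1) * (w * H) := mul_le_mul_of_nonneg_right b4 hwH.le
      _ ≤ _ := h4R

lemma tree_good2 {lu ld : List ℕ} {s w u v H u2 v2 H2 need a : ℕ} (hw : 0 < w) (hH : 0 < H)
    (hH2 : 0 < H2)
    (hspec : ∀ x y : ℝ, SpecBox w u v H x y → Good ((s : ℝ) / (w : ℝ) ^ 2) a need x y)
    (hspec2 : ∀ x y : ℝ, SpecBox w u2 v2 H2 x y → Good ((s : ℝ) / (w : ℝ) ^ 2) a need x y) :
    ∀ (t : QT) (D X Y : ℕ), 0 < D → chkTree2 lu ld s w u v H u2 v2 H2 need t D X Y = true →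
      ∀ x y : ℝ, 0 ≤ y → y ≤ x → InB D X x → InB D Y y →
        Good ((s : ℝ) / (w : ℝ) ^ 2) a need x y := by
  intro t
  induction t with
  | leaf =>
    intro D X Y hD hc x y hy hyx hx1 hy1
    rw [chkTree2, Bool.and_eq_true, Bool.and_eq_true, Nat.ble_eq, Nat.ble_eq, Nat.ble_eq] at hc
    obtain ⟨⟨h1, h2⟩, h3⟩ := hc
    obtain ⟨F, hF1, hF2⟩ := boxCount_exists (Y1 := Y) (Y2 := Y + 1) lu ld (S := s * (D * D))
      (W := w * w) hD (Nat.mul_pos hw hw) h1 (Nat.le_succ Y) h2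
    left
    rw [boxIn_R2 hD] at hF2
    have hsub : (F : Set (ℤ × ℤ)) ⊆ Io ((s : ℝ) / (w : ℝ) ^ 2) x y := by
      intro p hp
      apply hF2 p (by exact_mod_cast hp) x y (hx1.low (hy.trans hyx)) (by push_cast; exact hx1.2)
        (hy1.low hy) (by push_cast; exact hy1.2)
    calc (need : ℕ∞) ≤ (F.card : ℕ∞) := by rw [hF1]; exact_mod_cast h3
      _ = (F : Set (ℤ × ℤ)).encard := (Set.encard_coe_eq_coe_finsetCard F).symm
      _ ≤ _ := Set.encard_le_encard hsub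
  | spec =>
    intro D X Y hD hc x y hy hyx hx1 hy1
    rw [chkTree2, Bool.or_eq_true] at hc
    rcases hc with hc | hc
    · exact hspec x y (specOK_box hD hw hH hc (hx1.low (hy.trans hyx)) hx1.2 (hy1.low hy) hy1.2)
    · exact hspec2 x y (specOK_box hD hw hH2 hc (hx1.low (hy.trans hyx)) hx1.2 (hy1.low hy) hy1.2)
  | out =>
    intro D X Y hD hc x y hy hyx hx1 hy1
    exfalso
    rw [chkTree2, Nat.ble_eq] at hc
    have hDR : (0 : ℝ) < D := by exact_mod_cast hD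
    have h1 : (Y : ℝ) < D * y := by
      rcases hy1.1 with h | h
      · omega
      · exact h
    have h2 := hx1.2
    have h3 : (X : ℝ) + 1 ≤ Y := by exact_mod_cast hc
    nlinarith
  | node ta tb tc td iha ihb ihc ihd =>
    intro D X Y hD hc x y hy hyx hx1 hy1
    rw [chkTree2, Bool.and_eq_true, Bool.and_eq_true, Bool.and_eq_true] at hc
    obtain ⟨⟨⟨h1, h2⟩, h3⟩, h4⟩ := hc
    rcases hx1.split with hx2 | hx2 <;> rcases hy1.split with hy2 | hy2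
    · exact iha _ _ _ (by omega) h1 x y hy hyx hx2 hy2
    · exact ihb _ _ _ (by omega) h2 x y hy hyx hx2 hy2
    · exact ihc _ _ _ (by omega) h3 x y hy hyx hx2 hy2
    · exact ihd _ _ _ (by omega) h4 x y hy hyx hx2 hy2

/-- All checks at one special centre. -/
def centreCheck (L : List (ℤ × ℤ)) (lu ld : List ℕ) (s w u v H K m need a b : ℕ) : Bool :=
  Nat.ble 1 w && Nat.ble 1 H && Nat.ble 1 K && Nat.ble 1 s &&
  Nat.ble u w && Nat.ble v w &&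
  Nat.ble (u * H + w) (w * H) && Nat.ble (v * H + w) (w * H) &&
  Nat.ble a (boxCount lu ld (s * ((w * H) * (w * H))) (w * w) (w * H)
      (u * H - w) (u * H + w) (v * H - w) (v * H + w)) &&
  Nat.ble need (a + m) && Nat.ble need b &&
  decide L.Nodup && L.all (fun p => decide (nrm w u v p = s)) &&
  dirCheck L w u v H K m (2 * K) &&
  exCheck lu ld s w v && exCheck lu ld (s + 1) w v &&
  Nat.beq (exCount lu ld s w u v) a && Nat.beq (exCount lu ld (s + 1) w u v) b &&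
  Nat.beq (a + L.length) b

structure CFacts (L : List (ℤ × ℤ)) (s w u v H need a : ℕ) : Prop where
  hw : 0 < w
  hH : 0 < H
  hs : 0 < s
  good : ∀ x y, SpecBox w u v H x y → Good ((s : ℝ) / (w : ℝ) ^ 2) a need x y
  center : (Io ((s : ℝ) / (w : ℝ) ^ 2) (u / w) (v / w)).encard = a
  nodup : L.Nodup
  boundary : ∀ p : ℤ × ℤ, nrm w u v p = s ↔ p ∈ L

theorem cfacts_of_checks {L : List (ℤ × ℤ)} {lu ld : List ℕ} {s w u v H K m need a b : ℕ}
    (h : centreCheck L lu ld s w u v H K m need a b = true) : CFacts L s w u v H need a := by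
  simp only [centreCheck, Bool.and_eq_true, Nat.ble_eq, Nat.beq_eq, decide_eq_true_eq,
    List.all_eq_true] at h
  obtain ⟨⟨⟨⟨⟨⟨⟨⟨⟨⟨⟨⟨⟨⟨⟨⟨⟨⟨h1, h2⟩, h3⟩, h4⟩, h5⟩, h6⟩, h7⟩, h8⟩, h9⟩, h10⟩, h11⟩, h12⟩, h13⟩,
    h14⟩, h15⟩, h16⟩, h17⟩, h18⟩, h19⟩ := h
  have hw : 0 < w := h1
  obtain ⟨Fa, ha1, ha2⟩ := exCount_spec lu ld hw h5 h6 h15
  obtain ⟨Fb, hb1, hb2⟩ := exCount_spec lu ld hw h5 h6 h16
  rw [h17] at ha1
  rw [h18] at hb1
  have hc1 : (Io ((s : ℝ) / (w : ℝ) ^ 2) (u / w) (v / w)).encard = a := by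
    rw [Io_center hw, ← ha1, ← Set.encard_coe_eq_coe_finsetCard]
    congr 1
    ext p
    rw [Set.mem_ofPred_eq, Finset.mem_coe, ha2]
  have hc2 : (need : ℕ∞) ≤ (Ic ((s : ℝ) / (w : ℝ) ^ 2) (u / w) (v / w)).encard := by
    rw [Ic_center hw]
    calc (need : ℕ∞) ≤ (b : ℕ∞) := by exact_mod_cast h11
      _ = (Fb : Set (ℤ × ℤ)).encard := by rw [Set.encard_coe_eq_coe_finsetCard, hb1]
      _ = _ := by
        congr 1
        ext p
        rw [Set.mem_ofPred_eq, Finset.mem_coe, hb2]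
  refine ⟨hw, h2, h4, ?_, hc1, h12, boundary_eq h12 h13 h19 ha1 ha2 hb1 hb2⟩
  rintro x y ⟨b1, b2, b3, b4⟩
  exact spec_good hw h2 h3 h7 h8 h9 h10 h12 h13 h14 hc1 hc2 x y b1 b2 b3 b4

theorem good_of_tree2 {L L2 : List (ℤ × ℤ)} {lu ld : List ℕ} {s w u v H u2 v2 H2 need a : ℕ}
    {t : QT} (F : CFacts L s w u v H need a) (F2 : CFacts L2 s w u2 v2 H2 need a)
    (h : chkTree2 lu ld s w u v H u2 v2 H2 need t 2 0 0 = true) :
    ∀ x y, Good ((s : ℝ) / (w : ℝ) ^ 2) a need x y := by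
  apply good_all
  intro x y hy hyx hx
  apply tree_good2 F.hw F.hH F2.hH F.good F2.good t 2 0 0 (by norm_num) h x y hy hyx
  · exact ⟨Or.inl rfl, by push_cast; linarith⟩
  · exact ⟨Or.inl rfl, by push_cast; linarith⟩

theorem CFacts.toFacts {L : List (ℤ × ℤ)} {s w u v H need a b : ℕ} (F : CFacts L s w u v H need a)
    (h : ∀ x y, Good ((s : ℝ) / (w : ℝ) ^ 2) a need x y) : Facts L s w u v need a b :=
  ⟨F.hw, F.hs, h, F.center, F.nodup, F.boundary⟩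

end Pool.Agent.V11319.MC
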