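import Mathlib

set_option autoImplicit false

/-! An open mapping criterion for complete metrizable groups. -/

namespace Pool.Agent.V11319

open Topology Filter Uniformity

theorem isOpenQuotientMap_of_key {X Y : Type} [AddCommGroup X] [UniformSpace X]
    [IsUniformAddGroup X] [FirstCountableTopology X] [CompleteSpace X]
    [AddCommGroup Y] [UniformSpace Y] [IsUniformAddGroup Y] [T0Space Y]
    (q : X →+ Y) (hq : Continuous q) (hd : DenseRange q)
    (key : ∀ U ∈ 𝓝 (0 : X), ∃ V ∈ 𝓝 (0 : Y), ∀ x, q x ∈ V → ∃ u ∈ U, q u = q x) :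
    IsOpenQuotientMap q := by
  let us : UniformSpace (X ⧸ q.ker) := IsTopologicalAddGroup.rightUniformSpace (X ⧸ q.ker)
  have hu : IsUniformAddGroup (X ⧸ q.ker) := isUniformAddGroup_of_addCommGroup
  have hc : CompleteSpace (X ⧸ q.ker) := QuotientAddGroup.completeSpace_right X q.ker
  let j : X ⧸ q.ker →+ Y := QuotientAddGroup.kerLift q
  have hjq : ∀ x, j (QuotientAddGroup.mk x) = q x := fun x => rfl
  have hjc : Continuous j := by
    have : Continuous (fun x => j (QuotientAddGroup.mk x)) := hq
    exact (QuotientAddGroup.isOpenQuotientMap_mk (N := q.ker)).isQuotientMap.continuous_iff.2 this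
  have hind : IsInducing j := by
    rw [IsTopologicalAddGroup.isInducing_iff_nhds_zero]
    refine le_antisymm ?_ ?_
    · rw [← tendsto_iff_comap]
      have := hjc.tendsto 0
      rwa [map_zero] at this
    · intro U hU
      have h1 : (fun x : X => (QuotientAddGroup.mk x : X ⧸ q.ker)) ⁻¹' U ∈ 𝓝 (0 : X) := by
        have h2 : Continuous (fun x : X => (QuotientAddGroup.mk x : X ⧸ q.ker)) :=
          (QuotientAddGroup.isOpenQuotientMap_mk (N := q.ker)).continuous
        exact h2.continuousAt.preimage_mem_nhds (by simpa using hU)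
      obtain ⟨V, hV, h3⟩ := key _ h1
      refine mem_comap.2 ⟨V, hV, fun z hz => ?_⟩
      obtain ⟨x, rfl⟩ := QuotientAddGroup.mk_surjective z
      obtain ⟨u, hu1, hu2⟩ := h3 x hz
      have h4 : (QuotientAddGroup.mk u : X ⧸ q.ker) = QuotientAddGroup.mk x := by
        apply QuotientAddGroup.kerLift_injective q
        exact hu2
      rw [← h4]
      exact hu1
  have hui : IsUniformInducing j := AddMonoidHom.isUniformInducing_of_isInducing hind
  have hcr : IsClosed (Set.range j) := by
    have h1 := (completeSpace_iff_isComplete_range hui).1 hc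
    exact h1.isClosed
  have hrange : Set.range j = Set.range q := by
    ext y
    constructor
    · rintro ⟨z, rfl⟩
      obtain ⟨x, rfl⟩ := QuotientAddGroup.mk_surjective z
      exact ⟨x, rfl⟩
    · rintro ⟨x, rfl⟩
      exact ⟨QuotientAddGroup.mk x, rfl⟩
  have hsurj : Function.Surjective q := by
    rw [← Set.range_eq_univ, ← hrange, ← hcr.closure_eq, hrange]
    exact hd.closure_range
  refine ⟨hsurj, hq, ?_⟩
  rw [IsTopologicalAddGroup.isOpenMap_iff_nhds_zero]
  intro U hU
  obtain ⟨V, hV, h3⟩ := key _ hU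
  refine Filter.mem_of_superset hV fun y hy => ?_
  obtain ⟨x, rfl⟩ := hsurj y
  obtain ⟨u, hu1, hu2⟩ := h3 x hy
  rw [← hu2]
  exact hu1

end Pool.Agent.V11319
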