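import Pool.Agent.V11319.WNorm

set_option autoImplicit false

/-! The rules of the example are contractive for a weighted sum norm. -/

namespace Pool.Agent.V11319

open Pool.Agent.TH12.Hopf MonoidAlgebra

/-- The exponent of a letter. -/
noncomputable def Ph (l : ℕ × Fin 12 × Fin 12) : ℕ := 1000 * (l.1 + 4) + (Dv ℂ).wt l

/-- The weight of a letter. -/
noncomputable def Wv (l : ℕ × Fin 12 × Fin 12) : ℝ := 200 ^ (Ph l)

lemma one_le_Wv (l : ℕ × Fin 12 × Fin 12) : 1 ≤ Wv l := one_le_pow₀ (by norm_num)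

lemma Wv_nonneg (l : ℕ × Fin 12 × Fin 12) : 0 ≤ Wv l := zero_le_one.trans (one_le_Wv l)

lemma ww_Wv (w : List (ℕ × Fin 12 × Fin 12)) : ww Wv w = 200 ^ ((w.map Ph).sum) := by
  induction w with
  | nil => simp [ww]
  | cons a w ih =>
    simp only [ww, List.map_cons, List.prod_cons, List.sum_cons] at ih ⊢
    rw [ih, pow_add, Wv]

lemma Uv_le (i : ℕ) (c : Fin 12) : Uv i c ≤ 60 * (i / 2) + 512 := by
  obtain ⟨hA, hB⟩ := ABbd c
  have := Nat.mul_le_mul_right (i / 2) hA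
  unfold Uv
  split_ifs <;> omega

lemma rest_le {ι : Type} [Fintype ι] [DecidableEq ι]
    (f : ι → FA ℂ (ℕ × Fin 12 × Fin 12)) (t : FA ℂ (ℕ × Fin 12 × Fin 12)) (i0 : ι) (B N : ℝ)
    (hB : 0 ≤ B) (hf : ∀ i, i ≠ i0 → nrm Wv (f i) ≤ B) (ht : nrm Wv t ≤ N) :
    nrm Wv (f i0 - (∑ i, f i - t)) ≤ Fintype.card ι * B + N := by
  have e : f i0 - (∑ i, f i - t) = -(∑ i ∈ Finset.univ.erase i0, f i) + t := by
    rw [← Finset.add_sum_erase _ _ (Finset.mem_univ i0)]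
    abel
  rw [e]
  refine (nrm_add Wv Wv_nonneg _ _).trans (add_le_add ?_ ht)
  rw [nrm_neg]
  refine (nrm_sum Wv Wv_nonneg _ _).trans ?_
  calc ∑ i ∈ Finset.univ.erase i0, nrm Wv (f i) ≤ ∑ i ∈ Finset.univ.erase i0, B :=
        Finset.sum_le_sum fun i hi => hf i (Finset.ne_of_mem_erase hi)
    _ ≤ ∑ i ∈ (Finset.univ : Finset ι), B :=
        Finset.sum_le_sum_of_subset_of_nonneg (Finset.erase_subset _ _) fun _ _ _ => hB
    _ = Fintype.card ι * B := by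
        rw [Finset.sum_const, Finset.card_univ, nsmul_eq_mul]

lemma norm_Tv (m : ℕ) (u v w : Fin 12) : ‖Tv ℂ m u v w‖ ≤ 1 := by
  unfold Tv
  split_ifs <;> simp

lemma term_le (c : ℂ) (hc : ‖c‖ ≤ 1) (w : List (ℕ × Fin 12 × Fin 12)) (n : ℕ)
    (h : c ≠ 0 → (w.map Ph).sum ≤ n) : nrm Wv (c • (wd w : FA ℂ _)) ≤ 200 ^ n := by
  rw [nrm_smul_le, nrm_wd, ww_Wv]
  by_cases h0 : c = 0
  · rw [h0, norm_zero, zero_mul]; positivity
  · calc ‖c‖ * 200 ^ (w.map Ph).sum ≤ 1 * 200 ^ (w.map Ph).sum :=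
          mul_le_mul_of_nonneg_right hc (by positivity)
      _ = 200 ^ (w.map Ph).sum := one_mul _
      _ ≤ 200 ^ n := pow_le_pow_right₀ (by norm_num) (h h0)

lemma delta_le (a b : Fin 12) (n : ℕ) :
    nrm Wv (if a = b then (1 : FA ℂ (ℕ × Fin 12 × Fin 12)) else 0) ≤ 12 * 200 ^ n := by
  have h : (1 : ℝ) ≤ 200 ^ n := one_le_pow₀ (by norm_num)
  split_ifs
  · rw [← wd_nil, nrm_wd, ww_nil]; linarith
  · rw [nrm_zero]; linarith

lemma lin_le (f : Fin 12 → ℂ) (hf : ∀ l, ‖f l‖ ≤ 1) (g : Fin 12 → ℕ × Fin 12 × Fin 12) (n : ℕ)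
    (h : ∀ l, Ph (g l) ≤ n) :
    nrm Wv (∑ l, f l • (wd [g l] : FA ℂ (ℕ × Fin 12 × Fin 12))) ≤ 12 * 200 ^ n := by
  refine (nrm_sum Wv Wv_nonneg _ _).trans ?_
  calc ∑ l, nrm Wv (f l • (wd [g l] : FA ℂ (ℕ × Fin 12 × Fin 12))) ≤ ∑ _l : Fin 12, 200 ^ n :=
        Finset.sum_le_sum fun l _ => term_le _ (hf l) _ _ (fun _ => by simpa using h l)
    _ = 12 * 200 ^ n := by simp

theorem rule_le (r : Rl (Fin 12)) :
    nrm Wv (wd [(Dv ℂ).lx r, (Dv ℂ).ly r] - (Dv ℂ).rl r) ≤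
      Wv ((Dv ℂ).lx r) * Wv ((Dv ℂ).ly r) := by
  set n := Ph ((Dv ℂ).lx r) + Ph ((Dv ℂ).ly r) with hn
  have hn1 : 1 ≤ n := by
    rw [hn]; unfold Ph; omega
  have hB : (0 : ℝ) ≤ 200 ^ (n - 1) := by positivity
  have hfin : Wv ((Dv ℂ).lx r) * Wv ((Dv ℂ).ly r) = 200 * 200 ^ (n - 1) := by
    rw [Wv, Wv, ← pow_add, ← hn, ← pow_succ', Nat.sub_add_cancel hn1]
  rw [hfin]
  cases r with
  | ev i a b =>
    simp only [Dat.lx, Dat.ly, Dat.rl, evr, Dat.X_mul] at hn ⊢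
    refine (rest_le (fun o => (wd [(i + 1, o, a), (i, o, b)] : FA ℂ (ℕ × Fin 12 × Fin 12)))
      _ ((Dv ℂ).p i) (200 ^ (n - 1)) (12 * 200 ^ (n - 1)) hB ?_ (delta_le a b _)).trans ?_
    · intro o ho
      have := (Dv ℂ).evdom i o ho
      rw [nrm_wd, ww_Wv]
      refine pow_le_pow_right₀ (by norm_num) ?_
      simp only [List.map_cons, List.map_nil, List.sum_cons, List.sum_nil, Ph, Dat.wt] at hn ⊢
      omega
    · simp only [Fintype.card_fin]
      push_cast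
      linarith
  | co i o o' =>
    simp only [Dat.lx, Dat.ly, Dat.rl, cor, Dat.X_mul] at hn ⊢
    refine (rest_le (fun a => (wd [(i, o, a), (i + 1, o', a)] : FA ℂ (ℕ × Fin 12 × Fin 12)))
      _ ((Dv ℂ).p (i + 1)) (200 ^ (n - 1)) (12 * 200 ^ (n - 1)) hB ?_ (delta_le o o' _)).trans ?_
    · intro a ha
      have := (Dv ℂ).evdom (i + 1) a ha
      rw [nrm_wd, ww_Wv]
      refine pow_le_pow_right₀ (by norm_num) ?_
      simp only [List.map_cons, List.map_nil, List.sum_cons, List.sum_nil, Ph, Dat.wt] at hn ⊢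
      omega
    · simp only [Fintype.card_fin]
      push_cast
      linarith
  | ef m c a b =>
    simp only [Dat.lx, Dat.ly, Dat.rl, Er, Dat.X_mul] at hn ⊢
    have h0 := rest_le (fun q : Fin 12 × Fin 12 => (Dv ℂ).T m q.1 q.2 c •
          (wd [(lev (m + 2), q.1, a), (lev (m + 1), q.2, b)] : FA ℂ (ℕ × Fin 12 × Fin 12)))
      (∑ l, (Dv ℂ).T m a b l • Dat.X ℂ (lev m + 1) c l) ((Dv ℂ).piv m c) (200 ^ (n - 1))
      (12 * 200 ^ (n - 1)) hB ?_ ?_
    · simp only [(Dv ℂ).Tpiv, one_smul] at h0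
      refine h0.trans ?_
      simp only [Fintype.card_prod, Fintype.card_fin]
      push_cast
      linarith
    · intro q hq
      refine term_le _ (norm_Tv _ _ _ _) _ _ fun hT => ?_
      have := (Dv ℂ).dom m c q hT hq
      simp only [List.map_cons, List.map_nil, List.sum_cons, List.sum_nil, Ph, Dat.wt] at hn ⊢
      omega
    · refine lin_le _ (fun l => norm_Tv _ _ _ _) (fun l => (lev m + 1, c, l)) _ fun l => ?_
      have h1 := Uv_le (lev m + 1) c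
      have h2 := Uv_le (lev m + 1 + 1) l
      change _ ≤ n - 1
      simp only [Ph, Dat.wt] at hn ⊢
      have h3 : (Dv ℂ).U (lev m + 1) c = Uv (lev m + 1) c := rfl
      have h4 : (Dv ℂ).U (lev m + 1 + 1) l = Uv (lev m + 1 + 1) l := rfl
      rw [h3, h4]
      have h5 : lev m = 2 * (m / 3) := rfl
      have h6 : lev (m + 1) = 2 * ((m + 1) / 3) := rfl
      have h7 : lev (m + 2) = 2 * ((m + 2) / 3) := rfl
      omega
  | jf m c o o' =>
    simp only [Dat.lx, Dat.ly, Dat.rl, Ir, Dat.X_mul] at hn ⊢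
    have h0 := rest_le (fun q : Fin 12 × Fin 12 => (Dv ℂ).T (m + 2) q.1 q.2 c •
          (wd [(lev m + 1, o, q.2), (lev (m + 1) + 1, o', q.1)] : FA ℂ (ℕ × Fin 12 × Fin 12)))
      (∑ l, (Dv ℂ).T (m + 2) o' o l • Dat.X ℂ (lev (m + 2)) l c) ((Dv ℂ).piv (m + 2) c)
      (200 ^ (n - 1)) (12 * 200 ^ (n - 1)) hB ?_ ?_
    · simp only [(Dv ℂ).Tpiv, one_smul] at h0
      refine h0.trans ?_
      simp only [Fintype.card_prod, Fintype.card_fin]
      push_cast
      linarith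
    · intro q hq
      refine term_le _ (norm_Tv _ _ _ _) _ _ fun hT => ?_
      have h1 := (Dv ℂ).dom (m + 2) c q hT hq
      rw [show m + 2 + 2 = (m + 1) + 3 from rfl, show m + 2 + 1 = m + 3 from rfl, lev_add,
            lev_add] at h1
      simp only [List.map_cons, List.map_nil, List.sum_cons, List.sum_nil, Ph, Dat.wt] at hn ⊢
      have e1 : lev (m + 1) + 1 + 1 = lev (m + 1) + 2 := rfl
      have e2 : lev m + 1 + 1 = lev m + 2 := rfl
      rw [e1, e2] at hn ⊢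
      omega
    · refine lin_le _ (fun l => norm_Tv _ _ _ _) (fun l => (lev (m + 2), l, c)) _ fun l => ?_
      have h1 := Uv_le (lev (m + 2)) l
      have h2 := Uv_le (lev (m + 2) + 1) c
      change _ ≤ n - 1
      simp only [Ph, Dat.wt] at hn ⊢
      have h3 : (Dv ℂ).U (lev (m + 2)) l = Uv (lev (m + 2)) l := rfl
      have h4 : (Dv ℂ).U (lev (m + 2) + 1) c = Uv (lev (m + 2) + 1) c := rfl
      rw [h3, h4]
      have h5 : lev m = 2 * (m / 3) := rfl
      have h6 : lev (m + 1) = 2 * ((m + 1) / 3) := rfl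
      have h7 : lev (m + 2) = 2 * ((m + 2) / 3) := rfl
      omega

end Pool.Agent.V11319
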